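import Pool.Agent.Y502.HC.Frame

/-! # Hopf fillings: averages over groups of isometries which act transitively on the sphere -/

set_option autoImplicit false

open Real Set MeasureTheory Metric
open scoped ENNReal

namespace Pool.Agent.L7h48.HF

open Pool.Agent.Y499.HC Pool.Agent.Y502.HC

variable {d : ℕ}

lemma act_coord (g : O d) (x : E d) (i : Fin (d + 1)) :
    act g x i = ∑ j, (g : Matrix (Fin (d + 1)) (Fin (d + 1)) ℝ) i j * x j := by
  rw [act_apply, WithLp.ofLp_sum, Finset.sum_apply]
  refine Finset.sum_congr rfl fun j _ => ?_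
  rw [PiLp.smul_apply, smul_eq_mul, Phi_apply]
  ring

lemma act_mul (g h : O d) (x : E d) : act (g * h) x = act g (act h x) := by
  ext i
  rw [act_coord, act_coord]
  simp only [act_coord]
  have e : ∀ j, ((g * h : O d) : Matrix (Fin (d + 1)) (Fin (d + 1)) ℝ) i j =
      ∑ k, (g : Matrix (Fin (d + 1)) (Fin (d + 1)) ℝ) i k *
        (h : Matrix (Fin (d + 1)) (Fin (d + 1)) ℝ) k j := fun j => Matrix.mul_apply
  simp only [e, Finset.sum_mul, Finset.mul_sum]
  rw [Finset.sum_comm]
  refine Finset.sum_congr rfl fun k _ => Finset.sum_congr rfl fun j _ => ?_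
  ring

lemma act_one (x : E d) : act (1 : O d) x = x := by
  ext i
  rw [act_coord]
  have e : ∀ j, ((1 : O d) : Matrix (Fin (d + 1)) (Fin (d + 1)) ℝ) i j = if i = j then 1 else 0 :=
    fun j => Matrix.one_apply
  simp only [e]
  simp

lemma exists_act (L : E d ≃ₗᵢ[ℝ] E d) : ∃ g : O d, ∀ x, act g x = L x := by
  classical
  have hk : (Matrix.of fun i j : Fin (d + 1) => L (EuclideanSpace.single j 1) i) ∈
      Matrix.orthogonalGroup (Fin (d + 1)) ℝ := by
    rw [Matrix.mem_orthogonalGroup_iff']
    ext j k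
    rw [Matrix.mul_apply, Matrix.one_apply]
    have h : inner ℝ (L (EuclideanSpace.single j 1)) (L (EuclideanSpace.single k 1)) =
        if j = k then (1 : ℝ) else 0 := by
      rw [L.inner_map_map]
      simp [EuclideanSpace.inner_single_left, Pi.single_apply]
    rw [PiLp.inner_apply] at h
    simp only [RCLike.inner_apply, conj_trivial] at h
    rw [← h]
    refine Finset.sum_congr rfl fun i _ => ?_
    rw [Matrix.transpose_apply, Matrix.of_apply, Matrix.of_apply]
    ring
  refine ⟨⟨_, hk⟩, fun x => ?_⟩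
  have hx : x = ∑ j, x j • EuclideanSpace.single j (1 : ℝ) := by
    ext i
    rw [WithLp.ofLp_sum, Finset.sum_apply]
    simp [Pi.single_apply]
  conv_rhs => rw [hx, map_sum]
  rw [act_apply]
  refine Finset.sum_congr rfl fun j _ => ?_
  rw [L.map_smul]
  rfl

lemma continuous_act : Continuous (fun p : O d × E d => act p.1 p.2) := by
  simp only [act_apply]
  refine continuous_finsetSum _ fun j _ => ?_
  have h2 : Continuous (fun p : O d × E d => p.2 j) :=
    (EuclideanSpace.proj (𝕜 := ℝ) j).continuous.comp continuous_snd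
  have h3 : Continuous (fun p : O d × E d => (Phi p.1).1 j) :=
    (continuous_apply j).comp (continuous_subtype_val.comp (continuous_Phi.comp continuous_fst))
  exact h2.smul h3

/-- The isometries which commute with all maps of a set. -/
noncomputable def Ce (T : Set (E d → E d)) : Subgroup (O d) where
  carrier := {g | ∀ A ∈ T, ∀ v, act g (A v) = A (act g v)}
  mul_mem' := by
    intro g h hg hh A hA v
    rw [act_mul, act_mul, hh A hA, hg A hA]
  one_mem' := by
    intro A _ v
    rw [act_one, act_one]
  inv_mem' := by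
    intro g hg A hA v
    have h1 := hg A hA (act g⁻¹ v)
    rw [← act_mul g g⁻¹, mul_inv_cancel, act_one] at h1
    rw [← h1, ← act_mul, inv_mul_cancel, act_one]

lemma mem_Ce {T : Set (E d → E d)} {g : O d} :
    g ∈ Ce T ↔ ∀ A ∈ T, ∀ v, act g (A v) = A (act g v) := Iff.rfl

lemma continuous_act_left (w : E d) : Continuous fun g : O d => act g w :=
  continuous_act.comp (f := fun g : O d => (g, w)) (by fun_prop)

lemma Ce_closed (T : Set (E d → E d)) (hT : ∀ A ∈ T, Continuous A) :
    IsClosed (Ce T : Set (O d)) := by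
  have h0 : (Ce T : Set (O d)) = ⋂ A ∈ T, ⋂ v, {g | act g (A v) = A (act g v)} := by
    ext g
    simp only [mem_iInter, SetLike.mem_coe, mem_Ce, mem_ofPred_eq]
  rw [h0]
  refine isClosed_biInter fun A hA => isClosed_iInter fun v => ?_
  exact isClosed_eq (continuous_act_left _) ((hT A hA).comp (continuous_act_left v))

/-- The Haar measure. -/
noncomputable def muT (T : Set (E d → E d)) [CompactSpace (Ce T)] : Measure (Ce T) :=
  Measure.haarMeasure ⊤

instance (T : Set (E d → E d)) [CompactSpace (Ce T)] : (muT T).IsHaarMeasure := by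
  unfold muT
  infer_instance

instance (T : Set (E d → E d)) [CompactSpace (Ce T)] : IsProbabilityMeasure (muT T) := by
  constructor
  have h := Measure.haarMeasure_self (G := Ce T) (K₀ := ⊤)
  simpa [muT] using h

lemma muT_right (T : Set (E d → E d)) [CompactSpace (Ce T)] (A : Ce T) {F : Ce T → ℝ}
    (hF : Continuous F) : ∫ g, F (g * A) ∂(muT T) = ∫ g, F g ∂(muT T) := by
  have hmap : (muT T).map (· * A) = muT T := by
    have : IsProbabilityMeasure ((muT T).map (· * A)) :=
      Measure.isProbabilityMeasure_map (measurable_mul_const A).aemeasurable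
    exact Measure.isHaarMeasure_eq_of_isProbabilityMeasure _ _
  have h := integral_map (μ := muT T) (φ := (· * A)) (measurable_mul_const A).aemeasurable (f := F)
    hF.aestronglyMeasurable
  rw [hmap] at h
  exact h.symm

lemma continuous_actT (T : Set (E d → E d)) :
    Continuous (fun p : Ce T × Sph d => actS (p.1 : O d) p.2) :=
  continuous_actS.comp (f := fun p : Ce T × Sph d => ((p.1 : O d), p.2)) (by fun_prop)

lemma continuous_actT_left (T : Set (E d → E d)) (x : Sph d) :
    Continuous (fun g : Ce T => actS (g : O d) x) :=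
  (continuous_actT T).comp (f := fun g : Ce T => (g, x)) (by fun_prop)

lemma avg_const (T : Set (E d → E d)) [CompactSpace (Ce T)]
    (htr : ∀ x y : Sph d, ∃ L : E d ≃ₗᵢ[ℝ] E d, (∀ A ∈ T, ∀ v, L (A v) = A (L v)) ∧
      L (x : E d) = y) {f : Sph d → ℝ} (hf : Continuous f) (x y : Sph d) :
    ∫ g : Ce T, f (actS (g : O d) x) ∂(muT T) = ∫ g : Ce T, f (actS (g : O d) y) ∂(muT T) := by
  obtain ⟨L, hL, hxy⟩ := htr y x
  obtain ⟨k, hk⟩ := exists_act L
  have hkT : k ∈ Ce T := by
    rw [mem_Ce]
    intro A hA v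
    rw [hk, hk]
    exact hL A hA v
  have hF : Continuous (fun g : Ce T => f (actS (g : O d) y)) := hf.comp (continuous_actT_left T y)
  rw [← muT_right T ⟨k, hkT⟩ hF]
  refine integral_congr_ae (Filter.Eventually.of_forall fun g => ?_)
  have e : actS (g : O d) x = actS ((g : O d) * k) y := by
    apply Subtype.ext
    show act (g : O d) (x : E d) = act ((g : O d) * k) (y : E d)
    rw [act_mul, hk, hxy]
  show f (actS (g : O d) x) = f (actS ((g : O d) * k) y)
  rw [e]

/-- The average over the isometries which commute with the maps of `T`. -/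
theorem avg_eq (T : Set (E d → E d)) [CompactSpace (Ce T)]
    (htr : ∀ x y : Sph d, ∃ L : E d ≃ₗᵢ[ℝ] E d, (∀ A ∈ T, ∀ v, L (A v) = A (L v)) ∧
      L (x : E d) = y) {f : Sph d → ℝ} (hf : Continuous f) (x : Sph d) :
    ((σ d) univ).toReal * ∫ g : Ce T, f (actS (g : O d) x) ∂(muT T) = ∫ x, f x ∂(σ d) := by
  have hswap : ∫ g : Ce T, ∫ x, f (actS (g : O d) x) ∂(σ d) ∂(muT T) =
      ∫ x, ∫ g : Ce T, f (actS (g : O d) x) ∂(muT T) ∂(σ d) := by
    apply integral_integral_swap
    exact (hf.comp (continuous_actT T)).integrable_of_hasCompactSupport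
      (HasCompactSupport.of_compactSpace _)
  have h1 : ∫ g : Ce T, ∫ x, f (actS (g : O d) x) ∂(σ d) ∂(muT T) = ∫ x, f x ∂(σ d) := by
    have : ∀ g : Ce T, ∫ x, f (actS (g : O d) x) ∂(σ d) = ∫ x, f x ∂(σ d) := fun g =>
      integral_actS (g : O d) hf
    simp only [this]
    rw [integral_const]
    simp
  rw [← h1, hswap]
  have h2 : ∀ y, ∫ g : Ce T, f (actS (g : O d) y) ∂(muT T) =
      ∫ g : Ce T, f (actS (g : O d) x) ∂(muT T) := fun y => avg_const T htr hf y x
  simp only [h2]
  rw [integral_const]
  simp [Measure.real]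

end Pool.Agent.L7h48.HF
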