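import Pool.Agent.Y888.HC.Det

/-! # Hopf fillings: the volume densities -/

set_option autoImplicit false

open Matrix

namespace Pool.Agent.L7h48.HF

open Pool.Agent.Y499.HC Pool.Agent.Y888.HC

variable {d : ℕ}

lemma det_step {M : Matrix (Fin (d + 1)) (Fin (d + 1)) ℝ} {z : Fin (d + 1) → ℝ}
    (hz : z ⬝ᵥ z = 1) {b : ℝ} (hb : b ≠ 0) (hM : M *ᵥ z = b • z) (α : ℝ) :
    det (M + α • vecMulVec z z) = det M * (1 + α / b) := by
  have h1 : M + α • vecMulVec z z = M * (1 + (α / b) • vecMulVec z z) := by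
    rw [mul_add, mul_one, mul_smul_comm, mul_vecMulVec, hM, smul_vecMulVec, smul_smul,
      div_mul_cancel₀ _ hb]
  have h2 : (1 + (α / b) • vecMulVec z z : Matrix (Fin (d + 1)) (Fin (d + 1)) ℝ) =
      1 + replicateCol Unit ((α / b) • z) * replicateRow Unit z := by
    ext i j
    simp [mul_apply, vecMulVec_apply]
  rw [h1, det_mul, h2, det_one_add_replicateCol_mul_replicateRow, dotProduct_smul, hz,
    smul_eq_mul, mul_one]

lemma of_eq (x : E d) : (Matrix.of fun i j => x i * x j : Matrix (Fin (d + 1)) (Fin (d + 1)) ℝ) =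
    vecMulVec x.ofLp x.ofLp := by
  ext i j
  simp [vecMulVec_apply]

lemma inner_dot (x y : E d) : (inner ℝ x y : ℝ) = x.ofLp ⬝ᵥ y.ofLp := by
  rw [PiLp.inner_apply, dotProduct]
  refine Finset.sum_congr rfl fun i _ => ?_
  simp [mul_comm]

/-- The restriction of a quadratic form to the tangent space is determined by its values. -/
theorem PgP_gen (g M : Matrix (Fin (d + 1)) (Fin (d + 1)) ℝ) (hg : g.IsSymm) (hM : M.IsSymm)
    (x : E d) (hx : ‖x‖ = 1) (hMx : M *ᵥ x.ofLp = 0)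
    (h : ∀ v : E d, inner ℝ x v = 0 → quad g v = quad M v) :
    (1 - Matrix.of fun i j => x i * x j) * g * (1 - Matrix.of fun i j => x i * x j) = M := by
  rw [of_eq]
  have hxx : x.ofLp ⬝ᵥ x.ofLp = 1 := by
    rw [← inner_dot, real_inner_self_eq_norm_sq, hx, one_pow]
  set K : Matrix (Fin (d + 1)) (Fin (d + 1)) ℝ := vecMulVec x.ofLp x.ofLp with hK
  have hKt : Kᵀ = K := by
    rw [hK, transpose_vecMulVec]
  set P := 1 - K with hP
  have hPt : Pᵀ = P := by rw [hP, transpose_sub, transpose_one, hKt]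
  have hPx : P *ᵥ x.ofLp = 0 := by
    rw [hP, sub_mulVec, one_mulVec, hK, vecMulVec_mulVec, hxx]
    simp
  have hMK : M * K = 0 := by
    rw [hK, mul_vecMulVec, hMx]
    ext i j
    simp [vecMulVec_apply]
  have hMP : M * P = M := by rw [hP, mul_sub, mul_one, hMK, sub_zero]
  have hPM : P * M = M := by
    have h1 := congrArg Matrix.transpose hMP
    rwa [transpose_mul, hPt, hM.eq] at h1
  rw [← sub_eq_zero]
  apply sym_zero
  · change (P * g * P - M)ᵀ = P * g * P - M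
    rw [transpose_sub, transpose_mul, transpose_mul, hPt, hg.eq, hM.eq, mul_assoc]
  · intro v
    have e1 : v ⬝ᵥ (P * g * P) *ᵥ v = (P *ᵥ v) ⬝ᵥ g *ᵥ (P *ᵥ v) := by
      rw [← mulVec_mulVec, ← mulVec_mulVec, dotProduct_mulVec, ← mulVec_transpose, hPt]
    have e2 : v ⬝ᵥ M *ᵥ v = (P *ᵥ v) ⬝ᵥ M *ᵥ (P *ᵥ v) := by
      conv_lhs => rw [← hPM, ← hMP]
      rw [← mulVec_mulVec, ← mulVec_mulVec, dotProduct_mulVec, ← mulVec_transpose, hPt]
    rw [sub_mulVec, dotProduct_sub, e1, e2]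
    have h1 := h (WithLp.toLp 2 (P *ᵥ v)) (by
      rw [inner_dot]
      change x.ofLp ⬝ᵥ P *ᵥ v = 0
      rw [dotProduct_mulVec, ← mulVec_transpose, hPt, hPx, zero_dotProduct])
    rw [quad_eq, quad_eq] at h1
    rw [sub_eq_zero]
    exact h1

lemma smul_vec (c : ℝ) (x : Fin (d + 1) → ℝ) (y : Fin (d + 1) → ℝ) :
    (c • vecMulVec x x) *ᵥ y = (c * (x ⬝ᵥ y)) • x := by
  rw [smul_mulVec, vecMulVec_mulVec]
  ext i
  simp
  ring

lemma quad_vec (z v : E d) (c : ℝ) :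
    v.ofLp ⬝ᵥ (c • vecMulVec z.ofLp z.ofLp) *ᵥ v.ofLp = c * inner ℝ z v ^ 2 := by
  rw [smul_vec, dotProduct_smul, smul_eq_mul, inner_dot, dotProduct_comm v.ofLp]
  ring

/-- The volume density of a metric with one distinguished direction. -/
theorem det_one (hd : 1 ≤ d) (g : Matrix (Fin (d + 1)) (Fin (d + 1)) ℝ) (hg : g.IsSymm)
    (x z : E d) (hx : ‖x‖ = 1) (hz : ‖z‖ = 1) (hxz : inner ℝ x z = 0) {a b : ℝ} (hb : b ≠ 0)
    (h : ∀ v : E d, inner ℝ x v = 0 →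
      quad g v = a ^ 2 * inner ℝ z v ^ 2 + b ^ 2 * (‖v‖ ^ 2 - inner ℝ z v ^ 2)) :
    detTan g x = a ^ 2 * (b ^ 2) ^ (d - 1) := by
  have hxx : x.ofLp ⬝ᵥ x.ofLp = 1 := by
    rw [← inner_dot, real_inner_self_eq_norm_sq, hx, one_pow]
  have hzz : z.ofLp ⬝ᵥ z.ofLp = 1 := by
    rw [← inner_dot, real_inner_self_eq_norm_sq, hz, one_pow]
  have hxz' : x.ofLp ⬝ᵥ z.ofLp = 0 := by rw [← inner_dot, hxz]
  have hzx' : z.ofLp ⬝ᵥ x.ofLp = 0 := by rw [dotProduct_comm, hxz']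
  have hb2 : b ^ 2 ≠ 0 := pow_ne_zero 2 hb
  set M : Matrix (Fin (d + 1)) (Fin (d + 1)) ℝ :=
    b ^ 2 • (1 - vecMulVec x.ofLp x.ofLp) + (a ^ 2 - b ^ 2) • vecMulVec z.ofLp z.ofLp with hM
  have hMs : M.IsSymm := by
    show Mᵀ = M
    rw [hM, transpose_add, transpose_smul, transpose_smul, transpose_sub, transpose_one,
      transpose_vecMulVec, transpose_vecMulVec]
  have hMx : M *ᵥ x.ofLp = 0 := by
    rw [hM, add_mulVec, smul_mulVec, sub_mulVec, one_mulVec, vecMulVec_mulVec, hxx, smul_vec, hzx']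
    simp
  have hP := PgP_gen g M hg hMs x hx hMx (fun v hv => by
    rw [h v hv, quad_eq, hM, add_mulVec, dotProduct_add, quad_vec, smul_mulVec, sub_mulVec,
      one_mulVec, dotProduct_smul, dotProduct_sub]
    have e1 := quad_vec x v 1
    rw [one_smul, one_mul, hv] at e1
    have e2 : v.ofLp ⬝ᵥ v.ofLp = ‖v‖ ^ 2 := by
      rw [← inner_dot, real_inner_self_eq_norm_sq]
    rw [e1, e2, smul_eq_mul]
    ring)
  unfold detTan
  rw [hP, of_eq]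
  have e3 : M + vecMulVec x.ofLp x.ofLp = (b ^ 2 • (1 - vecMulVec x.ofLp x.ofLp) +
      vecMulVec x.ofLp x.ofLp) + (a ^ 2 - b ^ 2) • vecMulVec z.ofLp z.ofLp := by
    rw [hM]
    abel
  have hxx2 : ∑ i, x i * x i = 1 := hxx
  have hd1 := det_J x hxx2 (b ^ 2) hb2
  rw [of_eq] at hd1
  rw [e3, det_step hzz hb2 ?_, hd1]
  · have : d = (d - 1) + 1 := by omega
    conv_lhs => rw [this, pow_succ]
    field_simp
    ring
  · rw [add_mulVec, smul_mulVec, sub_mulVec, one_mulVec, vecMulVec_mulVec, hxz']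
    simp

/-- The volume density of a metric with three distinguished directions. -/
theorem det_three (hd : 3 ≤ d) (g : Matrix (Fin (d + 1)) (Fin (d + 1)) ℝ) (hg : g.IsSymm)
    (x z₁ z₂ z₃ : E d) (hx : ‖x‖ = 1) (h1 : ‖z₁‖ = 1) (h2 : ‖z₂‖ = 1) (h3 : ‖z₃‖ = 1)
    (hx1 : inner ℝ x z₁ = (0 : ℝ)) (hx2 : inner ℝ x z₂ = (0 : ℝ)) (hx3 : inner ℝ x z₃ = (0 : ℝ))
    (h12 : inner ℝ z₁ z₂ = (0 : ℝ)) (h13 : inner ℝ z₁ z₃ = (0 : ℝ))
    (h23 : inner ℝ z₂ z₃ = (0 : ℝ)) {a₁ a₂ b : ℝ} (hb : b ≠ 0)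
    (h : ∀ v : E d, inner ℝ x v = 0 →
      quad g v = a₁ ^ 2 * inner ℝ z₁ v ^ 2 + a₂ ^ 2 * (inner ℝ z₂ v ^ 2 + inner ℝ z₃ v ^ 2) +
        b ^ 2 * (‖v‖ ^ 2 - inner ℝ z₁ v ^ 2 - (inner ℝ z₂ v ^ 2 + inner ℝ z₃ v ^ 2))) :
    detTan g x = a₁ ^ 2 * (a₂ ^ 2) ^ 2 * (b ^ 2) ^ (d - 3) := by
  have unit : ∀ z : E d, ‖z‖ = 1 → z.ofLp ⬝ᵥ z.ofLp = 1 := by
    intro z hz
    rw [← inner_dot, real_inner_self_eq_norm_sq, hz, one_pow]
  have orth : ∀ z w : E d, inner ℝ z w = (0 : ℝ) → z.ofLp ⬝ᵥ w.ofLp = 0 ∧ w.ofLp ⬝ᵥ z.ofLp = 0 := by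
    intro z w hzw
    rw [← inner_dot, hzw, dotProduct_comm, ← inner_dot, hzw]
    exact ⟨rfl, rfl⟩
  have hxx := unit x hx
  have h11 := unit z₁ h1
  have h22 := unit z₂ h2
  have h33 := unit z₃ h3
  obtain ⟨hx1a, hx1b⟩ := orth x z₁ hx1
  obtain ⟨hx2a, hx2b⟩ := orth x z₂ hx2
  obtain ⟨hx3a, hx3b⟩ := orth x z₃ hx3
  obtain ⟨h12a, h12b⟩ := orth z₁ z₂ h12
  obtain ⟨h13a, h13b⟩ := orth z₁ z₃ h13
  obtain ⟨h23a, h23b⟩ := orth z₂ z₃ h23
  have hb2 : b ^ 2 ≠ 0 := pow_ne_zero 2 hb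
  set M : Matrix (Fin (d + 1)) (Fin (d + 1)) ℝ :=
    b ^ 2 • (1 - vecMulVec x.ofLp x.ofLp) + (a₁ ^ 2 - b ^ 2) • vecMulVec z₁.ofLp z₁.ofLp +
      (a₂ ^ 2 - b ^ 2) • vecMulVec z₂.ofLp z₂.ofLp +
      (a₂ ^ 2 - b ^ 2) • vecMulVec z₃.ofLp z₃.ofLp with hM
  have hMs : M.IsSymm := by
    show Mᵀ = M
    rw [hM]
    simp only [transpose_add, transpose_smul, transpose_sub, transpose_one, transpose_vecMulVec]
  have hMx : M *ᵥ x.ofLp = 0 := by
    rw [hM]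
    simp only [add_mulVec, smul_mulVec, sub_mulVec, one_mulVec, vecMulVec_mulVec, hxx, hx1b, hx2b,
      hx3b]
    simp
  have hP := PgP_gen g M hg hMs x hx hMx (fun v hv => by
    rw [h v hv, quad_eq, hM]
    simp only [add_mulVec, dotProduct_add, quad_vec]
    rw [smul_mulVec, sub_mulVec, one_mulVec, dotProduct_smul, dotProduct_sub]
    have e1 := quad_vec x v 1
    rw [one_smul, one_mul, hv] at e1
    have e2 : v.ofLp ⬝ᵥ v.ofLp = ‖v‖ ^ 2 := by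
      rw [← inner_dot, real_inner_self_eq_norm_sq]
    rw [e1, e2, smul_eq_mul]
    ring)
  unfold detTan
  rw [hP, of_eq]
  set N₀ : Matrix (Fin (d + 1)) (Fin (d + 1)) ℝ := b ^ 2 • (1 - vecMulVec x.ofLp x.ofLp) +
      vecMulVec x.ofLp x.ofLp with hN₀
  have e3 : M + vecMulVec x.ofLp x.ofLp = N₀ + (a₁ ^ 2 - b ^ 2) • vecMulVec z₁.ofLp z₁.ofLp +
      (a₂ ^ 2 - b ^ 2) • vecMulVec z₂.ofLp z₂.ofLp +
      (a₂ ^ 2 - b ^ 2) • vecMulVec z₃.ofLp z₃.ofLp := by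
    rw [hM, hN₀]
    abel
  have hxx2 : ∑ i, x i * x i = 1 := hxx
  have hd1 := det_J x hxx2 (b ^ 2) hb2
  rw [of_eq] at hd1
  have hN : ∀ z : Fin (d + 1) → ℝ, x.ofLp ⬝ᵥ z = 0 → N₀ *ᵥ z = b ^ 2 • z := by
    intro z hz
    rw [hN₀, add_mulVec, smul_mulVec, sub_mulVec, one_mulVec, vecMulVec_mulVec, hz]
    simp
  rw [e3, det_step h33 hb2 ?_, det_step h22 hb2 ?_, det_step h11 hb2 (hN _ hx1a), hd1]
  · have : d = (d - 3) + 3 := by omega
    conv_lhs => rw [this, pow_add]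
    field_simp
    ring
  · rw [add_mulVec, hN _ hx2a, smul_vec, h12a]
    simp
  · rw [add_mulVec, add_mulVec, hN _ hx3a, smul_vec, smul_vec, h13a, h23a]
    simp

end Pool.Agent.L7h48.HF
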