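import Pool.Agent.L7h48.HF.Three

/-! # Hopf fillings: the inequality for the generating function -/

set_option autoImplicit false

open Real Set MeasureTheory Metric

namespace Pool.Agent.L7h48.HF

variable {ι : Type} [Fintype ι]

/-- The square of the norm of the momentum `P` at the depth `s`. -/
noncomputable def N2 (a : ι → ℝ → ℝ) (P : ι → ℝ) (s : ℝ) : ℝ := ∑ j, P j ^ 2 / a j s ^ 2

/-- The norm of the momentum. -/
noncomputable def nrm (P : ι → ℝ) : ℝ := √(∑ j, P j ^ 2)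

/-- The generating function. -/
noncomputable def W (R : ℝ) (a : ι → ℝ → ℝ) (P : ι → ℝ) : ℝ :=
  2 * ∫ x in Ioo 0 R, √(1 - N2 a P x)

lemma nrm_nonneg (P : ι → ℝ) : 0 ≤ nrm P := Real.sqrt_nonneg _

lemma cs (P D : ι → ℝ) (hD : ∑ j, D j ^ 2 ≤ π ^ 2) : ∑ j, P j * D j ≤ π * nrm P := by
  have h1 := Finset.sum_mul_sq_le_sq_mul_sq Finset.univ P D
  have h2 : (∑ j, P j * D j) ^ 2 ≤ (π * nrm P) ^ 2 := by
    rw [mul_pow]
    unfold nrm
    rw [Real.sq_sqrt (Finset.sum_nonneg fun j _ => sq_nonneg _), mul_comm]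
    exact h1.trans (mul_le_mul_of_nonneg_left hD (Finset.sum_nonneg fun j _ => sq_nonneg _))
  exact abs_le_of_sq_le_sq' h2 (mul_nonneg pi_pos.le (nrm_nonneg P)) |>.2

lemma conc {M x : ℝ} (hM0 : 0 ≤ M) (hM1 : M ≤ 1) (hx : x ^ 2 ≤ 1) :
    1 - M + M * √(1 - x ^ 2) ≤ √(1 - (M * x) ^ 2) := by
  have h0 : 0 ≤ √(1 - x ^ 2) := Real.sqrt_nonneg _
  have h1 : √(1 - x ^ 2) ^ 2 = 1 - x ^ 2 := Real.sq_sqrt (by linarith)
  have h2 : √(1 - x ^ 2) ≤ 1 := Real.sqrt_le_one.2 (by nlinarith)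
  apply Real.le_sqrt_of_sq_le
  have h3 : 0 ≤ 2 * M * (1 - M) * (1 - √(1 - x ^ 2)) := by
    have := sub_nonneg.2 hM1
    have := sub_nonneg.2 h2
    positivity
  have h4 : (1 - M + M * √(1 - x ^ 2)) ^ 2 =
      1 - (M * x) ^ 2 - 2 * M * (1 - M) * (1 - √(1 - x ^ 2)) := by
    linear_combination M ^ 2 * h1
  linarith

section

variable {R : ℝ} {a : ι → ℝ → ℝ} (ha : ∀ j, ContinuousOn (a j) (Ico 0 R))
  (hpos : ∀ j, ∀ s ∈ Ico 0 R, 0 < a j s)

include ha hpos

lemma N2_cont (P : ι → ℝ) : ContinuousOn (N2 a P) (Ico 0 R) := by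
  refine continuousOn_finsetSum _ fun j _ => ContinuousOn.div continuousOn_const ((ha j).pow 2) ?_
  intro x hx
  exact (pow_pos (hpos j x hx) 2).ne'

lemma A0 [Nonempty ι] (hL : Long R a) {P : ι → ℝ} (hP : ∀ j, 0 < P j) {τ lam : ℝ}
    (hτ : τ ∈ Ico 0 R) (hN : ∀ x ∈ Icc 0 τ, N2 a P x < 1) (hlam : 0 ≤ lam)
    (hπ : ∑ j, (2 * (∫ x in (0 : ℝ)..τ, P j / (a j x ^ 2 * √(1 - N2 a P x))) +
      lam * (P j / a j τ ^ 2)) ^ 2 = π ^ 2) :
    π ≤ 2 * (∫ x in (0 : ℝ)..τ, √(1 - N2 a P x)) + π * nrm P +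
      lam * √(N2 a P τ) * (1 - √(N2 a P τ)) ∧ lam * N2 a P τ ≤ π * nrm P := by
  have hsub : Icc 0 τ ⊆ Ico 0 R := fun x hx => ⟨hx.1, hx.2.trans_lt hτ.2⟩
  have hNc : ContinuousOn (N2 a P) (Icc 0 τ) := (N2_cont ha hpos P).mono hsub
  have hwc : ContinuousOn (fun x => √(1 - N2 a P x)) (Icc 0 τ) :=
    (continuousOn_const.sub hNc).sqrt
  have hwpos : ∀ x ∈ Icc 0 τ, 0 < √(1 - N2 a P x) := fun x hx =>
    Real.sqrt_pos.2 (by linarith [hN x hx])
  set g : ι → ℝ → ℝ := fun j x => P j / (a j x ^ 2 * √(1 - N2 a P x)) with hg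
  have hgpos : ∀ j, ∀ x ∈ Icc 0 τ, 0 < g j x := fun j x hx =>
    div_pos (hP j) (mul_pos (pow_pos (hpos j x (hsub hx)) 2) (hwpos x hx))
  have hgc : ∀ j, ContinuousOn (g j) (Icc 0 τ) := fun j =>
    ContinuousOn.div continuousOn_const ((((ha j).mono hsub).pow 2).mul hwc)
      fun x hx => (mul_pos (pow_pos (hpos j x (hsub hx)) 2) (hwpos x hx)).ne'
  have hgi : ∀ j, 0 ≤ ∫ x in (0 : ℝ)..τ, g j x := fun j =>
    intervalIntegral.integral_nonneg hτ.1 fun x hx => (hgpos j x hx).le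
  have hδ : ∀ j, 0 < P j / a j τ ^ 2 := fun j => div_pos (hP j) (pow_pos (hpos j τ hτ) 2)
  have hD : ∀ j, 0 < 2 * (∫ x in (0 : ℝ)..τ, g j x) + lam * (P j / a j τ ^ 2) := by
    intro j
    rcases hlam.lt_or_eq with h1 | h1
    · have h2 := mul_pos h1 (hδ j)
      have h3 := hgi j
      linarith
    · rcases hτ.1.lt_or_eq with h2 | h2
      · have h3 : 0 < ∫ x in (0 : ℝ)..τ, g j x := by
          refine intervalIntegral.intervalIntegral_pos_of_pos_on
            (by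
              refine ContinuousOn.intervalIntegrable ?_
              rw [uIcc_of_le hτ.1]
              exact hgc j) (fun x hx => hgpos j x (Ioo_subset_Icc_self hx)) h2
        rw [← h1]
        linarith
      · exfalso
        rw [← h1, ← h2] at hπ
        simp only [intervalIntegral.integral_same, mul_zero, zero_mul, add_zero] at hπ
        have h3 : (0 : ℝ) < π ^ 2 := by positivity
        rw [← hπ] at h3
        simp at h3
  have hmain := three ha hL hτ hgc (e := fun j => lam * (P j / a j τ ^ 2)) hD hπ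
  have e1 : ∀ x ∈ Icc 0 τ, √(1 + ∑ j, a j x ^ 2 * g j x ^ 2) =
      √(1 - N2 a P x) + ∑ j, P j * g j x := by
    intro x hx
    have hw := hwpos x hx
    have hw2 : √(1 - N2 a P x) ^ 2 = 1 - N2 a P x :=
      Real.sq_sqrt (by linarith [hN x hx])
    have s1 : ∑ j, a j x ^ 2 * g j x ^ 2 = N2 a P x / √(1 - N2 a P x) ^ 2 := by
      unfold N2
      rw [Finset.sum_div]
      refine Finset.sum_congr rfl fun j _ => ?_
      simp only [hg]
      have h0 := (hpos j x (hsub hx)).ne'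
      have h3 : √(1 - ∑ j, P j ^ 2 / a j x ^ 2) ≠ 0 := hw.ne'
      unfold N2
      field_simp
    have s2 : ∑ j, P j * g j x = N2 a P x / √(1 - N2 a P x) := by
      have : N2 a P x / √(1 - N2 a P x) = (∑ j, P j ^ 2 / a j x ^ 2) / √(1 - N2 a P x) := rfl
      rw [this, Finset.sum_div]
      refine Finset.sum_congr rfl fun j _ => ?_
      simp only [hg]
      have h0 := (hpos j x (hsub hx)).ne'
      field_simp
    rw [s1, s2, hw2]
    have s3 : 1 + N2 a P x / (1 - N2 a P x) = (1 / √(1 - N2 a P x)) ^ 2 := by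
      rw [div_pow, hw2]
      have : 1 - N2 a P x ≠ 0 := by linarith [hN x hx]
      field_simp
      ring
    rw [s3, Real.sqrt_sq (by positivity)]
    field_simp
    rw [hw2]
    ring
  have e2 : ∑ j, a j τ ^ 2 * (lam * (P j / a j τ ^ 2)) ^ 2 = lam ^ 2 * N2 a P τ := by
    unfold N2
    rw [Finset.mul_sum]
    refine Finset.sum_congr rfl fun j _ => ?_
    have h0 := (hpos j τ hτ).ne'
    field_simp
  have e3 : ∫ x in (0 : ℝ)..τ, √(1 + ∑ j, a j x ^ 2 * g j x ^ 2) =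
      (∫ x in (0 : ℝ)..τ, √(1 - N2 a P x)) + ∑ j, P j * ∫ x in (0 : ℝ)..τ, g j x := by
    rw [intervalIntegral.integral_congr (g := fun x => √(1 - N2 a P x) + ∑ j, P j * g j x)]
    · rw [intervalIntegral.integral_add, intervalIntegral.integral_finsetSum]
      · simp only [intervalIntegral.integral_const_mul]
      · intro j _
        refine ContinuousOn.intervalIntegrable ?_
        rw [uIcc_of_le hτ.1]
        exact continuousOn_const.mul (hgc j)
      · refine ContinuousOn.intervalIntegrable ?_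
        rw [uIcc_of_le hτ.1]
        exact hwc
      · refine ContinuousOn.intervalIntegrable ?_
        rw [uIcc_of_le hτ.1]
        exact continuousOn_finsetSum _ fun j _ => continuousOn_const.mul (hgc j)
    · intro x hx
      rw [uIcc_of_le hτ.1] at hx
      exact e1 x hx
  have hN0 : 0 ≤ N2 a P τ := Finset.sum_nonneg fun j _ => by positivity
  rw [e3, e2, Real.sqrt_mul (sq_nonneg _), Real.sqrt_sq hlam] at hmain
  have h4 := cs P (fun j => 2 * (∫ x in (0 : ℝ)..τ, g j x) + lam * (P j / a j τ ^ 2)) hπ.le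
  have h5 : ∑ j, P j * (2 * (∫ x in (0 : ℝ)..τ, g j x) + lam * (P j / a j τ ^ 2)) =
      2 * (∑ j, P j * ∫ x in (0 : ℝ)..τ, g j x) + lam * N2 a P τ := by
    unfold N2
    rw [Finset.mul_sum, Finset.mul_sum, ← Finset.sum_add_distrib]
    refine Finset.sum_congr rfl fun j _ => ?_
    ring
  rw [h5] at h4
  have h6 : √(N2 a P τ) * √(N2 a P τ) = N2 a P τ := Real.mul_self_sqrt hN0
  have h7 : lam * √(N2 a P τ) * (1 - √(N2 a P τ)) = lam * √(N2 a P τ) - lam * N2 a P τ := by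
    linear_combination (-lam) * h6
  have h8 : 0 ≤ ∑ j, P j * ∫ x in (0 : ℝ)..τ, g j x :=
    Finset.sum_nonneg fun j _ => mul_nonneg (hP j).le (hgi j)
  constructor
  · rw [h7]
    linarith
  · linarith

lemma D1_cont {P : ι → ℝ} {s₁ : ℝ} (hs : s₁ ∈ Ico 0 R)
    (hN : ∀ x ∈ Icc 0 s₁, N2 a P x < 1) (j : ι) :
    ContinuousOn (fun τ => ∫ x in (0 : ℝ)..τ, P j / (a j x ^ 2 * √(1 - N2 a P x)))
      (Icc 0 s₁) := by
  have hsub : Icc 0 s₁ ⊆ Ico 0 R := fun x hx => ⟨hx.1, hx.2.trans_lt hs.2⟩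
  have hNc : ContinuousOn (N2 a P) (Icc 0 s₁) := (N2_cont ha hpos P).mono hsub
  have hgc : ContinuousOn (fun x => P j / (a j x ^ 2 * √(1 - N2 a P x))) (Icc 0 s₁) := by
    refine ContinuousOn.div continuousOn_const ((((ha j).mono hsub).pow 2).mul
      (continuousOn_const.sub hNc).sqrt) fun x hx => ?_
    exact (mul_pos (pow_pos (hpos j x (hsub hx)) 2)
      (Real.sqrt_pos.2 (by linarith [hN x hx]))).ne'
  have h := intervalIntegral.continuousOn_primitive_interval (μ := volume) (a := 0) (b := s₁)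
    (f := fun x => P j / (a j x ^ 2 * √(1 - N2 a P x)))
    (by
      rw [uIcc_of_le hs.1]
      exact hgc.integrableOn_Icc)
  rwa [uIcc_of_le hs.1] at h

lemma LemA [Nonempty ι] (hL : Long R a) {P : ι → ℝ} (hP : ∀ j, 0 < P j) {s₁ : ℝ}
    (hs : s₁ ∈ Ico 0 R) (hN : ∀ x ∈ Icc 0 s₁, N2 a P x < 1) :
    π * (1 - nrm P) ≤ 2 * (∫ x in (0 : ℝ)..s₁, √(1 - N2 a P x)) +
      π * nrm P * ((1 - √(N2 a P s₁)) / √(N2 a P s₁)) := by
  have hsub : Icc 0 s₁ ⊆ Ico 0 R := fun x hx => ⟨hx.1, hx.2.trans_lt hs.2⟩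
  have hNc : ContinuousOn (N2 a P) (Icc 0 s₁) := (N2_cont ha hpos P).mono hsub
  have hwc : ContinuousOn (fun x => √(1 - N2 a P x)) (Icc 0 s₁) :=
    (continuousOn_const.sub hNc).sqrt
  have hN1 : N2 a P s₁ < 1 := hN s₁ ⟨hs.1, le_rfl⟩
  obtain ⟨j₀⟩ := (inferInstance : Nonempty ι)
  have hNpos : 0 < N2 a P s₁ := by
    refine Finset.sum_pos (fun j _ => ?_) ⟨j₀, Finset.mem_univ _⟩
    exact div_pos (pow_pos (hP j) 2) (pow_pos (hpos j s₁ hs) 2)
  have hν : 0 < √(N2 a P s₁) := Real.sqrt_pos.2 hNpos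
  have hν1 : √(N2 a P s₁) < 1 := by
    rw [Real.sqrt_lt' one_pos]
    simpa using hN1
  have herr : 0 ≤ π * nrm P * ((1 - √(N2 a P s₁)) / √(N2 a P s₁)) :=
    mul_nonneg (mul_nonneg pi_pos.le (nrm_nonneg P)) (div_nonneg (by linarith) hν.le)
  have hδ : ∀ j, 0 < P j / a j s₁ ^ 2 := fun j => div_pos (hP j) (pow_pos (hpos j s₁ hs) 2)
  have hgi : ∀ j, 0 ≤ ∫ x in (0 : ℝ)..s₁, P j / (a j x ^ 2 * √(1 - N2 a P x)) := fun j =>
    intervalIntegral.integral_nonneg hs.1 fun x hx =>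
      div_nonneg (hP j).le (mul_nonneg (sq_nonneg _) (Real.sqrt_nonneg _))
  rcases le_or_gt (∑ j, (2 * ∫ x in (0 : ℝ)..s₁, P j / (a j x ^ 2 * √(1 - N2 a P x))) ^ 2)
    (π ^ 2) with hc | hc
  · -- the displacement is at most `π`
    have hiv := intermediate_value_Icc (a := 0) (b := π / (P j₀ / a j₀ s₁ ^ 2))
      (div_nonneg pi_pos.le (hδ j₀).le)
      (f := fun lam => ∑ j, (2 * (∫ x in (0 : ℝ)..s₁, P j / (a j x ^ 2 * √(1 - N2 a P x))) +
        lam * (P j / a j s₁ ^ 2)) ^ 2) (by fun_prop)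
    have hmem : π ^ 2 ∈ Icc (∑ j, (2 * (∫ x in (0 : ℝ)..s₁, P j /
        (a j x ^ 2 * √(1 - N2 a P x))) + 0 * (P j / a j s₁ ^ 2)) ^ 2)
        (∑ j, (2 * (∫ x in (0 : ℝ)..s₁, P j / (a j x ^ 2 * √(1 - N2 a P x))) +
          π / (P j₀ / a j₀ s₁ ^ 2) * (P j / a j s₁ ^ 2)) ^ 2) := by
      constructor
      · simpa using hc
      · have h1 := Finset.single_le_sum (f := fun j => (2 * (∫ x in (0 : ℝ)..s₁, P j /
          (a j x ^ 2 * √(1 - N2 a P x))) + π / (P j₀ / a j₀ s₁ ^ 2) * (P j / a j s₁ ^ 2)) ^ 2)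
          (fun j _ => sq_nonneg _) (Finset.mem_univ j₀)
        refine le_trans ?_ h1
        have h2 : π / (P j₀ / a j₀ s₁ ^ 2) * (P j₀ / a j₀ s₁ ^ 2) = π :=
          div_mul_cancel₀ _ (hδ j₀).ne'
        simp only [h2]
        exact pow_le_pow_left₀ pi_pos.le (by linarith [hgi j₀]) 2
    obtain ⟨lam, hlam, hlamπ⟩ := hiv hmem
    obtain ⟨h1, h2⟩ := A0 ha hpos hL hP hs hN hlam.1 hlamπ
    have h3 : lam * √(N2 a P s₁) * (1 - √(N2 a P s₁)) ≤
        π * nrm P * ((1 - √(N2 a P s₁)) / √(N2 a P s₁)) := by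
      have h4 : lam * √(N2 a P s₁) * (1 - √(N2 a P s₁)) =
          (lam * N2 a P s₁) * ((1 - √(N2 a P s₁)) / √(N2 a P s₁)) := by
        have h5 : √(N2 a P s₁) * √(N2 a P s₁) = N2 a P s₁ := Real.mul_self_sqrt hNpos.le
        field_simp
        rw [sq, h5]
        ring
      rw [h4]
      exact mul_le_mul_of_nonneg_right h2 (div_nonneg (by linarith) hν.le)
    linarith
  · -- the displacement is larger: stop before
    have hiv := intermediate_value_Icc (a := 0) (b := s₁) hs.1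
      (f := fun τ => ∑ j, (2 * ∫ x in (0 : ℝ)..τ, P j / (a j x ^ 2 * √(1 - N2 a P x))) ^ 2)
      (continuousOn_finsetSum _ fun j _ =>
        (continuousOn_const.mul (D1_cont ha hpos hs hN j)).pow 2)
    obtain ⟨τ, hτ, hτπ⟩ := hiv ⟨by simp; positivity, hc.le⟩
    have hτR : τ ∈ Ico 0 R := hsub hτ
    have hNτ : ∀ x ∈ Icc 0 τ, N2 a P x < 1 := fun x hx => hN x ⟨hx.1, hx.2.trans hτ.2⟩
    obtain ⟨h1, h2⟩ := A0 ha hpos hL hP hτR hNτ le_rfl (lam := 0) (by
      rw [← hτπ]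
      exact Finset.sum_congr rfl fun j _ => by rw [zero_mul, add_zero])
    have h3 : ∫ x in (0 : ℝ)..τ, √(1 - N2 a P x) ≤ ∫ x in (0 : ℝ)..s₁, √(1 - N2 a P x) := by
      refine intervalIntegral.integral_mono_interval le_rfl hτ.1 hτ.2
        (Filter.Eventually.of_forall fun x => Real.sqrt_nonneg _) ?_
      refine ContinuousOn.intervalIntegrable ?_
      rw [uIcc_of_le hs.1]
      exact hwc
    rw [zero_mul, zero_mul, add_zero] at h1
    linarith

lemma N_zero [Nonempty ι] (hR : 0 < R) (hL : Long R a) {P : ι → ℝ} (hP : ∀ j, 0 < P j) :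
    √(N2 a P 0) ≤ nrm P := by
  have h0 : (0 : ℝ) ∈ Ico 0 R := ⟨le_rfl, hR⟩
  obtain ⟨j₀⟩ := (inferInstance : Nonempty ι)
  have hδ : ∀ j, 0 < P j / a j 0 ^ 2 := fun j => div_pos (hP j) (pow_pos (hpos j 0 h0) 2)
  have hS : 0 < ∑ j, (P j / a j 0 ^ 2) ^ 2 :=
    Finset.sum_pos (fun j _ => pow_pos (hδ j) 2) ⟨j₀, Finset.mem_univ _⟩
  set S : ℝ := √(∑ j, (P j / a j 0 ^ 2) ^ 2) with hSd
  have hS' : 0 < S := Real.sqrt_pos.2 hS
  have hS2 : S ^ 2 = ∑ j, (P j / a j 0 ^ 2) ^ 2 := Real.sq_sqrt hS.le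
  have hlam : 0 < π / S := div_pos pi_pos hS'
  have hsum : ∑ j, (π / S * (P j / a j 0 ^ 2)) ^ 2 = π ^ 2 := by
    simp only [mul_pow]
    rw [← Finset.mul_sum, ← hS2, div_pow]
    field_simp
  have hmain := three ha hL h0 (g := fun _ _ => 0) (fun j => continuousOn_const)
    (e := fun j => π / S * (P j / a j 0 ^ 2))
    (fun j => by simpa using mul_pos hlam (hδ j)) (by simpa using hsum)
  have e2 : ∑ j, a j 0 ^ 2 * (π / S * (P j / a j 0 ^ 2)) ^ 2 = (π / S) ^ 2 * N2 a P 0 := by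
    unfold N2
    rw [Finset.mul_sum]
    refine Finset.sum_congr rfl fun j _ => ?_
    have h1 := (hpos j 0 h0).ne'
    field_simp
  rw [intervalIntegral.integral_same, mul_zero, zero_add, e2, Real.sqrt_mul (sq_nonneg _),
    Real.sqrt_sq hlam.le] at hmain
  have h4 := cs P (fun j => π / S * (P j / a j 0 ^ 2)) hsum.le
  have h5 : ∑ j, P j * (π / S * (P j / a j 0 ^ 2)) = π / S * N2 a P 0 := by
    unfold N2
    rw [Finset.mul_sum]
    refine Finset.sum_congr rfl fun j _ => ?_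
    ring
  rw [h5] at h4
  have hN0 : 0 ≤ N2 a P 0 := Finset.sum_nonneg fun j _ => by positivity
  have h6 : √(N2 a P 0) * √(N2 a P 0) = N2 a P 0 := Real.mul_self_sqrt hN0
  have h7 : π / S * √(N2 a P 0) * √(N2 a P 0) ≤ π / S * √(N2 a P 0) * nrm P := by
    calc π / S * √(N2 a P 0) * √(N2 a P 0) = π / S * N2 a P 0 := by rw [mul_assoc, h6]
      _ ≤ π * nrm P := h4
      _ ≤ π / S * √(N2 a P 0) * nrm P := mul_le_mul_of_nonneg_right hmain (nrm_nonneg P)
  have h8 : 0 < π / S * √(N2 a P 0) := lt_of_lt_of_le pi_pos hmain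
  exact le_of_mul_le_mul_left h7 h8

lemma W_int (P : ι → ℝ) : IntegrableOn (fun x => √(1 - N2 a P x)) (Ioo 0 R) := by
  have hc : ContinuousOn (fun x => √(1 - N2 a P x)) (Ioo 0 R) :=
    (continuousOn_const.sub ((N2_cont ha hpos P).mono Ioo_subset_Ico_self)).sqrt
  refine IntegrableOn.of_bound (by simp) (hc.aestronglyMeasurable measurableSet_Ioo) 1 ?_
  filter_upwards with x
  rw [Real.norm_of_nonneg (Real.sqrt_nonneg _), Real.sqrt_le_one]
  have : 0 ≤ N2 a P x := Finset.sum_nonneg fun j _ => by positivity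
  linarith

lemma LemB [Nonempty ι] (hR : 0 < R) (hL : Long R a) {P : ι → ℝ} (hP : ∀ j, 0 < P j)
    (hn : nrm P < 1) (H : ∀ ν < 1, ∃ s ∈ Ico 0 R, ν < √(N2 a P s)) :
    π * (1 - nrm P) ≤ W R a P := by
  have h0 : (0 : ℝ) ∈ Ico 0 R := ⟨le_rfl, hR⟩
  have key : ∀ ν ∈ Ioo (nrm P) 1, π * (1 - nrm P) ≤ W R a P + π * nrm P * ((1 - ν) / ν) := by
    intro ν hν
    obtain ⟨s₂, hs₂, hs₂'⟩ := H ν hν.2
    have hsub : Icc 0 s₂ ⊆ Ico 0 R := fun x hx => ⟨hx.1, hx.2.trans_lt hs₂.2⟩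
    have hc : ContinuousOn (fun x => √(N2 a P x)) (Icc 0 s₂) :=
      ((N2_cont ha hpos P).mono hsub).sqrt
    have hN0 := N_zero ha hpos hR hL hP
    have hcomp : IsCompact {s ∈ Icc 0 s₂ | √(N2 a P s) = ν} := by
      have : {s ∈ Icc 0 s₂ | √(N2 a P s) = ν} = Icc 0 s₂ ∩ (fun x => √(N2 a P x)) ⁻¹' {ν} := rfl
      rw [this]
      exact isCompact_Icc.of_isClosed_subset
        (hc.preimage_isClosed_of_isClosed isClosed_Icc isClosed_singleton) inter_subset_left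
    have hne : {s ∈ Icc 0 s₂ | √(N2 a P s) = ν}.Nonempty := by
      obtain ⟨x, hx, hx'⟩ := intermediate_value_Icc hs₂.1 hc
        (show ν ∈ Icc (√(N2 a P 0)) (√(N2 a P s₂)) from ⟨hN0.trans hν.1.le, hs₂'.le⟩)
      exact ⟨x, hx, hx'⟩
    obtain ⟨s₁, ⟨hs₁, hs₁ν⟩, hleast⟩ := hcomp.exists_isLeast hne
    have hs₁R : s₁ ∈ Ico 0 R := hsub hs₁
    have hle : ∀ x ∈ Icc 0 s₁, √(N2 a P x) ≤ ν := by
      intro x hx
      by_contra hcon
      rw [not_le] at hcon
      have hc' : ContinuousOn (fun x => √(N2 a P x)) (Icc 0 x) :=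
        hc.mono (Icc_subset_Icc_right (hx.2.trans hs₁.2))
      obtain ⟨y, hy, hy'⟩ := intermediate_value_Icc hx.1 hc'
        (show ν ∈ Icc (√(N2 a P 0)) (√(N2 a P x)) from ⟨hN0.trans hν.1.le, hcon.le⟩)
      have h1 := hleast ⟨⟨hy.1, hy.2.trans (hx.2.trans hs₁.2)⟩, hy'⟩
      have h2 : y = x := le_antisymm hy.2 (hx.2.trans h1)
      subst h2
      exact hcon.ne' hy'
    have hlt : ∀ x ∈ Icc 0 s₁, N2 a P x < 1 := by
      intro x hx
      have h1 := (hle x hx).trans_lt hν.2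
      rw [Real.sqrt_lt' one_pos] at h1
      simpa using h1
    have hA := LemA ha hpos hL hP hs₁R hlt
    rw [hs₁ν] at hA
    have h3 : ∫ x in (0 : ℝ)..s₁, √(1 - N2 a P x) ≤ ∫ x in Ioo 0 R, √(1 - N2 a P x) := by
      rw [intervalIntegral.integral_of_le hs₁.1, ← integral_Ioc_eq_integral_Ioo]
      refine setIntegral_mono_set ?_ (Filter.Eventually.of_forall fun x => Real.sqrt_nonneg _)
        (LE.le.eventuallyLE (Ioc_subset_Ioc_right hs₁R.2.le))
      exact (W_int ha hpos P).congr_set_ae Ioo_ae_eq_Ioc.symm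
    unfold W
    linarith
  have hlim : Filter.Tendsto (fun ν : ℝ => W R a P + π * nrm P * ((1 - ν) / ν))
      (nhdsWithin 1 (Iio 1)) (nhds (W R a P + π * nrm P * ((1 - 1) / 1))) := by
    refine Filter.Tendsto.mono_left ?_ nhdsWithin_le_nhds
    refine ContinuousAt.tendsto ?_
    exact continuousAt_const.add (continuousAt_const.mul
      ((continuousAt_const.sub continuousAt_id).div continuousAt_id one_ne_zero))
  have := ge_of_tendsto hlim (by
    filter_upwards [Ioo_mem_nhdsLT hn] with ν hν using key ν hν)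
  simpa using this

theorem Wineq [Nonempty ι] (hR : π / 2 ≤ R) (hL : Long R a) {P : ι → ℝ} (hP : ∀ j, 0 < P j) :
    π * (1 - nrm P) ≤ W R a P := by
  have hRpos : 0 < R := lt_of_lt_of_le (by positivity) hR
  have h0 : (0 : ℝ) ∈ Ico 0 R := ⟨le_rfl, hRpos⟩
  have hW0 : ∀ Q : ι → ℝ, 0 ≤ W R a Q := fun Q =>
    mul_nonneg two_pos.le (integral_nonneg fun x => Real.sqrt_nonneg _)
  rcases le_or_gt 1 (nrm P) with hn | hn
  · exact (mul_nonpos_of_nonneg_of_nonpos pi_pos.le (by linarith)).trans (hW0 P)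
  by_cases H : ∀ ν < 1, ∃ s ∈ Ico 0 R, ν < √(N2 a P s)
  · exact LemB ha hpos hRpos hL hP hn H
  push Not at H
  obtain ⟨ν, hν1, hν⟩ := H
  set T : Set ℝ := (fun s => √(N2 a P s)) '' Ico 0 R with hT
  have hTne : T.Nonempty := ⟨_, 0, h0, rfl⟩
  have hTb : BddAbove T := ⟨ν, by
    rintro _ ⟨s, hs, rfl⟩
    exact hν s hs⟩
  set M := sSup T with hM
  obtain ⟨j₀⟩ := (inferInstance : Nonempty ι)
  have hM0 : 0 < M := by
    refine lt_of_lt_of_le ?_ (le_csSup hTb ⟨0, h0, rfl⟩)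
    refine Real.sqrt_pos.2 (Finset.sum_pos (fun j _ => ?_) ⟨j₀, Finset.mem_univ _⟩)
    exact div_pos (pow_pos (hP j) 2) (pow_pos (hpos j 0 h0) 2)
  have hM1 : M < 1 := (csSup_le hTne (by
    rintro _ ⟨s, hs, rfl⟩
    exact hν s hs)).trans_lt hν1
  have hleM : ∀ s ∈ Ico 0 R, √(N2 a P s) ≤ M := fun s hs => le_csSup hTb ⟨s, hs, rfl⟩
  set P' : ι → ℝ := fun j => M⁻¹ * P j with hP'
  have hP'pos : ∀ j, 0 < P' j := fun j => mul_pos (inv_pos.2 hM0) (hP j)
  have hN' : ∀ s, N2 a P' s = (M⁻¹) ^ 2 * N2 a P s := by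
    intro s
    unfold N2
    rw [Finset.mul_sum]
    refine Finset.sum_congr rfl fun j _ => ?_
    simp only [hP']
    ring
  have hsN' : ∀ s, √(N2 a P' s) = M⁻¹ * √(N2 a P s) := by
    intro s
    rw [hN', Real.sqrt_mul (sq_nonneg _), Real.sqrt_sq (inv_pos.2 hM0).le]
  have hn' : nrm P' = M⁻¹ * nrm P := by
    unfold nrm
    simp only [hP', mul_pow]
    rw [← Finset.mul_sum, Real.sqrt_mul (sq_nonneg _), Real.sqrt_sq (inv_pos.2 hM0).le]
  have hW' : π * (1 - nrm P') ≤ W R a P' := by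
    rcases le_or_gt 1 (nrm P') with h1 | h1
    · exact (mul_nonpos_of_nonneg_of_nonpos pi_pos.le (by linarith)).trans (hW0 P')
    · refine LemB ha hpos hRpos hL hP'pos h1 ?_
      intro ν' hν'
      have h2 : ν' * M < M := by nlinarith
      obtain ⟨_, ⟨s, hs, rfl⟩, h3⟩ := exists_lt_of_lt_csSup hTne h2
      refine ⟨s, hs, ?_⟩
      rw [hsN', inv_mul_eq_div, lt_div_iff₀ hM0]
      exact h3
  have hint := W_int ha hpos P
  have hint' := W_int ha hpos P'
  have hpt : ∀ x ∈ Ioo 0 R, (1 - M) + M * √(1 - N2 a P' x) ≤ √(1 - N2 a P x) := by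
    intro x hx
    have hx' : x ∈ Ico 0 R := Ioo_subset_Ico_self hx
    have h1 : √(N2 a P' x) ≤ 1 := by
      rw [hsN', inv_mul_le_iff₀ hM0, mul_one]
      exact hleM x hx'
    have h2 : 0 ≤ N2 a P' x := Finset.sum_nonneg fun j _ => by positivity
    have h2' : 0 ≤ N2 a P x := Finset.sum_nonneg fun j _ => by positivity
    have h3 : √(N2 a P' x) ^ 2 = N2 a P' x := Real.sq_sqrt h2
    have h4 := conc (M := M) (x := √(N2 a P' x)) hM0.le hM1.le
      (by
        have := Real.sqrt_nonneg (N2 a P' x)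
        nlinarith)
    rw [h3] at h4
    have h5 : (M * √(N2 a P' x)) ^ 2 = N2 a P x := by
      rw [hsN', ← mul_assoc, mul_inv_cancel₀ hM0.ne', one_mul, Real.sq_sqrt h2']
    rwa [h5] at h4
  have hconst : IntegrableOn (fun _ : ℝ => 1 - M) (Ioo 0 R) := integrableOn_const (by simp)
  have hmono := setIntegral_mono_on (μ := volume)
    (hconst.add (hint'.const_mul M)) hint measurableSet_Ioo hpt
  have e1 : ∫ x in Ioo 0 R, ((fun _ : ℝ => 1 - M) + fun x => M * √(1 - N2 a P' x)) x =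
      (1 - M) * R + M * ∫ x in Ioo 0 R, √(1 - N2 a P' x) := by
    simp only [Pi.add_apply]
    rw [integral_add hconst (hint'.const_mul M), integral_const_mul]
    congr 1
    rw [setIntegral_const]
    simp only [smul_eq_mul]
    rw [Measure.real, Real.volume_Ioo, ENNReal.toReal_ofReal (by linarith)]
    ring
  have e2 : (1 - M) * R + M * ∫ x in Ioo 0 R, √(1 - N2 a P' x) ≤
      ∫ x in Ioo 0 R, √(1 - N2 a P x) := by
    rw [← e1]
    exact hmono
  have e3 : π * (1 - nrm P) = (1 - M) * π + M * (π * (1 - nrm P')) := by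
    rw [hn']
    field_simp
    ring
  rw [e3]
  unfold W at hW' ⊢
  have e4 : (1 - M) * π ≤ (1 - M) * (2 * R) := mul_le_mul_of_nonneg_left (by linarith) (by linarith)
  have e5 := mul_le_mul_of_nonneg_left hW' hM0.le
  nlinarith

end

end Pool.Agent.L7h48.HF
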