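import Pool.Agent.L7h48.HF.Cst
import Pool.Agent.L7h48.HF.Wineq

/-! # Hopf fillings: the volume -/

set_option autoImplicit false

open Real Set MeasureTheory Metric
open scoped ENNReal

namespace Pool.Agent.L7h48.HF

lemma chg (d : ℕ) (c : Fin d → ℝ) (hc : ∀ i, 0 < c i) :
    ∫⁻ q : Fin d → ℝ, ENNReal.ofReal (√(1 - ∑ i, q i ^ 2 / c i ^ 2)) =
      ENNReal.ofReal (∏ i, c i) * Cd d := by
  have hdet : Matrix.det (Matrix.diagonal c) = ∏ i, c i := Matrix.det_diagonal
  have hpos : 0 < ∏ i, c i := Finset.prod_pos fun i _ => hc i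
  have h := Real.smul_map_diagonal_volume_pi (D := c) (by rw [hdet]; exact hpos.ne')
  rw [hdet, abs_of_pos hpos] at h
  have hm : Measurable (Matrix.toLin' (Matrix.diagonal c)) :=
    (LinearMap.continuous_of_finiteDimensional _).measurable
  have hf : Measurable fun q : Fin d → ℝ => ENNReal.ofReal (√(1 - ∑ i, q i ^ 2 / c i ^ 2)) := by
    fun_prop
  calc ∫⁻ q : Fin d → ℝ, ENNReal.ofReal (√(1 - ∑ i, q i ^ 2 / c i ^ 2)) =
      ∫⁻ q : Fin d → ℝ, ENNReal.ofReal (√(1 - ∑ i, q i ^ 2 / c i ^ 2))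
        ∂(ENNReal.ofReal (∏ i, c i) • Measure.map (Matrix.toLin' (Matrix.diagonal c)) volume) := by
        rw [h]
    _ = ENNReal.ofReal (∏ i, c i) * Cd d := by
        rw [lintegral_smul_measure, lintegral_map hf hm, smul_eq_mul]
        congr 1
        unfold Cd
        refine lintegral_congr fun q => ?_
        congr 3
        refine Finset.sum_congr rfl fun i _ => ?_
        rw [Matrix.toLin'_apply, Matrix.mulVec_diagonal]
        have := (hc i).ne'
        field_simp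

variable {ι : Type} [Fintype ι] [DecidableEq ι]

/-- The norms of the blocks of a vector. -/
noncomputable def blo {d : ℕ} (blk : Fin d → ι) (q : Fin d → ℝ) (j : ι) : ℝ :=
  √(∑ i with blk i = j, q i ^ 2)

lemma blo_sq {d : ℕ} (blk : Fin d → ι) (q : Fin d → ℝ) (j : ι) :
    blo blk q j ^ 2 = ∑ i with blk i = j, q i ^ 2 :=
  Real.sq_sqrt (Finset.sum_nonneg fun i _ => sq_nonneg _)

lemma blo_pos {d : ℕ} {blk : Fin d → ι} (hs : Function.Surjective blk) {q : Fin d → ℝ}
    (hq : ∀ i, q i ≠ 0) (j : ι) : 0 < blo blk q j := by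
  obtain ⟨i, hi⟩ := hs j
  refine Real.sqrt_pos.2 (Finset.sum_pos (fun i _ => by have := hq i; positivity) ⟨i, ?_⟩)
  simp [hi]

lemma nrm_blo {d : ℕ} (blk : Fin d → ι) (q : Fin d → ℝ) :
    nrm (blo blk q) = √(∑ i, q i ^ 2) := by
  unfold nrm
  congr 1
  simp only [blo_sq]
  exact Finset.sum_fiberwise _ _ _

lemma N2_blo {d : ℕ} (blk : Fin d → ι) (q : Fin d → ℝ) (a : ι → ℝ → ℝ) (s : ℝ) :
    N2 a (blo blk q) s = ∑ i, q i ^ 2 / a (blk i) s ^ 2 := by
  unfold N2
  simp only [blo_sq]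
  rw [← Finset.sum_fiberwise (s := Finset.univ) (g := blk)]
  refine Finset.sum_congr rfl fun j _ => ?_
  rw [Finset.sum_div]
  refine Finset.sum_congr rfl fun i hi => ?_
  rw [(Finset.mem_filter.1 hi).2]

theorem vol_ineq [Nonempty ι] {d : ℕ} (hd : 1 ≤ d) {blk : Fin d → ι}
    (hsurj : Function.Surjective blk) {R : ℝ} (hR : π / 2 ≤ R) {a : ι → ℝ → ℝ}
    (ha : ∀ j, ContinuousOn (a j) (Ico 0 R)) (hpos : ∀ j, ∀ s ∈ Ico 0 R, 0 < a j s)
    (hL : Long R a) :
    ENNReal.ofReal (S d) ≤ ∫⁻ s in Ioo 0 R, ENNReal.ofReal (∏ i, a (blk i) s) := by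
  classical
  set a' : ι → ℝ → ℝ := fun j => (Ioo 0 R).piecewise (a j) (fun _ => 0) with ha'
  have ha'm : ∀ j, Measurable (a' j) := fun j =>
    ContinuousOn.measurable_piecewise ((ha j).mono Ioo_subset_Ico_self) continuousOn_const
      measurableSet_Ioo
  have ha'e : ∀ j, ∀ s ∈ Ioo 0 R, a' j s = a j s := fun j s hs => piecewise_eq_of_mem _ _ _ hs
  set F : (Fin d → ℝ) → ℝ → ℝ≥0∞ := fun q s =>
    ENNReal.ofReal (√(1 - ∑ i, q i ^ 2 / a' (blk i) s ^ 2)) with hF
  have hFm : Measurable (Function.uncurry F) := by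
    simp only [hF, Function.uncurry_def]
    refine ENNReal.measurable_ofReal.comp (Real.continuous_sqrt.measurable.comp ?_)
    refine measurable_const.sub (Finset.measurable_sum _ fun i _ => ?_)
    exact (((measurable_pi_apply i).comp measurable_fst).pow_const 2).div
      (((ha'm (blk i)).comp measurable_snd).pow_const 2)
  have hae : ∀ᵐ q : Fin d → ℝ, ∀ i, q i ≠ 0 := by
    rw [MeasureTheory.ae_all_iff]
    intro i
    have h0 : ∀ᵐ x : ℝ, x ≠ 0 := by
      simp [ae_iff]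
    have := (Measure.quasiMeasurePreserving_eval (fun _ : Fin d => (volume : Measure ℝ)) i).ae h0
    exact this
  have h1 : Kd d ≤ ∫⁻ q, 2 * ∫⁻ s in Ioo 0 R, F q s := by
    unfold Kd
    refine lintegral_mono_ae ?_
    filter_upwards [hae] with q hq
    have h2 := Wineq ha hpos hR hL (P := blo blk q) (blo_pos hsurj hq)
    rw [nrm_blo] at h2
    refine (ENNReal.ofReal_le_ofReal h2).trans (le_of_eq ?_)
    unfold W
    rw [ENNReal.ofReal_mul two_pos.le, ofReal_integral_eq_lintegral_ofReal (W_int ha hpos _)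
      (Filter.Eventually.of_forall fun x => Real.sqrt_nonneg _)]
    congr 1
    · simp
    · refine setLIntegral_congr_fun measurableSet_Ioo fun s hs => ?_
      simp only [hF, N2_blo]
      congr 3
      refine Finset.sum_congr rfl fun i _ => ?_
      rw [ha'e _ s hs]
  have h2 : ∫⁻ q, 2 * ∫⁻ s in Ioo 0 R, F q s =
      2 * ∫⁻ s in Ioo 0 R, ∫⁻ q, F q s := by
    rw [lintegral_const_mul _ (hFm.lintegral_prod_right), lintegral_lintegral_swap hFm.aemeasurable]
  have h3 : ∫⁻ s in Ioo 0 R, ∫⁻ q, F q s =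
      (∫⁻ s in Ioo 0 R, ENNReal.ofReal (∏ i, a (blk i) s)) * Cd d := by
    rw [← lintegral_mul_const' _ _ (Cd_ne_top d hd)]
    refine setLIntegral_congr_fun measurableSet_Ioo fun s hs => ?_
    have h4 := chg d (fun i => a (blk i) s) fun i => hpos _ s (Ioo_subset_Ico_self hs)
    rw [← h4]
    simp only [hF]
    refine lintegral_congr fun q => ?_
    congr 3
    refine Finset.sum_congr rfl fun i _ => ?_
    rw [ha'e _ s hs]
  rw [h2, h3, Kd_Cd d hd, mul_comm (∫⁻ s in Ioo 0 R, _) (Cd d), ← mul_assoc, mul_comm 2 (Cd d),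
    mul_assoc] at h1
  have h5 := (ENNReal.mul_le_mul_iff_right (Cd_ne_zero d hd) (Cd_ne_top d hd)).1 h1
  rw [ENNReal.ofReal_mul two_pos.le, ENNReal.ofReal_ofNat] at h5
  exact (ENNReal.mul_le_mul_iff_right two_ne_zero (by simp)).1 h5

end Pool.Agent.L7h48.HF
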