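import Pool.Agent.L7h48.HF.AvgLong
import Pool.Agent.L7h48.HF.Vol

/-! # Hopf fillings: the volume inequality -/

set_option autoImplicit false

open Real Set MeasureTheory Metric
open scoped ENNReal

namespace Pool.Agent.L7h48.HF

open Pool.Agent.Y499.HC Pool.Agent.Y499.HR Pool.Agent.Y502.HC

variable {d : ℕ}

instance (d : ℕ) : NeZero (σ d) := ⟨Measure.toSphere_ne_zero _⟩

lemma integrable_sph {f : Sph d → ℝ} (hf : Continuous f) : Integrable f (σ d) :=
  hf.integrable_of_hasCompactSupport (HasCompactSupport.of_compactSpace _)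

lemma av_average (f : Sph d → ℝ) : av d f = ⨍ x, f x ∂(σ d) := by
  unfold av
  rw [average_eq, smul_eq_mul]
  rfl

lemma av_nonneg {f : Sph d → ℝ} (hf : ∀ x, 0 ≤ f x) : 0 ≤ av d f :=
  mul_nonneg (inv_nonneg.2 ENNReal.toReal_nonneg) (integral_nonneg hf)

lemma av_pos {f : Sph d → ℝ} (hf : Continuous f) (h0 : ∀ x, 0 < f x) : 0 < av d f := by
  refine mul_pos (inv_pos.2 (σ_pos d)) ?_
  rw [integral_pos_iff_support_of_nonneg (fun x => (h0 x).le) (integrable_sph hf)]
  have : Function.support f = univ := by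
    ext x
    simp [(h0 x).ne']
  rw [this]
  exact Measure.measure_univ_pos.2 (Measure.toSphere_ne_zero _)

lemma av_const_mul (c : ℝ) (f : Sph d → ℝ) : av d (fun x => c * f x) = c * av d f := by
  unfold av
  rw [integral_const_mul]
  ring

/-- The inequality of the power means. -/
lemma av_pow {f : Sph d → ℝ} (hf : Continuous f) (h0 : ∀ x, 0 < f x) {p r : ℝ} (hp : 0 ≤ p)
    (hr : 0 < r) (hpr : p ≤ r) :
    av d (fun x => f x ^ p) ≤ (av d fun x => f x ^ r) ^ (p / r) := by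
  have hpr' : p / r ≤ 1 := (div_le_one hr).2 hpr
  have hpr0 : 0 ≤ p / r := div_nonneg hp hr.le
  have hfr : Continuous fun x => f x ^ r := hf.rpow_const fun x => Or.inl (h0 x).ne'
  have hfp : Continuous fun x => f x ^ p := hf.rpow_const fun x => Or.inl (h0 x).ne'
  have he : ∀ x, (f x ^ r) ^ (p / r) = f x ^ p := by
    intro x
    rw [← Real.rpow_mul (h0 x).le]
    congr 1
    field_simp
  have h := ConcaveOn.le_map_average (μ := σ d) (f := fun x => f x ^ r) (s := Ici (0 : ℝ))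
    (g := fun y => y ^ (p / r)) (Real.concaveOn_rpow hpr0 hpr')
    ((Real.continuous_rpow_const hpr0).continuousOn) isClosed_Ici
    (Filter.Eventually.of_forall fun x => Real.rpow_nonneg (h0 x).le r) (integrable_sph hfr)
    (by
      have : ((fun y : ℝ => y ^ (p / r)) ∘ fun x => f x ^ r) = fun x => f x ^ p :=
        funext fun x => he x
      rw [this]
      exact integrable_sph hfp)
  simp only [he] at h
  rw [av_average, av_average]
  exact h

section

variable {ι : Type} [Fintype ι] [DecidableEq ι] [Nonempty ι]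

/-- The energy inequality. -/
theorem asm_energy (hd : 1 ≤ d) (T : Set (E d → E d)) [CompactSpace (Ce T)]
    (htr : ∀ x y : Sph d, ∃ L : E d ≃ₗᵢ[ℝ] E d, (∀ A ∈ T, ∀ v, L (A v) = A (L v)) ∧
      L (x : E d) = y) {q : ι → E d → E d → ℝ}
    (hq : ∀ g ∈ Ce T, ∀ j x v, q j (act g x) (act g v) = q j x v) (hC : Curves q)
    {blk : Fin d → ι} (hsurj : Function.Surjective blk)
    {R : ℝ} (hR : π / 2 ≤ R) {m : Met d} (hF : Fermi R m) (hS : NonShort R m)
    {c : ι → ℝ → E d → ℝ}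
    (hc : ∀ j, ContinuousOn (fun p : ℝ × E d => c j p.1 p.2) (Ico 0 R ×ˢ sphere 0 1))
    (hc0 : ∀ j, ∀ s ∈ Ico 0 R, ∀ x ∈ sphere (0 : E d) 1, 0 < c j s x)
    (hsl : ∀ s ∈ Ico 0 R, ∀ x ∈ sphere (0 : E d) 1, ∀ v : E d, inner ℝ x v = 0 →
      quad (m.g s x) v = ∑ j, c j s x ^ 2 * q j x v) :
    hemi d ≤ (σ d) univ *
      ∫⁻ s in Ioo 0 R, ENNReal.ofReal (∏ i, √(av d fun x => c (blk i) s x ^ 2)) := by
  have hL := avg_long T htr hq hC hF hS hc hsl
  have hcc : ∀ j, ∀ s ∈ Ico 0 R, Continuous fun x : Sph d => c j s x ^ 2 := fun j s hs =>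
    ((hc j).comp_continuous (f := fun x : Sph d => (s, (x : E d))) (by fun_prop)
      fun x => ⟨hs, x.2⟩).pow 2
  have h := vol_ineq hd hsurj hR (a := fun j s => √(av d fun x => c j s x ^ 2))
    (fun j => (av_cont (f := fun s x => c j s x ^ 2) ((hc j).pow 2)).sqrt)
    (fun j s hs => Real.sqrt_pos.2 (av_pos (hcc j s hs) fun x => by
      have := hc0 j s hs x x.2
      positivity)) hL
  unfold hemi
  exact mul_le_mul_right h _

/-- The volume inequality. -/
theorem asm_vol (hd : 1 ≤ d) (T : Set (E d → E d)) [CompactSpace (Ce T)]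
    (htr : ∀ x y : Sph d, ∃ L : E d ≃ₗᵢ[ℝ] E d, (∀ A ∈ T, ∀ v, L (A v) = A (L v)) ∧
      L (x : E d) = y) {q : ι → E d → E d → ℝ}
    (hq : ∀ g ∈ Ce T, ∀ j x v, q j (act g x) (act g v) = q j x v) (hC : Curves q)
    {blk : Fin d → ι} (hsurj : Function.Surjective blk)
    {R : ℝ} (hR : π / 2 ≤ R) {m : Met d} (hF : Fermi R m) (hS : NonShort R m)
    {κ : ι → ℝ → ℝ} (hκ : ∀ j, ContinuousOn (κ j) (Ico 0 R)) (hκ0 : ∀ j, ∀ s ∈ Ico 0 R, 0 < κ j s)
    {β : ℝ → E d → ℝ}
    (hβ : ContinuousOn (fun p : ℝ × E d => β p.1 p.2) (Ico 0 R ×ˢ sphere 0 1))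
    (hβ0 : ∀ s ∈ Ico 0 R, ∀ x ∈ sphere (0 : E d) 1, 0 < β s x) {e : ι → ℝ} (he : ∀ j, 0 ≤ e j)
    (her : ∀ j, 2 * e j ≤ ∑ i, e (blk i)) (hr : 0 < ∑ i, e (blk i))
    (hsl : ∀ s ∈ Ico 0 R, ∀ x ∈ sphere (0 : E d) 1, ∀ v : E d, inner ℝ x v = 0 →
      quad (m.g s x) v = ∑ j, (κ j s * β s x ^ e j) ^ 2 * q j x v)
    (hdet : ∀ s ∈ Ico 0 R, ∀ x : Sph d,
      detTan (m.g s x) x = (∏ i, κ (blk i) s * β s x ^ e (blk i)) ^ 2) :
    hemi d ≤ vol R m := by
  have hc : ∀ j, ContinuousOn (fun p : ℝ × E d => κ j p.1 * β p.1 p.2 ^ e j)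
      (Ico 0 R ×ˢ sphere 0 1) := by
    intro j
    refine ContinuousOn.mul ((hκ j).comp continuousOn_fst fun p hp => hp.1) ?_
    exact hβ.rpow_const fun p hp => Or.inl (hβ0 _ hp.1 _ hp.2).ne'
  have hE := asm_energy hd T htr hq hC hsurj hR hF hS (c := fun j s x => κ j s * β s x ^ e j) hc
    (fun j s hs x hx => mul_pos (hκ0 j s hs) (Real.rpow_pos_of_pos (hβ0 s hs x hx) _)) hsl
  refine hE.trans ?_
  rw [← lintegral_const_mul' _ _ (measure_ne_top _ _)]
  unfold vol
  refine setLIntegral_mono' measurableSet_Ioo fun s hs => ?_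
  have hs' : s ∈ Ico 0 R := Ioo_subset_Ico_self hs
  have hβc : Continuous fun x : Sph d => β s x :=
    hβ.comp_continuous (f := fun x : Sph d => (s, (x : E d))) (by fun_prop) fun x => ⟨hs', x.2⟩
  have hβp : ∀ x : Sph d, 0 < β s x := fun x => hβ0 s hs' x x.2
  set r : ℝ := ∑ i, e (blk i) with hrd
  have hK0 : 0 < ∏ i, κ (blk i) s := Finset.prod_pos fun i _ => hκ0 _ s hs'
  have hprod : ∀ x : Sph d, ∏ i, κ (blk i) s * β s x ^ e (blk i) =
      (∏ i, κ (blk i) s) * β s x ^ r := by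
    intro x
    rw [Finset.prod_mul_distrib]
    congr 1
    exact (Real.rpow_sum_of_pos (hβp x) _ _).symm
  have hβr : Continuous fun x : Sph d => β s x ^ r :=
    hβc.rpow_const fun x => Or.inl (hβp x).ne'
  -- the integral over the slice
  have h1 : ∫⁻ x : Sph d, ENNReal.ofReal (√(detTan (m.g s x) x)) ∂(σ d) =
      (σ d) univ * ENNReal.ofReal ((∏ i, κ (blk i) s) * av d fun x => β s x ^ r) := by
    have h2 : ∀ x : Sph d, ENNReal.ofReal (√(detTan (m.g s x) x)) =
        ENNReal.ofReal ((∏ i, κ (blk i) s) * β s x ^ r) := by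
      intro x
      rw [hdet s hs' x, hprod x, Real.sqrt_sq (mul_nonneg hK0.le (Real.rpow_nonneg (hβp x).le _))]
    have hcm : Continuous fun x : Sph d => (∏ i, κ (blk i) s) * β s x ^ r :=
      continuous_const.mul hβr
    simp only [h2]
    rw [← ofReal_integral_eq_lintegral_ofReal (integrable_sph hcm)
      (Filter.Eventually.of_forall fun x =>
        mul_nonneg hK0.le (Real.rpow_nonneg (hβp x).le _)), integral_const_mul]
    have h3 : (σ d) univ = ENNReal.ofReal ((σ d) univ).toReal :=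
      (ENNReal.ofReal_toReal (measure_ne_top _ _)).symm
    rw [h3, ← ENNReal.ofReal_mul ENNReal.toReal_nonneg]
    congr 1
    unfold av
    have := (σ_pos d).ne'
    field_simp
  rw [h1]
  refine mul_le_mul_right (ENNReal.ofReal_le_ofReal ?_) _
  have hM0 : 0 < av d fun x => β s x ^ r := av_pos hβr fun x => Real.rpow_pos_of_pos (hβp x) r
  have h4 : ∀ i, √(av d fun x => (κ (blk i) s * β s x ^ e (blk i)) ^ 2) ≤
      κ (blk i) s * (av d fun x => β s x ^ r) ^ (e (blk i) / r) := by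
    intro i
    have h5 : (av d fun x => (κ (blk i) s * β s x ^ e (blk i)) ^ 2) =
        κ (blk i) s ^ 2 * av d fun x => β s x ^ (2 * e (blk i)) := by
      rw [← av_const_mul]
      congr 1
      funext x
      rw [mul_pow, mul_comm 2 (e (blk i)), Real.rpow_mul (hβp x).le, Real.rpow_two]
    have h6 := av_pow hβc hβp (p := 2 * e (blk i)) (r := r) (by have := he (blk i); linarith) hr
      (her (blk i))
    rw [h5, Real.sqrt_mul (sq_nonneg _), Real.sqrt_sq (hκ0 _ s hs').le]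
    refine mul_le_mul_of_nonneg_left ?_ (hκ0 _ s hs').le
    refine Real.sqrt_le_iff.2 ⟨Real.rpow_nonneg hM0.le _, h6.trans (le_of_eq ?_)⟩
    rw [← Real.rpow_two, ← Real.rpow_mul hM0.le]
    congr 1
    ring
  calc ∏ i, √(av d fun x => (κ (blk i) s * β s x ^ e (blk i)) ^ 2) ≤
      ∏ i, κ (blk i) s * (av d fun x => β s x ^ r) ^ (e (blk i) / r) :=
        Finset.prod_le_prod (fun i _ => Real.sqrt_nonneg _) fun i _ => h4 i
    _ = (∏ i, κ (blk i) s) * av d fun x => β s x ^ r := by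
        rw [Finset.prod_mul_distrib, ← Real.rpow_sum_of_pos hM0, ← Finset.sum_div, ← hrd,
          div_self hr.ne', Real.rpow_one]

end

end Pool.Agent.L7h48.HF
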