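import Mathlib

/-! # Hopf fillings: curves which go down, stay, and come back -/

set_option autoImplicit false

open Real Set MeasureTheory Metric

namespace Pool.Agent.L7h48.HF

/-- A continuous bump with integral one. -/
noncomputable def bump (t : ℝ) : ℝ := max 0 (6 * (t * (1 - t)))

lemma bump_cont : Continuous bump := by
  unfold bump
  fun_prop

lemma bump_nonneg (t : ℝ) : 0 ≤ bump t := le_max_left _ _

lemma bump_of_nonpos {t : ℝ} (h : t ≤ 0) : bump t = 0 :=
  max_eq_left (by nlinarith)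

lemma bump_of_one_le {t : ℝ} (h : 1 ≤ t) : bump t = 0 :=
  max_eq_left (by nlinarith)

/-- The primitive of the bump. -/
noncomputable def Bm (t : ℝ) : ℝ := ∫ x in (0 : ℝ)..t, bump x

lemma Bm_deriv (t : ℝ) : HasDerivAt Bm (bump t) t :=
  (bump_cont.integral_hasStrictDerivAt 0 t).hasDerivAt

lemma Bm_mono {x y : ℝ} (h : x ≤ y) : Bm x ≤ Bm y := by
  have h1 : Bm y - Bm x = ∫ t in x..y, bump t := by
    unfold Bm
    exact intervalIntegral.integral_interval_sub_left (bump_cont.intervalIntegrable _ _)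
      (bump_cont.intervalIntegrable _ _)
  have h2 : 0 ≤ ∫ t in x..y, bump t := intervalIntegral.integral_nonneg h fun t _ => bump_nonneg t
  linarith

lemma Bm_of_nonpos {t : ℝ} (h : t ≤ 0) : Bm t = 0 := by
  unfold Bm
  rw [intervalIntegral.integral_congr (g := fun _ => (0 : ℝ)), intervalIntegral.integral_zero]
  intro x hx
  rw [uIcc_of_ge h] at hx
  exact bump_of_nonpos hx.2

lemma Bm_one : Bm 1 = 1 := by
  unfold Bm
  rw [intervalIntegral.integral_congr (g := fun t => 6 * t - 6 * t ^ 2)]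
  · rw [intervalIntegral.integral_sub (Continuous.intervalIntegrable (by fun_prop) _ _)
      (Continuous.intervalIntegrable (by fun_prop) _ _), intervalIntegral.integral_const_mul,
      intervalIntegral.integral_const_mul, integral_id, integral_pow]
    norm_num
  · intro t ht
    rw [uIcc_of_le zero_le_one] at ht
    show bump t = _
    unfold bump
    rw [max_eq_right (by nlinarith [ht.1, ht.2, mul_nonneg ht.1 (sub_nonneg.2 ht.2)])]
    ring

lemma Bm_of_one_le {t : ℝ} (h : 1 ≤ t) : Bm t = 1 := by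
  have h1 : Bm t - Bm 1 = ∫ x in (1 : ℝ)..t, bump x := by
    unfold Bm
    exact intervalIntegral.integral_interval_sub_left (bump_cont.intervalIntegrable _ _)
      (bump_cont.intervalIntegrable _ _)
  have h2 : ∫ x in (1 : ℝ)..t, bump x = 0 := by
    rw [intervalIntegral.integral_congr (g := fun _ => (0 : ℝ)), intervalIntegral.integral_zero]
    intro x hx
    rw [uIcc_of_le h] at hx
    exact bump_of_one_le hx.1
  rw [Bm_one, h2] at h1
  linarith

/-- The depth of the curve. -/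
noncomputable def dep (s₁ t : ℝ) : ℝ := s₁ * (Bm t - Bm (t - 2))

lemma dep_deriv (s₁ t : ℝ) : HasDerivAt (dep s₁) (s₁ * (bump t - bump (t - 2))) t := by
  have h2 : HasDerivAt (fun t => Bm (t - 2)) (bump (t - 2)) t :=
    (Bm_deriv (t - 2)).comp_sub_const t 2
  exact ((Bm_deriv t).sub h2).const_mul s₁

lemma dep_contDiff (s₁ : ℝ) : ContDiff ℝ 1 (dep s₁) := by
  rw [contDiff_one_iff_deriv]
  refine ⟨fun t => (dep_deriv s₁ t).differentiableAt, ?_⟩
  have h : deriv (dep s₁) = fun t => s₁ * (bump t - bump (t - 2)) :=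
    funext fun t => (dep_deriv s₁ t).deriv
  rw [h]
  have := bump_cont
  fun_prop

lemma dep_cont (s₁ : ℝ) : Continuous (dep s₁) := (dep_contDiff s₁).continuous

lemma dep_mem {s₁ : ℝ} (h : 0 ≤ s₁) (t : ℝ) : dep s₁ t ∈ Icc 0 s₁ := by
  have h1 : Bm (t - 2) ≤ Bm t := Bm_mono (by linarith)
  have h2 : 0 ≤ Bm (t - 2) := by
    rcases le_total (t - 2) 0 with h3 | h3
    · rw [Bm_of_nonpos h3]
    · have := Bm_mono h3
      rwa [Bm_of_nonpos le_rfl] at this
  have h4 : Bm t ≤ 1 := by
    rcases le_total 1 t with h3 | h3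
    · rw [Bm_of_one_le h3]
    · have := Bm_mono h3
      rwa [Bm_one] at this
  constructor
  · exact mul_nonneg h (by linarith)
  · unfold dep
    nlinarith

lemma dep_zero (s₁ : ℝ) : dep s₁ 0 = 0 := by
  unfold dep
  rw [Bm_of_nonpos le_rfl, Bm_of_nonpos (by norm_num)]
  simp

lemma dep_three (s₁ : ℝ) : dep s₁ 3 = 0 := by
  unfold dep
  rw [Bm_of_one_le (by norm_num), Bm_of_one_le (by norm_num)]
  simp

lemma dep_mid (s₁ : ℝ) {t : ℝ} (h1 : 1 ≤ t) (h2 : t ≤ 2) : dep s₁ t = s₁ := by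
  unfold dep
  rw [Bm_of_one_le h1, Bm_of_nonpos (by linarith)]
  simp

lemma cc1 (s₁ : ℝ) {k : ℝ → ℝ} (hk : Continuous k) :
    Continuous fun t => s₁ * bump t * k t := by
  have := bump_cont
  fun_prop

lemma cc2 {k : ℝ → ℝ} (hk : Continuous k) : Continuous fun t => bump (t - 1) * k t := by
  have := bump_cont
  fun_prop

lemma cc3 (s₁ : ℝ) {k : ℝ → ℝ} (hk : Continuous k) :
    Continuous fun t => s₁ * bump (t - 2) * k t := by
  have := bump_cont
  fun_prop

lemma cc4 (s₁ : ℝ) {k : ℝ → ℝ} (hk : Continuous k) :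
    Continuous fun t => k t * (s₁ * (bump t - bump (t - 2))) := by
  have := bump_cont
  fun_prop

section parts

variable {s₁ : ℝ} (hs : 0 ≤ s₁) {h : ℝ → ℝ} (hh : ContinuousOn h (Icc 0 s₁))

include hs hh

lemma comp_cont : Continuous fun t => h (dep s₁ t) :=
  hh.comp_continuous (dep_cont s₁) fun t => dep_mem hs t

lemma part1 : ∫ t in (0 : ℝ)..3, s₁ * bump t * h (dep s₁ t) = ∫ x in (0 : ℝ)..s₁, h x := by
  have hc := comp_cont hs hh
  rw [← intervalIntegral.integral_add_adjacent_intervals (b := 1)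
    ((cc1 s₁ hc).intervalIntegrable _ _) ((cc1 s₁ hc).intervalIntegrable _ _)]
  have h2 : ∫ t in (1 : ℝ)..3, s₁ * bump t * h (dep s₁ t) = 0 := by
    rw [intervalIntegral.integral_congr (g := fun _ => (0 : ℝ)), intervalIntegral.integral_zero]
    intro x hx
    rw [uIcc_of_le (by norm_num)] at hx
    simp only [bump_of_one_le hx.1, mul_zero, zero_mul]
  have h3 := intervalIntegral.integral_comp_mul_deriv''' (a := 0) (b := 1) (f := dep s₁)
    (f' := fun t => s₁ * (bump t - bump (t - 2))) (g := h) (dep_cont s₁).continuousOn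
    (fun x _ => (dep_deriv s₁ x).hasDerivWithinAt)
    (hh.mono (by
      rintro _ ⟨t, _, rfl⟩
      exact dep_mem hs t))
    ((hh.mono (by
      rintro _ ⟨t, _, rfl⟩
      exact dep_mem hs t)).integrableOn_compact
      (isCompact_uIcc.image (dep_cont s₁)))
    ((cc4 s₁ (k := h ∘ dep s₁) hc).integrableOn_Icc)
  rw [dep_zero, dep_mid s₁ le_rfl (by norm_num)] at h3
  rw [h2, add_zero, ← h3]
  refine intervalIntegral.integral_congr fun t ht => ?_
  rw [uIcc_of_le zero_le_one] at ht
  simp only [Function.comp, bump_of_nonpos (show t - 2 ≤ 0 by linarith [ht.2])]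
  ring

lemma part3 : ∫ t in (0 : ℝ)..3, s₁ * bump (t - 2) * h (dep s₁ t) = ∫ x in (0 : ℝ)..s₁, h x := by
  have hc := comp_cont hs hh
  rw [← intervalIntegral.integral_add_adjacent_intervals (b := 2)
    ((cc3 s₁ hc).intervalIntegrable _ _) ((cc3 s₁ hc).intervalIntegrable _ _)]
  have h2 : ∫ t in (0 : ℝ)..2, s₁ * bump (t - 2) * h (dep s₁ t) = 0 := by
    rw [intervalIntegral.integral_congr (g := fun _ => (0 : ℝ)), intervalIntegral.integral_zero]
    intro x hx
    rw [uIcc_of_le (by norm_num)] at hx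
    simp only [bump_of_nonpos (show x - 2 ≤ 0 by linarith [hx.2]), mul_zero, zero_mul]
  have h3 := intervalIntegral.integral_comp_mul_deriv''' (a := 2) (b := 3) (f := dep s₁)
    (f' := fun t => s₁ * (bump t - bump (t - 2))) (g := h) (dep_cont s₁).continuousOn
    (fun x _ => (dep_deriv s₁ x).hasDerivWithinAt)
    (hh.mono (by
      rintro _ ⟨t, _, rfl⟩
      exact dep_mem hs t))
    ((hh.mono (by
      rintro _ ⟨t, _, rfl⟩
      exact dep_mem hs t)).integrableOn_compact
      (isCompact_uIcc.image (dep_cont s₁)))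
    ((cc4 s₁ (k := h ∘ dep s₁) hc).integrableOn_Icc)
  rw [dep_three, dep_mid s₁ (by norm_num) le_rfl] at h3
  rw [h2, zero_add, intervalIntegral.integral_symm s₁ 0, ← h3, ← intervalIntegral.integral_neg]
  refine intervalIntegral.integral_congr fun t ht => ?_
  rw [uIcc_of_le (by norm_num)] at ht
  simp only [Function.comp, bump_of_one_le (show 1 ≤ t by linarith [ht.1])]
  ring

omit hs hh in
lemma part2 : ∫ t in (0 : ℝ)..3, bump (t - 1) * h (dep s₁ t) = h s₁ := by
  have h1 : ∫ t in (0 : ℝ)..3, bump (t - 1) * h (dep s₁ t) =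
      ∫ t in (0 : ℝ)..3, bump (t - 1) * h s₁ := by
    refine intervalIntegral.integral_congr fun t _ => ?_
    show bump (t - 1) * h (dep s₁ t) = bump (t - 1) * h s₁
    rcases le_total t 1 with h2 | h2
    · rw [bump_of_nonpos (by linarith)]
      simp
    · rcases le_total 2 t with h3 | h3
      · rw [bump_of_one_le (by linarith)]
        simp
      · rw [dep_mid s₁ h2 h3]
  rw [h1, intervalIntegral.integral_mul_const, intervalIntegral.integral_comp_sub_right bump 1]
  have h2 : ∫ x in (0 - 1 : ℝ)..(3 - 1), bump x = Bm 2 - Bm (-1) := by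
    unfold Bm
    rw [intervalIntegral.integral_interval_sub_left (bump_cont.intervalIntegrable _ _)
      (bump_cont.intervalIntegrable _ _)]
    norm_num
  rw [h2, Bm_of_one_le (by norm_num), Bm_of_nonpos (by norm_num)]
  simp

end parts

variable {ι : Type} [Fintype ι]

/-- All the curves of the surfaces of type `D`, `|D| = π`, are long. -/
def Long (R : ℝ) (a : ι → ℝ → ℝ) : Prop :=
  ∀ (l : ℝ) (s : ℝ → ℝ) (u : ι → ℝ → ℝ), 0 < l → ContDiff ℝ 1 s → (∀ j, Continuous (u j)) →
    (∀ t, s t ∈ Ico 0 R) → s 0 = 0 → s l = 0 → (∀ j, 0 < ∫ t in (0 : ℝ)..l, u j t) →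
    ∑ j, (∫ t in (0 : ℝ)..l, u j t) ^ 2 = π ^ 2 →
    π ≤ ∫ t in (0 : ℝ)..l, √(deriv s t ^ 2 + ∑ j, a j (s t) ^ 2 * u j t ^ 2)

theorem three {R : ℝ} {a : ι → ℝ → ℝ} (ha : ∀ j, ContinuousOn (a j) (Ico 0 R))
    (hL : Long R a) {s₁ : ℝ} (hs : s₁ ∈ Ico 0 R) {g : ι → ℝ → ℝ}
    (hg : ∀ j, ContinuousOn (g j) (Icc 0 s₁)) {e : ι → ℝ}
    (hD : ∀ j, 0 < 2 * (∫ x in (0 : ℝ)..s₁, g j x) + e j)
    (hπ : ∑ j, (2 * (∫ x in (0 : ℝ)..s₁, g j x) + e j) ^ 2 = π ^ 2) :
    π ≤ 2 * (∫ x in (0 : ℝ)..s₁, √(1 + ∑ j, a j x ^ 2 * g j x ^ 2)) +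
      √(∑ j, a j s₁ ^ 2 * e j ^ 2) := by
  have hs0 : 0 ≤ s₁ := hs.1
  have ha' : ∀ j, ContinuousOn (a j) (Icc 0 s₁) := fun j =>
    (ha j).mono fun x hx => ⟨hx.1, hx.2.trans_lt hs.2⟩
  have hb := bump_cont
  have hgc : ∀ j, Continuous fun t => g j (dep s₁ t) := fun j => comp_cont hs0 (hg j)
  have hac : ∀ j, Continuous fun t => a j (dep s₁ t) := fun j => comp_cont hs0 (ha' j)
  set u : ι → ℝ → ℝ := fun j t => s₁ * bump t * g j (dep s₁ t) + bump (t - 1) * e j +
    s₁ * bump (t - 2) * g j (dep s₁ t) with hu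
  have huc : ∀ j, Continuous (u j) := by
    intro j
    exact ((cc1 s₁ (hgc j)).add (cc2 continuous_const)).add (cc3 s₁ (hgc j))
  have hui : ∀ j, ∫ t in (0 : ℝ)..3, u j t = 2 * (∫ x in (0 : ℝ)..s₁, g j x) + e j := by
    intro j
    have c1 := cc1 s₁ (hgc j)
    have c2 : Continuous fun t => bump (t - 1) * e j := cc2 continuous_const
    have c3 := cc3 s₁ (hgc j)
    have c12 : Continuous fun t => s₁ * bump t * g j (dep s₁ t) + bump (t - 1) * e j := c1.add c2
    simp only [hu]
    rw [intervalIntegral.integral_add (c12.intervalIntegrable _ _)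
      (c3.intervalIntegrable _ _),
      intervalIntegral.integral_add (c1.intervalIntegrable _ _)
      (c2.intervalIntegrable _ _), part1 hs0 (hg j), part3 hs0 (hg j),
      part2 (s₁ := s₁) (h := fun _ => e j)]
    ring
  have hmain := hL 3 (dep s₁) u (by norm_num) (dep_contDiff s₁) huc
    (fun t => ⟨(dep_mem hs0 t).1, (dep_mem hs0 t).2.trans_lt hs.2⟩) (dep_zero s₁) (dep_three s₁)
    (fun j => by rw [hui j]; exact hD j) (by
      rw [← hπ]
      exact Finset.sum_congr rfl fun j _ => by rw [hui j])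
  refine hmain.trans (le_of_eq ?_)
  set G : ℝ → ℝ := fun x => √(1 + ∑ j, a j x ^ 2 * g j x ^ 2) with hG
  set F : ℝ → ℝ := fun x => √(∑ j, a j x ^ 2 * e j ^ 2) with hF
  have hGc : ContinuousOn G (Icc 0 s₁) := by
    refine ContinuousOn.sqrt (continuousOn_const.add (continuousOn_finsetSum _ fun j _ => ?_))
    exact ((ha' j).pow 2).mul ((hg j).pow 2)
  have hFc : ContinuousOn F (Icc 0 s₁) := by
    refine ContinuousOn.sqrt (continuousOn_finsetSum _ fun j _ => ?_)
    exact ((ha' j).pow 2).mul continuousOn_const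
  have hGc' := comp_cont hs0 hGc
  have hFc' := comp_cont hs0 hFc
  have hpt : ∀ t, √(deriv (dep s₁) t ^ 2 + ∑ j, a j (dep s₁ t) ^ 2 * u j t ^ 2) =
      s₁ * bump t * G (dep s₁ t) + bump (t - 1) * F (dep s₁ t) +
        s₁ * bump (t - 2) * G (dep s₁ t) := by
    intro t
    rw [(dep_deriv s₁ t).deriv]
    rcases le_total t 1 with h1 | h1
    · have e1 : bump (t - 1) = 0 := bump_of_nonpos (by linarith)
      have e2 : bump (t - 2) = 0 := bump_of_nonpos (by linarith)
      simp only [hu, e1, e2]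
      have e3 : (s₁ * (bump t - 0)) ^ 2 + ∑ j, a j (dep s₁ t) ^ 2 *
          (s₁ * bump t * g j (dep s₁ t) + 0 * e j + s₁ * 0 * g j (dep s₁ t)) ^ 2 =
          (s₁ * bump t) ^ 2 * (1 + ∑ j, a j (dep s₁ t) ^ 2 * g j (dep s₁ t) ^ 2) := by
        rw [mul_add, Finset.mul_sum]
        congr 1
        · ring
        · exact Finset.sum_congr rfl fun j _ => by ring
      rw [e3, Real.sqrt_mul (sq_nonneg _), Real.sqrt_sq (mul_nonneg hs0 (bump_nonneg t))]
      ring
    · have e1 : bump t = 0 := bump_of_one_le h1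
      rcases le_total t 2 with h2 | h2
      · have e2 : bump (t - 2) = 0 := bump_of_nonpos (by linarith)
        simp only [hu, e1, e2]
        have e3 : (s₁ * (0 - 0)) ^ 2 + ∑ j, a j (dep s₁ t) ^ 2 *
            (s₁ * 0 * g j (dep s₁ t) + bump (t - 1) * e j + s₁ * 0 * g j (dep s₁ t)) ^ 2 =
            bump (t - 1) ^ 2 * ∑ j, a j (dep s₁ t) ^ 2 * e j ^ 2 := by
          rw [Finset.mul_sum, sub_zero, mul_zero, zero_pow two_ne_zero, zero_add]
          exact Finset.sum_congr rfl fun j _ => by ring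
        rw [e3, Real.sqrt_mul (sq_nonneg _), Real.sqrt_sq (bump_nonneg _)]
        ring
      · have e2 : bump (t - 1) = 0 := bump_of_one_le (by linarith)
        simp only [hu, e1, e2]
        have e3 : (s₁ * (0 - bump (t - 2))) ^ 2 + ∑ j, a j (dep s₁ t) ^ 2 *
            (s₁ * 0 * g j (dep s₁ t) + 0 * e j + s₁ * bump (t - 2) * g j (dep s₁ t)) ^ 2 =
            (s₁ * bump (t - 2)) ^ 2 * (1 + ∑ j, a j (dep s₁ t) ^ 2 * g j (dep s₁ t) ^ 2) := by
          rw [mul_add, Finset.mul_sum]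
          congr 1
          · ring
          · exact Finset.sum_congr rfl fun j _ => by ring
        rw [e3, Real.sqrt_mul (sq_nonneg _), Real.sqrt_sq (mul_nonneg hs0 (bump_nonneg _))]
        ring
  simp only [hpt]
  have c1 := cc1 s₁ hGc'
  have c2 := cc2 hFc'
  have c3 := cc3 s₁ hGc'
  have c12 : Continuous fun t => s₁ * bump t * G (dep s₁ t) + bump (t - 1) * F (dep s₁ t) :=
    c1.add c2
  rw [intervalIntegral.integral_add (c12.intervalIntegrable _ _)
      (c3.intervalIntegrable _ _),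
      intervalIntegral.integral_add (c1.intervalIntegrable _ _)
      (c2.intervalIntegrable _ _), part1 hs0 hGc, part3 hs0 hGc, part2]
  ring

end Pool.Agent.L7h48.HF
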