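import Pool.Agent.L7h48.HF.Grp
import Pool.Agent.L7h48.HF.Three
import Pool.Agent.Y499.HC.Stm2

/-! # Hopf fillings: from curves in the filling to the averaged profile -/

set_option autoImplicit false

open Real Set MeasureTheory Metric
open scoped ENNReal

namespace Pool.Agent.L7h48.HF

open Pool.Agent.Y499.HC Pool.Agent.Y499.HR Pool.Agent.Y502.HC

variable {d : ℕ}

/-- The average over the sphere. -/
noncomputable def av (d : ℕ) (f : Sph d → ℝ) : ℝ := ((σ d) univ).toReal⁻¹ * ∫ x, f x ∂(σ d)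

lemma σ_pos (d : ℕ) : 0 < ((σ d) univ).toReal := by
  refine ENNReal.toReal_pos ?_ (measure_ne_top _ _)
  rw [Measure.measure_univ_ne_zero]
  exact Measure.toSphere_ne_zero _

lemma av_eq (T : Set (E d → E d)) [CompactSpace (Ce T)]
    (htr : ∀ x y : Sph d, ∃ L : E d ≃ₗᵢ[ℝ] E d, (∀ A ∈ T, ∀ v, L (A v) = A (L v)) ∧
      L (x : E d) = y) {f : Sph d → ℝ} (hf : Continuous f) (x : Sph d) :
    ∫ g : Ce T, f (actS (g : O d) x) ∂(muT T) = av d f := by
  unfold av
  rw [← avg_eq T htr hf x, ← mul_assoc, inv_mul_cancel₀ (σ_pos d).ne', one_mul]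

/-- The average of a continuous function of the depth and of the point is continuous. -/
lemma av_cont {R : ℝ} {f : ℝ → E d → ℝ}
    (hf : ContinuousOn (fun p : ℝ × E d => f p.1 p.2) (Ico 0 R ×ˢ sphere 0 1)) :
    ContinuousOn (fun s => av d fun x => f s x) (Ico 0 R) := by
  intro s hs
  obtain ⟨s₁, hs₁, hs₁R⟩ := exists_between hs.2
  set cl : ℝ → ℝ := fun t => max 0 (min t s₁) with hcl
  have hs₁0 : 0 ≤ s₁ := hs.1.trans hs₁.le
  have hclm : ∀ t, cl t ∈ Ico 0 R := fun t =>
    ⟨le_max_left _ _, max_lt (hs₁0.trans_lt hs₁R) ((min_le_right _ _).trans_lt hs₁R)⟩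
  have hcc : Continuous (Function.uncurry fun (t : ℝ) (x : Sph d) => f (cl t) x) := by
    have h1 : Continuous fun p : ℝ × Sph d => (cl p.1, (p.2 : E d)) := by
      simp only [hcl]
      fun_prop
    exact hf.comp_continuous h1 fun p => ⟨hclm p.1, p.2.2⟩
  have hc2 : Continuous fun t => ∫ x in univ, f (cl t) x ∂(σ d) :=
    continuous_parametric_integral_of_continuous hcc isCompact_univ
  have hc3 : Continuous fun t => av d fun x => f (cl t) x := by
    unfold av
    simp only [Measure.restrict_univ] at hc2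
    exact continuous_const.mul hc2
  have he : (fun s => av d fun x => f s x) =ᶠ[nhdsWithin s (Ico 0 R)]
      fun t => av d fun x => f (cl t) x := by
    have h1 : Iio s₁ ∈ nhdsWithin s (Ico 0 R) := mem_nhdsWithin_of_mem_nhds (Iio_mem_nhds hs₁)
    filter_upwards [h1, self_mem_nhdsWithin] with t ht ht2
    have : cl t = t := by
      simp only [hcl]
      rw [min_eq_left (le_of_lt ht), max_eq_right ht2.1]
    rw [this]
  refine (hc3.continuousAt.continuousWithinAt).congr_of_eventuallyEq he ?_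
  have : cl s = s := by
    simp only [hcl]
    rw [min_eq_left hs₁.le, max_eq_right hs.1]
  rw [this]

lemma jensen_sqrt {α : Type} [MeasurableSpace α] (μ : Measure α) [IsProbabilityMeasure μ]
    {F : α → ℝ} (hF : ∀ x, 0 ≤ F x) (hi : Integrable F μ) (hi2 : Integrable (fun x => √(F x)) μ) :
    ∫ x, √(F x) ∂μ ≤ √(∫ x, F x ∂μ) := by
  have h := ConcaveOn.le_map_integral (μ := μ) (f := F) (s := Ici (0 : ℝ))
    Real.strictConcaveOn_sqrt.concaveOn Real.continuous_sqrt.continuousOn isClosed_Ici
    (Filter.Eventually.of_forall fun x => hF x) hi hi2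
  exact h

/-- The curves of all types exist. -/
def Curves {ι : Type} [Fintype ι] (q : ι → E d → E d → ℝ) : Prop :=
  ∀ (l : ℝ) (u : ι → ℝ → ℝ), 0 < l → (∀ j, Continuous (u j)) →
    (∀ j, 0 < ∫ t in (0 : ℝ)..l, u j t) → ∑ j, (∫ t in (0 : ℝ)..l, u j t) ^ 2 = π ^ 2 →
    ∃ y : ℝ → E d, ContDiff ℝ 1 y ∧ (∀ t, ‖y t‖ = 1) ∧ y l = -y 0 ∧
      ∀ j t, q j (y t) (deriv y t) = u j t ^ 2

lemma inner_deriv_zero {y : ℝ → E d} (hy : ContDiff ℝ 1 y) (h1 : ∀ t, ‖y t‖ = 1) (t : ℝ) :
    inner ℝ (y t) (deriv y t) = 0 := by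
  have hd : HasDerivAt y (deriv y t) t :=
    (hy.differentiable (by norm_num) t).hasDerivAt
  have h2 := hd.inner ℝ hd
  have h3 : (fun t => inner ℝ (y t) (y t)) = fun _ => (1 : ℝ) := by
    funext t
    rw [real_inner_self_eq_norm_sq, h1 t, one_pow]
  rw [h3] at h2
  have h4 := h2.unique (hasDerivAt_const t (1 : ℝ))
  rw [real_inner_comm (y t) (deriv y t)] at h4
  have h5 := real_inner_comm (y t) (deriv y t)
  linarith

theorem avg_long {ι : Type} [Fintype ι] (T : Set (E d → E d)) [CompactSpace (Ce T)]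
    (htr : ∀ x y : Sph d, ∃ L : E d ≃ₗᵢ[ℝ] E d, (∀ A ∈ T, ∀ v, L (A v) = A (L v)) ∧
      L (x : E d) = y) {q : ι → E d → E d → ℝ}
    (hq : ∀ g ∈ Ce T, ∀ j x v, q j (act g x) (act g v) = q j x v) (hC : Curves q)
    {R : ℝ} {m : Met d} (hF : Fermi R m) (hS : NonShort R m) {c : ι → ℝ → E d → ℝ}
    (hc : ∀ j, ContinuousOn (fun p : ℝ × E d => c j p.1 p.2) (Ico 0 R ×ˢ sphere 0 1))
    (hsl : ∀ s ∈ Ico 0 R, ∀ x ∈ sphere (0 : E d) 1, ∀ v : E d, inner ℝ x v = 0 →
      quad (m.g s x) v = ∑ j, c j s x ^ 2 * q j x v) :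
    Long R (fun j s => √(av d fun x => c j s x ^ 2)) := by
  intro l s u hl hs hu hsR hs0 hsl0 hpos hπ
  obtain ⟨y, hy, hy1, hyl, hyq⟩ := hC l u hl hu hpos hπ
  have hds : Continuous (deriv s) := hs.continuous_deriv (by norm_num)
  have hdy : ∀ t, HasDerivAt y (deriv y t) t := fun t =>
    (hy.differentiable (by norm_num) t).hasDerivAt
  have hyS : ∀ t, y t ∈ sphere (0 : E d) 1 := fun t => mem_sphere_zero_iff_norm.2 (hy1 t)
  set Y : ℝ → Sph d := fun t => ⟨y t, hyS t⟩ with hY
  have hYc : Continuous Y := Continuous.subtype_mk hy.continuous _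
  have hactc : Continuous fun p : Ce T × ℝ => actS (p.1 : O d) (Y p.2) :=
    (continuous_actT T).comp (f := fun p : Ce T × ℝ => (p.1, Y p.2)) (by fun_prop)
  -- the coefficients along the curves
  have hcc : ∀ j, Continuous fun p : Ce T × ℝ => c j (s p.2) (actS (p.1 : O d) (Y p.2)) := by
    intro j
    have h1 : Continuous fun p : Ce T × ℝ => (s p.2, (actS (p.1 : O d) (Y p.2) : E d)) :=
      (hs.continuous.comp continuous_snd).prodMk (continuous_subtype_val.comp hactc)
    exact (hc j).comp_continuous h1 fun p => ⟨hsR _, (actS (p.1 : O d) (Y p.2)).2⟩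
  set G : Ce T × ℝ → ℝ := fun p => deriv s p.2 ^ 2 +
    ∑ j, c j (s p.2) (actS (p.1 : O d) (Y p.2)) ^ 2 * u j p.2 ^ 2 with hG
  have hGc : Continuous G := by
    refine ((hds.comp continuous_snd).pow 2).add (continuous_finsetSum _ fun j _ => ?_)
    exact ((hcc j).pow 2).mul (((hu j).comp continuous_snd).pow 2)
  have hG0 : ∀ p, 0 ≤ G p := fun p =>
    add_nonneg (sq_nonneg _) (Finset.sum_nonneg fun j _ => by positivity)
  -- the curves are long
  have hlong : ∀ g : Ce T, π ≤ ∫ t in (0 : ℝ)..l, √(G (g, t)) := by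
    intro g
    have hYg : ∀ t, HasDerivAt (fun t => act (g : O d) (y t)) (act (g : O d) (deriv y t)) t := by
      intro t
      exact ((act (g : O d)).toContinuousLinearEquiv.hasFDerivAt (x := y t)).comp_hasDerivAt t
        (hdy t)
    have hYgc : ContDiff ℝ 1 (fun t => act (g : O d) (y t)) :=
      (act (g : O d)).toContinuousLinearEquiv.contDiff.comp hy
    have h1 := hS l s (fun t => act (g : O d) (y t)) hl hs hYgc (fun t _ => hsR t)
      (fun t => by
        rw [mem_sphere_zero_iff_norm, LinearIsometryEquiv.norm_map]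
        exact hy1 t) hs0 hsl0 (by
        show act (g : O d) (y l) = -act (g : O d) (y 0)
        rw [hyl, map_neg])
    refine h1.trans (le_of_eq ?_)
    refine intervalIntegral.integral_congr fun t _ => ?_
    show √(m.sq (s t) (act (g : O d) (y t)) (deriv s t)
      (deriv (fun t => act (g : O d) (y t)) t)) = √(G (g, t))
    rw [(hYg t).deriv]
    congr 1
    have hmem : act (g : O d) (y t) ∈ sphere (0 : E d) 1 := by
      rw [mem_sphere_zero_iff_norm, LinearIsometryEquiv.norm_map]
      exact hy1 t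
    have hin : inner ℝ (act (g : O d) (y t)) (act (g : O d) (deriv y t)) = 0 := by
      rw [LinearIsometryEquiv.inner_map_map]
      exact inner_deriv_zero hy hy1 t
    obtain ⟨ha1, hb0⟩ := hF (s t) (hsR t) _ hmem
    unfold Met.sq
    rw [ha1, hb0 _ hin, hsl (s t) (hsR t) _ hmem _ hin, one_mul, mul_zero, add_zero]
    simp only [hG]
    congr 1
    refine Finset.sum_congr rfl fun j _ => ?_
    rw [hq g g.2, hyq]
    rfl
  -- integrability
  have hint : Integrable (fun p : Ce T × ℝ => √(G p))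
      ((muT T).prod (volume.restrict (Ioc 0 l))) := by
    have h1 : IntegrableOn (fun p : Ce T × ℝ => √(G p)) (univ ×ˢ Icc 0 l)
        ((muT T).prod volume) :=
      (hGc.sqrt.continuousOn).integrableOn_compact (isCompact_univ.prod isCompact_Icc)
    have h2 : IntegrableOn (fun p : Ce T × ℝ => √(G p)) (univ ×ˢ Ioc 0 l)
        ((muT T).prod volume) := h1.mono_set (prod_mono le_rfl Ioc_subset_Icc_self)
    unfold IntegrableOn at h2
    rwa [← Measure.prod_restrict, Measure.restrict_univ] at h2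
  have hswap : ∫ g : Ce T, (∫ t in Ioc 0 l, √(G (g, t))) ∂(muT T) =
      ∫ t in Ioc 0 l, ∫ g : Ce T, √(G (g, t)) ∂(muT T) := integral_integral_swap hint
  have h1 : π ≤ ∫ g : Ce T, (∫ t in Ioc 0 l, √(G (g, t))) ∂(muT T) := by
    have h2 : ∫ _ : Ce T, π ∂(muT T) ≤ ∫ g : Ce T, (∫ t in Ioc 0 l, √(G (g, t))) ∂(muT T) := by
      refine integral_mono (integrable_const _) hint.integral_prod_left fun g => ?_
      have := hlong g
      rwa [intervalIntegral.integral_of_le hl.le] at this
    simpa using h2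
  rw [hswap] at h1
  rw [intervalIntegral.integral_of_le hl.le]
  refine h1.trans ?_
  have hcs : ∀ j, ContinuousOn (fun p : ℝ × E d => (fun s x => c j s x ^ 2) p.1 p.2)
      (Ico 0 R ×ˢ sphere 0 1) := fun j => (hc j).pow 2
  have havc : ∀ j, Continuous fun t => av d fun x => c j (s t) x ^ 2 := fun j =>
    (av_cont (f := fun s x => c j s x ^ 2) (hcs j)).comp_continuous hs.continuous hsR
  have hav0 : ∀ j t, 0 ≤ av d fun x => c j (s t) x ^ 2 := fun j t =>
    mul_nonneg (inv_nonneg.2 ENNReal.toReal_nonneg) (integral_nonneg fun x => sq_nonneg _)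
  refine integral_mono hint.integral_prod_right ?_ fun t => ?_
  · refine (Continuous.integrableOn_Icc ?_).mono_set Ioc_subset_Icc_self
    refine ((hds.pow 2).add (continuous_finsetSum _ fun j _ => ?_)).sqrt
    exact ((havc j).sqrt.pow 2).mul ((hu j).pow 2)
  · have hct : Continuous fun g : Ce T => G (g, t) :=
      hGc.comp (f := fun g : Ce T => (g, t)) (by fun_prop)
    have hj := jensen_sqrt (muT T) (F := fun g : Ce T => G (g, t)) (fun g => hG0 _)
      (hct.integrable_of_hasCompactSupport (HasCompactSupport.of_compactSpace _))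
      (hct.sqrt.integrable_of_hasCompactSupport (HasCompactSupport.of_compactSpace _))
    refine hj.trans (le_of_eq ?_)
    congr 1
    simp only [hG]
    have hcj : ∀ j, Continuous fun g : Ce T => c j (s t) (actS (g : O d) (Y t)) ^ 2 * u j t ^ 2 :=
      fun j => (((hcc j).comp (f := fun g : Ce T => (g, t)) (by fun_prop)).pow 2).mul
        continuous_const
    rw [integral_add (integrable_const _) (integrable_finsetSum _ fun j _ =>
      (hcj j).integrable_of_hasCompactSupport (HasCompactSupport.of_compactSpace _)),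
      integral_finsetSum _ fun j _ =>
      (hcj j).integrable_of_hasCompactSupport (HasCompactSupport.of_compactSpace _)]
    congr 1
    · simp
    · refine Finset.sum_congr rfl fun j _ => ?_
      rw [integral_mul_const, Real.sq_sqrt (hav0 j t)]
      congr 1
      have hfc : Continuous fun x : Sph d => c j (s t) x ^ 2 :=
        (hcs j).comp_continuous (f := fun x : Sph d => (s t, (x : E d))) (by fun_prop)
          fun x => ⟨hsR t, x.2⟩
      exact av_eq T htr hfc (Y t)

end Pool.Agent.L7h48.HF
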