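import Mathlib

/-! # Hopf fillings: the constants -/

set_option autoImplicit false

open Real Set MeasureTheory Metric
open scoped ENNReal

namespace Pool.Agent.L7h48.HF

/-- `∫₀^{π/2} cos^n`. -/
noncomputable def S (n : ℕ) : ℝ := ∫ t in (0 : ℝ)..(π / 2), Real.cos t ^ n

lemma S_zero : S 0 = π / 2 := by
  unfold S
  simp

lemma S_one : S 1 = 1 := by
  unfold S
  simp

lemma S_succ (n : ℕ) : S (n + 2) = (n + 1) / (n + 2) * S n := by
  unfold S
  rw [integral_cos_pow]
  simp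

lemma S_mul (n : ℕ) : S n * S (n + 1) = π / (2 * (n + 1)) := by
  induction n with
  | zero => rw [S_zero, zero_add, S_one]; norm_num
  | succ n ih =>
    rw [S_succ]
    push_cast
    have h : S (n + 1) * ((n + 1) / (n + 2) * S n) = (n + 1) / (n + 2) * (S n * S (n + 1)) := by
      ring
    rw [h, ih]
    field_simp
    ring

/-- `∫ √(1 - |q|²)` over `ℝ^d`. -/
noncomputable def Cd (d : ℕ) : ℝ≥0∞ := ∫⁻ q : Fin d → ℝ, ENNReal.ofReal (√(1 - ∑ i, q i ^ 2))

/-- `∫ π (1 - |q|)` over the unit ball of `ℝ^d`. -/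
noncomputable def Kd (d : ℕ) : ℝ≥0∞ :=
  ∫⁻ q : Fin d → ℝ, ENNReal.ofReal (π * (1 - √(∑ i, q i ^ 2)))

lemma norm_toLp {d : ℕ} (q : Fin d → ℝ) :
    ‖(WithLp.toLp 2 q : EuclideanSpace ℝ (Fin d))‖ ^ 2 = ∑ i, q i ^ 2 := by
  rw [EuclideanSpace.norm_sq_eq]
  refine Finset.sum_congr rfl fun i _ => ?_
  rw [Real.norm_eq_abs, sq_abs]

lemma Cd_eq (d : ℕ) : Cd d = ∫⁻ q : EuclideanSpace ℝ (Fin d), ENNReal.ofReal (√(1 - ‖q‖ ^ 2)) := by
  have h := (PiLp.volume_preserving_toLp (Fin d)).lintegral_comp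
    (f := fun q : EuclideanSpace ℝ (Fin d) => ENNReal.ofReal (√(1 - ‖q‖ ^ 2))) (by fun_prop)
  rw [← h]
  unfold Cd
  refine lintegral_congr fun q => ?_
  rw [norm_toLp]

lemma Kd_eq (d : ℕ) :
    Kd d = ∫⁻ q : EuclideanSpace ℝ (Fin d), ENNReal.ofReal (π * max (1 - ‖q‖) 0) := by
  have h := (PiLp.volume_preserving_toLp (Fin d)).lintegral_comp
    (f := fun q : EuclideanSpace ℝ (Fin d) => ENNReal.ofReal (π * max (1 - ‖q‖) 0)) (by fun_prop)
  rw [← h]
  unfold Kd
  refine lintegral_congr fun q => ?_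
  have h1 : ‖(WithLp.toLp 2 q : EuclideanSpace ℝ (Fin d))‖ = √(∑ i, q i ^ 2) := by
    rw [← norm_toLp, Real.sqrt_sq (norm_nonneg _)]
  rw [h1]
  rcases le_total 0 (1 - √(∑ i, q i ^ 2)) with h2 | h2
  · rw [max_eq_left h2]
  · rw [max_eq_right h2, mul_zero, ENNReal.ofReal_zero]
    exact ENNReal.ofReal_of_nonpos (mul_nonpos_of_nonneg_of_nonpos pi_pos.le h2)

lemma int_C (d : ℕ) (hd : 1 ≤ d) :
    Integrable (fun q : EuclideanSpace ℝ (Fin d) => √(1 - ‖q‖ ^ 2)) := by
  apply Continuous.integrable_of_hasCompactSupport (by fun_prop)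
  refine HasCompactSupport.intro (isCompact_closedBall (0 : EuclideanSpace ℝ (Fin d)) 1)
    fun q hq => ?_
  rw [mem_closedBall_zero_iff, not_le] at hq
  apply Real.sqrt_eq_zero_of_nonpos
  nlinarith

lemma int_K (d : ℕ) (hd : 1 ≤ d) :
    Integrable (fun q : EuclideanSpace ℝ (Fin d) => π * max (1 - ‖q‖) 0) := by
  apply Continuous.integrable_of_hasCompactSupport (by fun_prop)
  refine HasCompactSupport.intro (isCompact_closedBall (0 : EuclideanSpace ℝ (Fin d)) 1)
    fun q hq => ?_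
  rw [mem_closedBall_zero_iff, not_le] at hq
  rw [max_eq_right (by linarith), mul_zero]

/-- The radial integral with the square root. -/
lemma rad_C (d : ℕ) (hd : 1 ≤ d) :
    ∫ y in Ioi (0 : ℝ), y ^ (d - 1) • √(1 - y ^ 2) = S (d - 1) - S (d + 1) := by
  have h1 : ∫ y in Ioi (0 : ℝ), y ^ (d - 1) • √(1 - y ^ 2) =
      ∫ y in (0 : ℝ)..1, y ^ (d - 1) • √(1 - y ^ 2) := by
    rw [intervalIntegral.integral_of_le zero_le_one]
    refine (setIntegral_eq_of_subset_of_forall_diff_eq_zero measurableSet_Ioi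
      (fun y hy => hy.1) fun y hy => ?_)
    have h2 : 1 < y := by
      by_contra h
      exact hy.2 ⟨hy.1, not_lt.1 h⟩
    have h3 : √(1 - y ^ 2) = 0 := Real.sqrt_eq_zero_of_nonpos (by nlinarith)
    rw [h3, smul_zero]
  have h2 := intervalIntegral.integral_comp_mul_deriv (a := π / 2) (b := 0) (f := Real.cos)
    (f' := fun x => -Real.sin x) (g := fun y => y ^ (d - 1) • √(1 - y ^ 2))
    (fun x _ => Real.hasDerivAt_cos x) (by fun_prop) (by fun_prop)
  rw [Real.cos_pi_div_two, Real.cos_zero] at h2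
  rw [h1, ← h2, intervalIntegral.integral_symm, ← intervalIntegral.integral_neg]
  unfold S
  rw [← intervalIntegral.integral_sub (Continuous.intervalIntegrable (by fun_prop) _ _)
    (Continuous.intervalIntegrable (by fun_prop) _ _)]
  refine intervalIntegral.integral_congr fun t ht => ?_
  rw [uIcc_of_le (by positivity)] at ht
  have h3 : 0 ≤ Real.sin t := Real.sin_nonneg_of_nonneg_of_le_pi ht.1 (by linarith [ht.2, pi_pos])
  have h4 : √(1 - Real.cos t ^ 2) = Real.sin t := by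
    rw [← Real.sin_sq, Real.sqrt_sq h3]
  have h5 : Real.cos t ^ (d + 1) = Real.cos t ^ (d - 1) * Real.cos t ^ 2 := by
    rw [← pow_add]
    congr 1
    omega
  simp only [Function.comp, smul_eq_mul, h4, h5]
  have h6 := Real.sin_sq_add_cos_sq t
  linear_combination (Real.cos t ^ (d - 1)) * h6

lemma rad_K (d : ℕ) (hd : 1 ≤ d) :
    ∫ y in Ioi (0 : ℝ), y ^ (d - 1) • (π * max (1 - y) 0) = π * (1 / d - 1 / (d + 1)) := by
  have h1 : ∫ y in Ioi (0 : ℝ), y ^ (d - 1) • (π * max (1 - y) 0) =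
      ∫ y in (0 : ℝ)..1, y ^ (d - 1) • (π * max (1 - y) 0) := by
    rw [intervalIntegral.integral_of_le zero_le_one]
    refine (setIntegral_eq_of_subset_of_forall_diff_eq_zero measurableSet_Ioi
      (fun y hy => hy.1) fun y hy => ?_)
    have h2 : 1 < y := by
      by_contra h
      exact hy.2 ⟨hy.1, not_lt.1 h⟩
    rw [max_eq_right (by linarith), mul_zero, smul_zero]
  have h2 : ∫ y in (0 : ℝ)..1, y ^ (d - 1) • (π * max (1 - y) 0) =
      ∫ y in (0 : ℝ)..1, (π * y ^ (d - 1) - π * y ^ d) := by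
    refine intervalIntegral.integral_congr fun t ht => ?_
    rw [uIcc_of_le zero_le_one] at ht
    have h3 : t ^ d = t ^ (d - 1) * t := by
      rw [← pow_succ]
      congr 1
      omega
    simp only [smul_eq_mul]
    rw [max_eq_left (by linarith [ht.2]), h3]
    ring
  rw [h1, h2, intervalIntegral.integral_sub (Continuous.intervalIntegrable (by fun_prop) _ _)
    (Continuous.intervalIntegrable (by fun_prop) _ _), intervalIntegral.integral_const_mul,
    intervalIntegral.integral_const_mul, integral_pow, integral_pow]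
  have h4 : ((d - 1 : ℕ) : ℝ) + 1 = d := by
    rw [Nat.cast_sub hd]
    simp
  rw [h4]
  have h5 : d ≠ 0 := by omega
  have h6 : d - 1 + 1 = d := by omega
  simp [h5, h6]
  ring

lemma finrank_E (d : ℕ) : Module.finrank ℝ (EuclideanSpace ℝ (Fin d)) = d := by simp

theorem Kd_Cd (d : ℕ) (hd : 1 ≤ d) : Kd d = Cd d * ENNReal.ofReal (2 * S d) := by
  have : Nontrivial (EuclideanSpace ℝ (Fin d)) := by
    have : Nonempty (Fin d) := ⟨⟨0, hd⟩⟩
    infer_instance
  have hC := int_C d hd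
  have hK := int_K d hd
  rw [Kd_eq, Cd_eq, ← ofReal_integral_eq_lintegral_ofReal hC
    (Filter.Eventually.of_forall fun q => Real.sqrt_nonneg _),
    ← ofReal_integral_eq_lintegral_ofReal hK
    (Filter.Eventually.of_forall fun q => mul_nonneg pi_pos.le (le_max_right _ _)),
    ← ENNReal.ofReal_mul (integral_nonneg fun q => Real.sqrt_nonneg _)]
  congr 1
  rw [integral_fun_norm_addHaar volume (fun y => √(1 - y ^ 2)),
    integral_fun_norm_addHaar volume (fun y => π * max (1 - y) 0), finrank_E, rad_C d hd,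
    rad_K d hd]
  simp only [nsmul_eq_mul, smul_eq_mul]
  have h1 := S_mul d
  have h2 := S_mul (d - 1)
  have h3 : d - 1 + 1 = d := by omega
  have h4 : ((d - 1 : ℕ) : ℝ) + 1 = d := by
    rw [Nat.cast_sub hd]
    simp
  rw [h3, h4] at h2
  have h5 : (0 : ℝ) < d := by exact_mod_cast hd
  have h6 : (S (d - 1) - S (d + 1)) * (2 * S d) = π * (1 / d - 1 / (d + 1)) := by
    have : (S (d - 1) - S (d + 1)) * (2 * S d) = 2 * (S (d - 1) * S d) - 2 * (S d * S (d + 1)) := by
      ring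
    rw [this, h1, h2]
    field_simp
  rw [← h6]
  ring

lemma Cd_ne_top (d : ℕ) (hd : 1 ≤ d) : Cd d ≠ ⊤ := by
  rw [Cd_eq]
  have h := (int_C d hd).lintegral_lt_top
  exact h.ne

lemma Cd_ne_zero (d : ℕ) (hd : 1 ≤ d) : Cd d ≠ 0 := by
  intro h
  have h1 := Kd_Cd d hd
  rw [h, zero_mul, Kd_eq, lintegral_eq_zero_iff (by fun_prop)] at h1
  have h2 : ∀ᵐ q : EuclideanSpace ℝ (Fin d), q ∉ ball (0 : EuclideanSpace ℝ (Fin d)) 1 := by
    filter_upwards [h1] with q hq hb
    rw [mem_ball_zero_iff] at hb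
    have h3 : 0 < π * max (1 - ‖q‖) 0 :=
      mul_pos pi_pos (lt_max_of_lt_left (by linarith))
    have h4 := ENNReal.ofReal_pos.2 h3
    simp only [Pi.zero_apply] at hq
    exact h4.ne' hq
  have h5 : volume (ball (0 : EuclideanSpace ℝ (Fin d)) 1) = 0 :=
    measure_eq_zero_iff_ae_notMem.2 h2
  exact (measure_ball_pos volume (0 : EuclideanSpace ℝ (Fin d)) one_pos).ne' h5

end Pool.Agent.L7h48.HF
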