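import Pool.Agent.L7h48.HF.AvgLong

/-! # Hopf fillings: complex structures -/

set_option autoImplicit false

open Real Set MeasureTheory Metric
open scoped ENNReal

namespace Pool.Agent.L7h48.HF

open Pool.Agent.Y499.HC Pool.Agent.Y499.HR Pool.Agent.Y502.HC

variable {d : ℕ}

/-- `J` is a complex structure of the Euclidean space (an isometry with square `-1`). -/
def IsCx (J : E d →ₗᵢ[ℝ] E d) : Prop := ∀ x, J (J x) = -x

lemma cx_skew {J : E d →ₗᵢ[ℝ] E d} (hJ : IsCx J) (x y : E d) :
    inner ℝ (J x) y = -inner ℝ x (J y) := by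
  have h := J.inner_map_map (J x) y
  rw [hJ x, inner_neg_left] at h
  linarith

lemma cx_self {J : E d →ₗᵢ[ℝ] E d} (hJ : IsCx J) (x : E d) : inner ℝ (J x) x = 0 := by
  have h := cx_skew hJ x x
  rw [real_inner_comm] at h
  have h2 := real_inner_comm x (J x)
  linarith

lemma isom_of {F : E d →ₗ[ℝ] E d} (h : ∀ x, ‖F x‖ = ‖x‖) :
    ∃ L : E d ≃ₗᵢ[ℝ] E d, ∀ x, L x = F x :=
  ⟨LinearIsometry.toLinearIsometryEquiv ⟨F, h⟩ rfl, fun _ => rfl⟩

/-- The rotation `c + s J`. -/
lemma rot_isom {J : E d →ₗᵢ[ℝ] E d} (hJ : IsCx J) {c s : ℝ} (h : c ^ 2 + s ^ 2 = 1) (x : E d) :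
    ‖c • x + s • J x‖ = ‖x‖ := by
  have h1 : ‖c • x + s • J x‖ ^ 2 = ‖x‖ ^ 2 := by
    rw [norm_add_sq_real, norm_smul, norm_smul, real_inner_smul_left, real_inner_smul_right,
      J.norm_map, mul_pow, mul_pow, Real.norm_eq_abs, Real.norm_eq_abs, sq_abs, sq_abs,
      real_inner_comm, cx_self hJ x]
    linear_combination ‖x‖ ^ 2 * h
  exact (sq_eq_sq₀ (norm_nonneg _) (norm_nonneg _)).1 h1

/-- The complex reflection which maps `x` to `y` if the Hermitian product of the unit vectors `x`, `y`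
is real. -/
lemma refl_ex {J : E d →ₗᵢ[ℝ] E d} (hJ : IsCx J) {x y : E d} (hx : ‖x‖ = 1) (hy : ‖y‖ = 1)
    (hxy : inner ℝ (J x) y = 0) :
    ∃ L : E d ≃ₗᵢ[ℝ] E d, (∀ v, L (J v) = J (L v)) ∧ L x = y := by
  by_cases he : x = y
  · exact ⟨LinearIsometryEquiv.refl ℝ (E d), fun v => rfl, he⟩
  have hne : x - y ≠ 0 := sub_ne_zero.2 he
  have hn : 0 < ‖x - y‖ ^ 2 := by positivity
  set z : E d := x - y with hz
  set k : ℝ := 2 / ‖z‖ ^ 2 with hk
  set F : E d →ₗ[ℝ] E d :=
    { toFun := fun v => v - (k * inner ℝ z v) • z - (k * inner ℝ (J z) v) • J z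
      map_add' := by
        intro v w
        simp only [inner_add_right, mul_add, add_smul]
        abel
      map_smul' := by
        intro a v
        simp only [real_inner_smul_right, RingHom.id_apply, smul_sub, smul_smul]
        congr 2
        · congr 1
          ring_nf
        · ring_nf } with hF
  have hFa : ∀ v, F v = v - (k * inner ℝ z v) • z - (k * inner ℝ (J z) v) • J z := fun v => rfl
  have hzJ : inner ℝ z (J z) = 0 := by rw [real_inner_comm]; exact cx_self hJ z
  have hJn : ‖J z‖ = ‖z‖ := J.norm_map z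
  have hkn : k * ‖z‖ ^ 2 = 2 := by
    rw [hk]
    field_simp
  have hiso : ∀ v, ‖F v‖ = ‖v‖ := by
    intro v
    have h1 : ‖F v‖ ^ 2 = ‖v‖ ^ 2 := by
      rw [hFa, ← real_inner_self_eq_norm_sq]
      simp only [inner_sub_left, inner_sub_right, real_inner_smul_left, real_inner_smul_right,
        hzJ, cx_self hJ z]
      rw [real_inner_self_eq_norm_sq, real_inner_self_eq_norm_sq, real_inner_self_eq_norm_sq, hJn,
        real_inner_comm z v, real_inner_comm (J z) v]
      linear_combination (k * inner ℝ z v ^ 2 + k * inner ℝ (J z) v ^ 2) * hkn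
    exact (sq_eq_sq₀ (norm_nonneg _) (norm_nonneg _)).1 h1
  obtain ⟨L, hL⟩ := isom_of hiso
  refine ⟨L, fun v => ?_, ?_⟩
  · have key : ∀ (v z : E d) (a b : ℝ), J (v - a • z - b • J z) = J v - a • J z + b • z := by
      intro v z a b
      rw [map_sub, map_sub, map_smul, map_smul, hJ]
      module
    rw [hL, hL, hFa, hFa, key]
    have e1 : inner ℝ z (J v) = -inner ℝ (J z) v := by
      have := cx_skew hJ z v
      linarith
    have e2 : inner ℝ (J z) (J v) = inner ℝ z v := J.inner_map_map z v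
    rw [e1, e2]
    module
  · rw [hL, hFa]
    have e0 : inner ℝ (J z) x = 0 := by
      rw [hz, map_sub, inner_sub_left, cx_self hJ x, cx_skew hJ y x, real_inner_comm, hxy]
      simp
    have e1 : k * inner ℝ z x = 1 := by
      have h2 : ‖z‖ ^ 2 = 2 * inner ℝ z x := by
        rw [hz, norm_sub_sq_real, hx, hy, inner_sub_left, real_inner_self_eq_norm_sq, hx,
          real_inner_comm]
        ring
      rw [h2] at hkn
      linarith
    rw [e0, e1, mul_zero, zero_smul, sub_zero, one_smul, hz]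
    abel

lemma cx_trans {J : E d →ₗᵢ[ℝ] E d} (hJ : IsCx J) (x y : Sph d) :
    ∃ L : E d ≃ₗᵢ[ℝ] E d, (∀ A ∈ ({(J : E d → E d)} : Set (E d → E d)), ∀ v, L (A v) = A (L v)) ∧
      L (x : E d) = y := by
  have hx : ‖(x : E d)‖ = 1 := mem_sphere_zero_iff_norm.1 x.2
  have hy : ‖(y : E d)‖ = 1 := mem_sphere_zero_iff_norm.1 y.2
  obtain ⟨c, s, hcs, hb⟩ : ∃ c s : ℝ, c ^ 2 + s ^ 2 = 1 ∧
      c * inner ℝ (J x) (y : E d) - s * inner ℝ (x : E d) (y : E d) = 0 := by
    set a := inner ℝ (x : E d) (y : E d)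
    set b := inner ℝ (J x) (y : E d)
    by_cases h : a ^ 2 + b ^ 2 = 0
    · have h1 : a = 0 := by nlinarith [sq_nonneg a, sq_nonneg b]
      have h2 : b = 0 := by nlinarith [sq_nonneg a, sq_nonneg b]
      exact ⟨1, 0, by norm_num, by rw [h1, h2]; ring⟩
    · have hp : 0 < a ^ 2 + b ^ 2 := lt_of_le_of_ne (by positivity) (Ne.symm h)
      have hr : 0 < √(a ^ 2 + b ^ 2) := Real.sqrt_pos.2 hp
      have hr2 : √(a ^ 2 + b ^ 2) ^ 2 = a ^ 2 + b ^ 2 := Real.sq_sqrt hp.le
      refine ⟨a / √(a ^ 2 + b ^ 2), b / √(a ^ 2 + b ^ 2), ?_, ?_⟩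
      · rw [div_pow, div_pow, hr2, ← add_div, div_self hp.ne']
      · field_simp
        ring
  set R1 : E d →ₗ[ℝ] E d := c • LinearMap.id + s • J.toLinearMap with hR1
  have hR1a : ∀ v, R1 v = c • v + s • J v := fun v => rfl
  obtain ⟨L1, hL1⟩ := isom_of (F := R1) (fun v => by rw [hR1a]; exact rot_isom hJ hcs v)
  have h1 : ‖L1 (x : E d)‖ = 1 := by rw [L1.norm_map, hx]
  have h2 : inner ℝ (J (L1 (x : E d))) (y : E d) = 0 := by
    rw [hL1, hR1a, map_add, map_smul, map_smul, hJ, inner_add_left, real_inner_smul_left,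
      real_inner_smul_left, inner_neg_left]
    linarith
  obtain ⟨L2, hL2, hL2x⟩ := refl_ex hJ h1 hy h2
  refine ⟨L1.trans L2, ?_, ?_⟩
  · intro A hA v
    rw [mem_singleton_iff] at hA
    subst hA
    show L2 (L1 (J v)) = J (L2 (L1 v))
    have e : L1 (J v) = J (L1 v) := by
      rw [hL1, hL1, hR1a, hR1a, map_add, map_smul, map_smul]
    rw [e, hL2]
  · show L2 (L1 (x : E d)) = y
    exact hL2x

/-- The squares of the vertical and of the horizontal part of the tangent vector `v` at `x`. -/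
noncomputable def qc (J : E d →ₗᵢ[ℝ] E d) (j : Fin 2) (x v : E d) : ℝ :=
  if j = 0 then inner ℝ (J x) v ^ 2 else ‖v‖ ^ 2 - inner ℝ (J x) v ^ 2

lemma qc_inv (J : E d →ₗᵢ[ℝ] E d) (g : O d) (hg : g ∈ Ce ({(J : E d → E d)} : Set (E d → E d)))
    (j : Fin 2) (x v : E d) : qc J j (act g x) (act g v) = qc J j x v := by
  have h1 : J (act g x) = act g (J x) := ((mem_Ce.1 hg) _ rfl x).symm
  unfold qc
  rw [h1, LinearIsometryEquiv.inner_map_map, LinearIsometryEquiv.norm_map]

/-- A unit vector orthogonal to `x` and `J x`. -/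
lemma exists_hor (hd : 2 ≤ d) (J : E d →ₗᵢ[ℝ] E d) (x : E d) :
    ∃ h : E d, ‖h‖ = 1 ∧ inner ℝ x h = 0 ∧ inner ℝ (J x) h = 0 := by
  classical
  set K : Submodule ℝ (E d) := Submodule.span ℝ ({x, J x} : Finset (E d)) with hK
  have hf : Module.finrank ℝ K ≤ 2 :=
    (finrank_span_finset_le_card _).trans (Finset.card_le_two)
  have hE : Module.finrank ℝ (E d) = d + 1 := by simp
  have hadd := K.finrank_add_finrank_orthogonal
  have hpos : 0 < Module.finrank ℝ Kᗮ := by omega
  have : Nontrivial Kᗮ := Module.nontrivial_of_finrank_pos hpos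
  obtain ⟨⟨w, hw⟩, hw0⟩ := exists_ne (0 : Kᗮ)
  have hw1 : w ≠ 0 := by
    intro h
    exact hw0 (Subtype.ext h)
  have hwn : ‖w‖ ≠ 0 := norm_ne_zero_iff.2 hw1
  have hx : inner ℝ x w = 0 := hw x (Submodule.subset_span (by simp))
  have hJx : inner ℝ (J x) w = 0 := hw (J x) (Submodule.subset_span (by simp))
  refine ⟨‖w‖⁻¹ • w, ?_, ?_, ?_⟩
  · rw [norm_smul, norm_inv, norm_norm, inv_mul_cancel₀ hwn]
  · rw [real_inner_smul_right, hx, mul_zero]
  · rw [real_inner_smul_right, hJx, mul_zero]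

lemma prim {u : ℝ → ℝ} (hu : Continuous u) (t : ℝ) :
    HasDerivAt (fun t => ∫ x in (0 : ℝ)..t, u x) (u t) t :=
  (hu.integral_hasStrictDerivAt 0 t).hasDerivAt

theorem cx_curves (hd : 2 ≤ d) {J : E d →ₗᵢ[ℝ] E d} (hJ : IsCx J) : Curves (qc J) := by
  intro l u hl hu hpos hπ
  set D0 := ∫ t in (0 : ℝ)..l, u 0 t with hD0
  set D1 := ∫ t in (0 : ℝ)..l, u 1 t with hD1
  rw [Fin.sum_univ_two] at hπ
  have h1 : 0 < D1 := hpos 1
  have hπ0 : π ≠ 0 := pi_pos.ne'
  set x₀ : E d := EuclideanSpace.single 0 1 with hx₀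
  have hx0n : ‖x₀‖ = 1 := by simp [hx₀]
  obtain ⟨h₀, hh, hxh, hJh⟩ := exists_hor hd J x₀
  set w : E d := (D0 / π) • J x₀ + (D1 / π) • h₀ with hw
  have hxJ : inner ℝ x₀ (J x₀) = 0 := by rw [real_inner_comm]; exact cx_self hJ x₀
  have hxw : inner ℝ x₀ w = 0 := by
    rw [hw, inner_add_right, real_inner_smul_right, real_inner_smul_right, hxJ, hxh]
    simp
  have hJxn : ‖J x₀‖ = 1 := by rw [J.norm_map, hx0n]
  have hww : inner ℝ w w = (1 : ℝ) := by
    rw [hw, inner_add_left, inner_add_right, inner_add_right]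
    simp only [real_inner_smul_left, real_inner_smul_right]
    rw [real_inner_self_eq_norm_sq, real_inner_self_eq_norm_sq, hh, hJxn, hJh,
      real_inner_comm (J x₀) h₀, hJh]
    field_simp
    linarith
  have hJxw : inner ℝ (J x₀) w = D0 / π := by
    rw [hw, inner_add_right, real_inner_smul_right, real_inner_smul_right,
      real_inner_self_eq_norm_sq, hJxn, hJh]
    ring
  have hxx : inner ℝ x₀ x₀ = (1 : ℝ) := by rw [real_inner_self_eq_norm_sq, hx0n, one_pow]
  set α : ℝ → ℝ := fun t => ∫ x in (0 : ℝ)..t, (u 0 x - D0 / D1 * u 1 x) with hα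
  set φ : ℝ → ℝ := fun t => π / D1 * ∫ x in (0 : ℝ)..t, u 1 x with hφ
  have hαc : Continuous fun x => u 0 x - D0 / D1 * u 1 x :=
    (hu 0).sub (continuous_const.mul (hu 1))
  have hα' : ∀ t, HasDerivAt α (u 0 t - D0 / D1 * u 1 t) t := fun t => prim hαc t
  have hφ' : ∀ t, HasDerivAt φ (π / D1 * u 1 t) t := fun t => (prim (hu 1) t).const_mul _
  have hαC : ContDiff ℝ 1 α := by
    rw [contDiff_one_iff_deriv]
    exact ⟨fun t => (hα' t).differentiableAt, by
      rw [show deriv α = fun t => u 0 t - D0 / D1 * u 1 t from funext fun t => (hα' t).deriv]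
      exact hαc⟩
  have hφC : ContDiff ℝ 1 φ := by
    rw [contDiff_one_iff_deriv]
    exact ⟨fun t => (hφ' t).differentiableAt, by
      rw [show deriv φ = fun t => π / D1 * u 1 t from funext fun t => (hφ' t).deriv]
      exact continuous_const.mul (hu 1)⟩
  have hα0 : α 0 = 0 := by simp [hα]
  have hφ0 : φ 0 = 0 := by simp [hφ]
  have hαl : α l = 0 := by
    simp only [hα]
    have hc1 : Continuous fun x => D0 / D1 * u 1 x := continuous_const.mul (hu 1)
    rw [intervalIntegral.integral_sub ((hu 0).intervalIntegrable _ _)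
      (hc1.intervalIntegrable _ _),
      intervalIntegral.integral_const_mul, ← hD0, ← hD1]
    field_simp
    ring
  have hφl : φ l = π := by
    simp only [hφ]
    rw [← hD1]
    field_simp
  -- the curve
  set γ : ℝ → E d := fun t => Real.cos (φ t) • x₀ + Real.sin (φ t) • w with hγ
  set γ' : ℝ → E d := fun t => (-Real.sin (φ t)) • x₀ + Real.cos (φ t) • w with hγ'
  have hγd : ∀ t, HasDerivAt γ ((π / D1 * u 1 t) • γ' t) t := by
    intro t
    have e1 := ((hφ' t).cos.smul_const x₀).add ((hφ' t).sin.smul_const w)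
    refine e1.congr_deriv ?_
    simp only [hγ']
    module
  have hγn : ∀ t, inner ℝ (γ t) (γ t) = (1 : ℝ) := by
    intro t
    simp only [hγ]
    rw [inner_add_left, inner_add_right, inner_add_right]
    simp only [real_inner_smul_left, real_inner_smul_right]
    rw [hxx, hww, hxw, real_inner_comm x₀ w, hxw]
    have := Real.sin_sq_add_cos_sq (φ t)
    linear_combination this
  have hγ'n : ∀ t, inner ℝ (γ' t) (γ' t) = (1 : ℝ) := by
    intro t
    simp only [hγ']
    rw [inner_add_left, inner_add_right, inner_add_right]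
    simp only [real_inner_smul_left, real_inner_smul_right]
    rw [hxx, hww, hxw, real_inner_comm x₀ w, hxw]
    have := Real.sin_sq_add_cos_sq (φ t)
    linear_combination this
  have hJγ : ∀ t, inner ℝ (J (γ t)) (γ' t) = D0 / π := by
    intro t
    simp only [hγ, hγ']
    rw [map_add, map_smul, map_smul, inner_add_left, inner_add_right, inner_add_right]
    simp only [real_inner_smul_left, real_inner_smul_right]
    have e1 : inner ℝ (J w) x₀ = -(D0 / π) := by
      rw [cx_skew hJ, real_inner_comm, hJxw]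
    rw [cx_self hJ x₀, cx_self hJ w, hJxw, e1]
    have := Real.sin_sq_add_cos_sq (φ t)
    linear_combination (D0 / π) * this
  set y : ℝ → E d := fun t => Real.cos (α t) • γ t + Real.sin (α t) • J (γ t) with hy
  set z : ℝ → E d := fun t => (u 0 t - D0 / D1 * u 1 t) • J (γ t) + (π / D1 * u 1 t) • γ' t with hz
  have hJcd : ∀ {f : ℝ → E d} {f' : E d} {t : ℝ}, HasDerivAt f f' t →
      HasDerivAt (fun t => J (f t)) (J f') t := by
    intro f f' t hf
    exact (J.toContinuousLinearMap.hasFDerivAt (x := f t)).comp_hasDerivAt t hf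
  have hyd : ∀ t, HasDerivAt y (Real.cos (α t) • z t + Real.sin (α t) • J (z t)) t := by
    intro t
    have e1 := ((hα' t).cos.smul (hγd t)).add ((hα' t).sin.smul (hJcd (hγd t)))
    refine e1.congr_deriv ?_
    have key : ∀ (a b : ℝ) (p q : E d), J (a • J p + b • q) = (-a) • p + b • J q := by
      intro a b p q
      rw [map_add, map_smul, map_smul, hJ]
      module
    simp only [hz]
    rw [key, map_smul]
    module
  have hγC : ContDiff ℝ 1 γ :=
    (hφC.cos.smul contDiff_const).add (hφC.sin.smul contDiff_const)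
  have hyC : ContDiff ℝ 1 y :=
    (hαC.cos.smul hγC).add (hαC.sin.smul (J.toContinuousLinearMap.contDiff.comp hγC))
  have hγnorm : ∀ t, ‖γ t‖ = 1 := by
    intro t
    have e1 := hγn t
    rw [real_inner_self_eq_norm_sq] at e1
    exact (sq_eq_sq₀ (norm_nonneg _) zero_le_one).1 (by rw [e1]; norm_num)
  have hrot : ∀ (θ : ℝ) (v w : E d), inner ℝ (Real.cos θ • v + Real.sin θ • J v)
      (Real.cos θ • w + Real.sin θ • J w) = (inner ℝ v w : ℝ) := by
    intro θ v w
    rw [inner_add_left, inner_add_right, inner_add_right]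
    simp only [real_inner_smul_left, real_inner_smul_right]
    rw [J.inner_map_map, cx_skew hJ v w]
    have := Real.sin_sq_add_cos_sq θ
    linear_combination (inner ℝ v w) * this
  refine ⟨y, hyC, ?_, ?_, ?_⟩
  · intro t
    rw [hy]
    show ‖Real.cos (α t) • γ t + Real.sin (α t) • J (γ t)‖ = 1
    rw [rot_isom hJ (Real.cos_sq_add_sin_sq _), hγnorm]
  · simp only [hy, hγ, hα0, hφ0, hαl, hφl]
    simp
  · have hJy : ∀ t, J (y t) = Real.cos (α t) • J (γ t) + Real.sin (α t) • J (J (γ t)) := by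
      intro t
      simp only [hy]
      rw [map_add, map_smul, map_smul]
    have hv : ∀ t, inner ℝ (J (y t)) (deriv y t) = u 0 t := by
      intro t
      rw [(hyd t).deriv, hJy, hrot]
      simp only [hz]
      rw [inner_add_right, real_inner_smul_right, real_inner_smul_right, J.inner_map_map, hγn,
        hJγ]
      field_simp
      ring
    have hn : ∀ t, ‖deriv y t‖ ^ 2 = u 0 t ^ 2 + u 1 t ^ 2 := by
      intro t
      rw [(hyd t).deriv, ← real_inner_self_eq_norm_sq, hrot]
      simp only [hz]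
      rw [inner_add_left, inner_add_right, inner_add_right]
      simp only [real_inner_smul_left, real_inner_smul_right]
      rw [J.inner_map_map, hγn, hγ'n, hJγ, real_inner_comm (J (γ t)) (γ' t), hJγ]
      field_simp
      linear_combination (u 1 t ^ 2) * (-hπ)
    intro j t
    fin_cases j
    · simp [qc, hv]
    · simp [qc, hv, hn]

end Pool.Agent.L7h48.HF
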