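import Pool.Agent.L7h48.HF.Cx

/-! # Hopf fillings: quaternionic structures -/

set_option autoImplicit false

open Real Set MeasureTheory Metric
open scoped ENNReal

namespace Pool.Agent.L7h48.HF

open Pool.Agent.Y499.HC Pool.Agent.Y499.HR Pool.Agent.Y502.HC

variable {d : ℕ}

/-- `I`, `J` are anticommuting complex structures of the Euclidean space: the right multiplications by
the quaternions `i` and `j`. -/
structure IsQt (I J : E d →ₗᵢ[ℝ] E d) : Prop where
  I2 : ∀ x, I (I x) = -x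
  J2 : ∀ x, J (J x) = -x
  IJ : ∀ x, I (J x) = -J (I x)

/-- A skew linear map with square `-1`. -/
structure Cs (A : E d →ₗ[ℝ] E d) : Prop where
  skew : ∀ x y, inner ℝ (A x) y = -(inner ℝ x (A y) : ℝ)
  sq : ∀ x, A (A x) = -x

lemma Cs.self {A : E d →ₗ[ℝ] E d} (hA : Cs A) (x : E d) : inner ℝ (A x) x = (0 : ℝ) := by
  have h := hA.skew x x
  rw [real_inner_comm] at h
  have h2 := real_inner_comm x (A x)
  linarith

lemma Cs.iso {A : E d →ₗ[ℝ] E d} (hA : Cs A) (x y : E d) :
    inner ℝ (A x) (A y) = (inner ℝ x y : ℝ) := by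
  rw [hA.skew, hA.sq, inner_neg_right, neg_neg]

lemma Cs.of {J : E d →ₗᵢ[ℝ] E d} (hJ : IsCx J) : Cs J.toLinearMap :=
  ⟨fun x y => cx_skew hJ x y, hJ⟩

lemma Cs.deriv {A : E d →ₗ[ℝ] E d} {f : ℝ → E d} {f' : E d} {t : ℝ} (hf : HasDerivAt f f' t) :
    HasDerivAt (fun t => A (f t)) (A f') t :=
  ((LinearMap.toContinuousLinearMap A).hasFDerivAt (x := f t)).comp_hasDerivAt t hf

/-- The rotation of a curve: the derivative. -/
lemma rotD {A : E d →ₗ[ℝ] E d} (hA : Cs A) {G : ℝ → E d} {G' : E d} {b : ℝ → ℝ} {b' t : ℝ}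
    (hG : HasDerivAt G G' t) (hb : HasDerivAt b b' t) :
    HasDerivAt (fun t => Real.cos (b t) • G t + Real.sin (b t) • A (G t))
      (Real.cos (b t) • (b' • A (G t) + G') + Real.sin (b t) • A (b' • A (G t) + G')) t := by
  have e1 := (hb.cos.smul hG).add (hb.sin.smul (Cs.deriv (A := A) hG))
  refine e1.congr_deriv ?_
  rw [map_add, map_smul, hA.sq]
  module

section rot

variable {A B : E d →ₗ[ℝ] E d} (hA : Cs A) (hB : Cs B) (hAB : ∀ x, A (B x) = -B (A x))
  {G G' : E d} (hG : inner ℝ G G = (1 : ℝ)) (b b' : ℝ)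

include hA in
lemma rot_inner (v w : E d) : inner ℝ (Real.cos b • v + Real.sin b • A v)
    (Real.cos b • w + Real.sin b • A w) = (inner ℝ v w : ℝ) := by
  rw [inner_add_left, inner_add_right, inner_add_right]
  simp only [real_inner_smul_left, real_inner_smul_right]
  rw [hA.iso, hA.skew v w]
  have := Real.sin_sq_add_cos_sq b
  linear_combination (inner ℝ v w) * this

include hA hG in
lemma rot1 : inner ℝ (A (Real.cos b • G + Real.sin b • A G))
    (Real.cos b • (b' • A G + G') + Real.sin b • A (b' • A G + G')) =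
    (b' + inner ℝ (A G) G' : ℝ) := by
  have h1 : A (Real.cos b • G + Real.sin b • A G) = Real.cos b • A G + Real.sin b • A (A G) := by
    rw [map_add, map_smul, map_smul]
  rw [h1, rot_inner hA, inner_add_right, real_inner_smul_right, hA.iso, hG, mul_one]

include hA hG in
lemma rot3 : inner ℝ (Real.cos b • (b' • A G + G') + Real.sin b • A (b' • A G + G'))
    (Real.cos b • (b' • A G + G') + Real.sin b • A (b' • A G + G')) =
    (b' ^ 2 + 2 * b' * inner ℝ (A G) G' + inner ℝ G' G' : ℝ) := by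
  rw [rot_inner hA, inner_add_left, inner_add_right, inner_add_right]
  simp only [real_inner_smul_left, real_inner_smul_right]
  rw [hA.iso, hG, real_inner_comm (A G) G']
  ring

include hA hB hAB in
lemma rot2 : inner ℝ (B (Real.cos b • G + Real.sin b • A G))
      (Real.cos b • (b' • A G + G') + Real.sin b • A (b' • A G + G')) ^ 2 +
    inner ℝ (B (A (Real.cos b • G + Real.sin b • A G)))
      (Real.cos b • (b' • A G + G') + Real.sin b • A (b' • A G + G')) ^ 2 =
    (inner ℝ (B G) G' ^ 2 + inner ℝ (B (A G)) G' ^ 2 : ℝ) := by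
  have hBA : ∀ x, B (A x) = -A (B x) := fun x => by rw [hAB, neg_neg]
  have h1 : B (Real.cos b • G + Real.sin b • A G) =
      Real.cos b • B G + Real.sin b • B (A G) := by rw [map_add, map_smul, map_smul]
  have h2 : B (A (Real.cos b • G + Real.sin b • A G)) =
      Real.cos b • B (A G) - Real.sin b • B G := by
    rw [map_add, map_smul, map_smul, hA.sq, map_add, map_smul, map_smul, map_neg]
    module
  set V := b' • A G + G' with hV
  have e1 : inner ℝ (B G) (A V) = (inner ℝ (B (A G)) V : ℝ) := by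
    have := hA.skew (B G) V
    rw [hAB, inner_neg_left] at this
    linarith
  have e2 : inner ℝ (B (A G)) (A V) = (-inner ℝ (B G) V : ℝ) := by
    have := hA.skew (B (A G)) V
    rw [hAB, hA.sq, map_neg, neg_neg] at this
    linarith
  have e3 : inner ℝ (B G) (A G) = (0 : ℝ) := by
    have h3 := hA.skew (B G) G
    rw [hAB, inner_neg_left] at h3
    have h4 := hB.skew (A G) G
    rw [real_inner_comm (A G) (B G)] at h3
    rw [real_inner_comm (A G) (B G)]
    linarith
  have e4 : inner ℝ (B (A G)) (A G) = (0 : ℝ) := hB.self (A G)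
  have e5 : inner ℝ (B G) V = (inner ℝ (B G) G' : ℝ) := by
    rw [hV, inner_add_right, real_inner_smul_right, e3]
    ring
  have e6 : inner ℝ (B (A G)) V = (inner ℝ (B (A G)) G' : ℝ) := by
    rw [hV, inner_add_right, real_inner_smul_right, e4]
    ring
  have f1 : inner ℝ (Real.cos b • B G + Real.sin b • B (A G))
      (Real.cos b • V + Real.sin b • A V) =
      ((Real.cos b ^ 2 - Real.sin b ^ 2) * inner ℝ (B G) G' +
        2 * Real.sin b * Real.cos b * inner ℝ (B (A G)) G' : ℝ) := by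
    rw [inner_add_left, inner_add_right, inner_add_right]
    simp only [real_inner_smul_left, real_inner_smul_right]
    rw [e1, e2, e5, e6]
    ring
  have f2 : inner ℝ (Real.cos b • B (A G) - Real.sin b • B G)
      (Real.cos b • V + Real.sin b • A V) =
      ((Real.cos b ^ 2 - Real.sin b ^ 2) * inner ℝ (B (A G)) G' -
        2 * Real.sin b * Real.cos b * inner ℝ (B G) G' : ℝ) := by
    rw [inner_sub_left, inner_add_right, inner_add_right]
    simp only [real_inner_smul_left, real_inner_smul_right]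
    rw [e1, e2, e5, e6]
    ring
  rw [h1, h2, f1, f2]
  have h5 := Real.sin_sq_add_cos_sq b
  have h6 : (Real.cos b ^ 2 - Real.sin b ^ 2) ^ 2 + (2 * Real.sin b * Real.cos b) ^ 2 = 1 := by
    have : (Real.cos b ^ 2 - Real.sin b ^ 2) ^ 2 + (2 * Real.sin b * Real.cos b) ^ 2 =
      (Real.sin b ^ 2 + Real.cos b ^ 2) ^ 2 := by ring
    rw [this, h5, one_pow]
  linear_combination (inner ℝ (B G) G' ^ 2 + inner ℝ (B (A G)) G' ^ 2) * h6

end rot

/-- The squares of the three parts of the tangent vector `v` at `x`. -/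
noncomputable def qq (I J : E d →ₗᵢ[ℝ] E d) (j : Fin 3) (x v : E d) : ℝ :=
  if j = 0 then inner ℝ (I x) v ^ 2 else
    if j = 1 then inner ℝ (J x) v ^ 2 + inner ℝ (J (I x)) v ^ 2 else
      ‖v‖ ^ 2 - inner ℝ (I x) v ^ 2 - (inner ℝ (J x) v ^ 2 + inner ℝ (J (I x)) v ^ 2)

lemma qq_inv (I J : E d →ₗᵢ[ℝ] E d) (g : O d)
    (hg : g ∈ Ce ({(I : E d → E d), (J : E d → E d)} : Set (E d → E d)))
    (j : Fin 3) (x v : E d) : qq I J j (act g x) (act g v) = qq I J j x v := by
  have h1 : ∀ x, I (act g x) = act g (I x) := fun x => ((mem_Ce.1 hg) _ (by simp) x).symm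
  have h2 : ∀ x, J (act g x) = act g (J x) := fun x => ((mem_Ce.1 hg) _ (by simp) x).symm
  unfold qq
  simp only [h1, h2, LinearIsometryEquiv.inner_map_map, LinearIsometryEquiv.norm_map]

/-- A unit vector orthogonal to the vectors of a small finite set. -/
lemma exists_orth (s : Finset (E d)) (hs : s.card ≤ d) :
    ∃ h : E d, ‖h‖ = 1 ∧ ∀ x ∈ s, inner ℝ x h = (0 : ℝ) := by
  classical
  set K : Submodule ℝ (E d) := Submodule.span ℝ (s : Set (E d)) with hK
  have hf : Module.finrank ℝ K ≤ s.card := finrank_span_finset_le_card _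
  have hE : Module.finrank ℝ (E d) = d + 1 := by simp
  have hadd := K.finrank_add_finrank_orthogonal
  have hpos : 0 < Module.finrank ℝ Kᗮ := by omega
  have : Nontrivial Kᗮ := Module.nontrivial_of_finrank_pos hpos
  obtain ⟨⟨w, hw⟩, hw0⟩ := exists_ne (0 : Kᗮ)
  have hw1 : w ≠ 0 := by
    intro h
    exact hw0 (Subtype.ext h)
  have hwn : ‖w‖ ≠ 0 := norm_ne_zero_iff.2 hw1
  refine ⟨‖w‖⁻¹ • w, ?_, fun x hx => ?_⟩
  · rw [norm_smul, norm_inv, norm_norm, inv_mul_cancel₀ hwn]
  · rw [real_inner_smul_right, hw x (Submodule.subset_span hx), mul_zero]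

lemma great {A : E d →ₗ[ℝ] E d} (hA : ∀ x, inner ℝ (A x) x = (0 : ℝ)) (x w : E d) (t : ℝ)
    (hxw : inner ℝ (A w) x = (-inner ℝ (A x) w : ℝ)) :
    inner ℝ (A (Real.cos t • x + Real.sin t • w)) ((-Real.sin t) • x + Real.cos t • w) =
      (inner ℝ (A x) w : ℝ) := by
  rw [map_add, map_smul, map_smul, inner_add_left, inner_add_right, inner_add_right]
  simp only [real_inner_smul_left, real_inner_smul_right]
  rw [hA x, hA w, hxw]
  have := Real.sin_sq_add_cos_sq t
  linear_combination (inner ℝ (A x) w) * this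

theorem qt_curves (hd : 4 ≤ d) {I J : E d →ₗᵢ[ℝ] E d} (h : IsQt I J) : Curves (qq I J) := by
  classical
  intro l u hl hu hpos hπ
  have hI : Cs I.toLinearMap := Cs.of h.I2
  have hJ : Cs J.toLinearMap := Cs.of h.J2
  set D0 := ∫ t in (0 : ℝ)..l, u 0 t with hD0
  set D1 := ∫ t in (0 : ℝ)..l, u 1 t with hD1
  set D2 := ∫ t in (0 : ℝ)..l, u 2 t with hD2
  rw [Fin.sum_univ_three] at hπ
  have h1 : 0 < D1 := hpos 1
  have h2 : 0 < D2 := hpos 2
  have hπ0 : π ≠ 0 := pi_pos.ne'
  have hDp : 0 < D0 ^ 2 + D1 ^ 2 := by positivity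
  set D := √(D0 ^ 2 + D1 ^ 2) with hD
  have hDpos : 0 < D := Real.sqrt_pos.2 hDp
  have hDsq : D ^ 2 = D0 ^ 2 + D1 ^ 2 := Real.sq_sqrt hDp.le
  set c := D0 / D with hc
  set s := D1 / D with hs
  have hcs : c ^ 2 + s ^ 2 = 1 := by
    rw [hc, hs, div_pow, div_pow, ← add_div, ← hDsq, div_self (pow_pos hDpos 2).ne']
  have hs0 : 0 < s := div_pos h1 hDpos
  -- the structures `Z`, `Z'`
  set Z : E d →ₗ[ℝ] E d := c • I.toLinearMap + s • J.toLinearMap with hZ
  set Z' : E d →ₗ[ℝ] E d := (-s) • I.toLinearMap + c • J.toLinearMap with hZ'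
  have hZa : ∀ x, Z x = c • I x + s • J x := fun x => rfl
  have hZ'a : ∀ x, Z' x = (-s) • I x + c • J x := fun x => rfl
  have hIa : ∀ x, I x = c • Z x - s • Z' x := by
    intro x
    rw [hZa, hZ'a]
    have : c • (c • I x + s • J x) - s • ((-s) • I x + c • J x) = (c ^ 2 + s ^ 2) • I x := by
      module
    rw [this, hcs, one_smul]
  have hJa : ∀ x, J x = s • Z x + c • Z' x := by
    intro x
    rw [hZa, hZ'a]
    have : s • (c • I x + s • J x) + c • ((-s) • I x + c • J x) = (c ^ 2 + s ^ 2) • J x := by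
      module
    rw [this, hcs, one_smul]
  have hIlin : ∀ (a b : ℝ) (p q : E d), I (a • p + b • q) = a • I p + b • I q := by
    intro a b p q
    rw [map_add, map_smul, map_smul]
  have hJlin : ∀ (a b : ℝ) (p q : E d), J (a • p + b • q) = a • J p + b • J q := by
    intro a b p q
    rw [map_add, map_smul, map_smul]
  have hZc : Cs Z := by
    refine ⟨fun x y => ?_, fun x => ?_⟩
    · rw [hZa, hZa, inner_add_left, inner_add_right]
      simp only [real_inner_smul_left, real_inner_smul_right]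
      have e1 := hI.skew x y
      have e2 := hJ.skew x y
      simp only [LinearIsometry.coe_toLinearMap] at e1 e2
      rw [e1, e2]
      ring
    · rw [hZa, hZa, hIlin, hJlin, h.I2, h.J2, h.IJ]
      have : c • (c • -x + s • -J (I x)) + s • (c • J (I x) + s • -x) =
        -((c ^ 2 + s ^ 2) • x) := by module
      rw [this, hcs, one_smul]
  have hZ'c : Cs Z' := by
    refine ⟨fun x y => ?_, fun x => ?_⟩
    · rw [hZ'a, hZ'a, inner_add_left, inner_add_right]
      simp only [real_inner_smul_left, real_inner_smul_right]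
      have e1 := hI.skew x y
      have e2 := hJ.skew x y
      simp only [LinearIsometry.coe_toLinearMap] at e1 e2
      rw [e1, e2]
      ring
    · rw [hZ'a, hZ'a, hIlin, hJlin, h.I2, h.J2, h.IJ]
      have : (-s) • ((-s) • -x + c • -J (I x)) + c • ((-s) • J (I x) + c • -x) =
        -((c ^ 2 + s ^ 2) • x) := by module
      rw [this, hcs, one_smul]
  have hZZ' : ∀ x, Z (Z' x) = -Z' (Z x) := by
    intro x
    rw [hZa, hZ'a, hZ'a, hZa]
    simp only [hIlin, hJlin, h.I2, h.J2, h.IJ]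
    module
  have hK : ∀ x, J (I x) = Z' (Z x) := by
    intro x
    rw [hZ'a, hZa]
    simp only [hIlin, hJlin, h.I2, h.J2, h.IJ]
    have : (-s) • (c • -x + s • -J (I x)) + c • (c • J (I x) + s • -x) =
      (c ^ 2 + s ^ 2) • J (I x) := by module
    rw [this, hcs, one_smul]
  -- the great circle
  set x₀ : E d := EuclideanSpace.single 0 1 with hx₀
  have hx0n : ‖x₀‖ = 1 := by simp [hx₀]
  have hxx : inner ℝ x₀ x₀ = (1 : ℝ) := by rw [real_inner_self_eq_norm_sq, hx0n, one_pow]
  obtain ⟨h₀, hh, hort⟩ := exists_orth ({x₀, I x₀, J x₀, J (I x₀)} : Finset (E d))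
    ((Finset.card_le_four).trans hd)
  have hxh : inner ℝ x₀ h₀ = (0 : ℝ) := hort _ (by simp)
  have hIh : inner ℝ (I x₀) h₀ = (0 : ℝ) := hort _ (by simp)
  have hJh : inner ℝ (J x₀) h₀ = (0 : ℝ) := hort _ (by simp)
  have hKh : inner ℝ (J (I x₀)) h₀ = (0 : ℝ) := hort _ (by simp)
  have hZh : inner ℝ (Z x₀) h₀ = (0 : ℝ) := by
    rw [hZa, inner_add_left, real_inner_smul_left, real_inner_smul_left, hIh, hJh]
    ring
  have hZ'h : inner ℝ (Z' x₀) h₀ = (0 : ℝ) := by
    rw [hZ'a, inner_add_left, real_inner_smul_left, real_inner_smul_left, hIh, hJh]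
    ring
  have hZZh : inner ℝ (Z' (Z x₀)) h₀ = (0 : ℝ) := by rw [← hK]; exact hKh
  have hhh : inner ℝ h₀ h₀ = (1 : ℝ) := by rw [real_inner_self_eq_norm_sq, hh, one_pow]
  set ρ := D / π with hρ
  have hρD : ρ ^ 2 + (D2 / π) ^ 2 = 1 := by
    rw [hρ, div_pow, div_pow, ← add_div, hDsq, hπ]
    field_simp
  set w : E d := ρ • Z x₀ + (D2 / π) • h₀ with hw
  have hxw : inner ℝ x₀ w = (0 : ℝ) := by
    rw [hw, inner_add_right, real_inner_smul_right, real_inner_smul_right, hxh,
      real_inner_comm, hZc.self]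
    ring
  have hww : inner ℝ w w = (1 : ℝ) := by
    rw [hw, inner_add_left, inner_add_right, inner_add_right]
    simp only [real_inner_smul_left, real_inner_smul_right]
    rw [hZc.iso, hxx, hZh, real_inner_comm (Z x₀) h₀, hZh, hhh]
    linear_combination hρD
  have hZw : inner ℝ (Z x₀) w = ρ := by
    rw [hw, inner_add_right, real_inner_smul_right, real_inner_smul_right, hZc.iso, hxx, hZh]
    ring
  have hZ'w : inner ℝ (Z' x₀) w = (0 : ℝ) := by
    have e3 : inner ℝ (Z' x₀) (Z x₀) = (0 : ℝ) := by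
      have h3 := hZc.skew (Z' x₀) x₀
      rw [hZZ', inner_neg_left] at h3
      have h4 := hZ'c.skew (Z x₀) x₀
      rw [real_inner_comm (Z x₀) (Z' x₀)] at h3
      rw [real_inner_comm (Z x₀) (Z' x₀)]
      linarith
    rw [hw, inner_add_right, real_inner_smul_right, real_inner_smul_right, e3, hZ'h]
    ring
  have hZZw : inner ℝ (Z' (Z x₀)) w = (0 : ℝ) := by
    rw [hw, inner_add_right, real_inner_smul_right, real_inner_smul_right, hZ'c.self, hZZh]
    ring
  set φ : ℝ → ℝ := fun t => π / D2 * ∫ x in (0 : ℝ)..t, u 2 x with hφ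
  set α : ℝ → ℝ := fun t => ∫ x in (0 : ℝ)..t, (1 / s * u 1 x - ρ * (π / D2) * u 2 x) with hα
  set β : ℝ → ℝ := fun t => ∫ x in (0 : ℝ)..t, (u 0 x - c / s * u 1 x) with hβ
  have c1 : Continuous fun x => 1 / s * u 1 x := continuous_const.mul (hu 1)
  have c2 : Continuous fun x => ρ * (π / D2) * u 2 x := continuous_const.mul (hu 2)
  have c3 : Continuous fun x => c / s * u 1 x := continuous_const.mul (hu 1)
  have hαc : Continuous fun x => 1 / s * u 1 x - ρ * (π / D2) * u 2 x := c1.sub c2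
  have hβc : Continuous fun x => u 0 x - c / s * u 1 x := (hu 0).sub c3
  have hφ' : ∀ t, HasDerivAt φ (π / D2 * u 2 t) t := fun t => (prim (hu 2) t).const_mul _
  have hα' : ∀ t, HasDerivAt α (1 / s * u 1 t - ρ * (π / D2) * u 2 t) t := fun t => prim hαc t
  have hβ' : ∀ t, HasDerivAt β (u 0 t - c / s * u 1 t) t := fun t => prim hβc t
  have hC1 : ∀ {f f' : ℝ → ℝ}, (∀ t, HasDerivAt f (f' t) t) → Continuous f' → ContDiff ℝ 1 f := by
    intro f f' hf hf'
    rw [contDiff_one_iff_deriv]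
    exact ⟨fun t => (hf t).differentiableAt, by
      rw [show deriv f = f' from funext fun t => (hf t).deriv]
      exact hf'⟩
  have hφC : ContDiff ℝ 1 φ := hC1 hφ' (continuous_const.mul (hu 2))
  have hαC : ContDiff ℝ 1 α := hC1 hα' hαc
  have hβC : ContDiff ℝ 1 β := hC1 hβ' hβc
  have hφ0 : φ 0 = 0 := by simp [hφ]
  have hα0 : α 0 = 0 := by simp [hα]
  have hβ0 : β 0 = 0 := by simp [hβ]
  have hφl : φ l = π := by
    simp only [hφ]
    rw [← hD2]
    field_simp
  have hαl : α l = 0 := by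
    simp only [hα]
    rw [intervalIntegral.integral_sub (c1.intervalIntegrable _ _) (c2.intervalIntegrable _ _),
      intervalIntegral.integral_const_mul, intervalIntegral.integral_const_mul, ← hD1, ← hD2,
      hρ, hs]
    field_simp
    ring
  have hβl : β l = 0 := by
    simp only [hβ]
    rw [intervalIntegral.integral_sub ((hu 0).intervalIntegrable _ _)
      (c3.intervalIntegrable _ _), intervalIntegral.integral_const_mul, ← hD0, ← hD1, hc, hs]
    field_simp
    ring
  set γ : ℝ → E d := fun t => Real.cos (φ t) • x₀ + Real.sin (φ t) • w with hγ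
  set g : ℝ → E d := fun t => (-Real.sin (φ t)) • x₀ + Real.cos (φ t) • w with hg
  have hγd : ∀ t, HasDerivAt γ ((π / D2 * u 2 t) • g t) t := by
    intro t
    have e1 := ((hφ' t).cos.smul_const x₀).add ((hφ' t).sin.smul_const w)
    refine e1.congr_deriv ?_
    simp only [hg]
    module
  have hγn : ∀ t, inner ℝ (γ t) (γ t) = (1 : ℝ) := by
    intro t
    simp only [hγ]
    rw [inner_add_left, inner_add_right, inner_add_right]
    simp only [real_inner_smul_left, real_inner_smul_right]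
    rw [hxx, hww, hxw, real_inner_comm x₀ w, hxw]
    have := Real.sin_sq_add_cos_sq (φ t)
    linear_combination this
  have hgn : ∀ t, inner ℝ (g t) (g t) = (1 : ℝ) := by
    intro t
    simp only [hg]
    rw [inner_add_left, inner_add_right, inner_add_right]
    simp only [real_inner_smul_left, real_inner_smul_right]
    rw [hxx, hww, hxw, real_inner_comm x₀ w, hxw]
    have := Real.sin_sq_add_cos_sq (φ t)
    linear_combination this
  have k1 : ∀ t, inner ℝ (Z (γ t)) (g t) = ρ := by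
    intro t
    have := great (A := Z) hZc.self x₀ w (φ t) (by rw [hZc.skew, real_inner_comm])
    simp only [hγ, hg]
    rw [this, hZw]
  have k2 : ∀ t, inner ℝ (Z' (γ t)) (g t) = (0 : ℝ) := by
    intro t
    have := great (A := Z') hZ'c.self x₀ w (φ t) (by rw [hZ'c.skew, real_inner_comm])
    simp only [hγ, hg]
    rw [this, hZ'w]
  have hsk : ∀ x y, inner ℝ ((Z' ∘ₗ Z) x) y = (-inner ℝ x ((Z' ∘ₗ Z) y) : ℝ) := by
    intro x y
    show inner ℝ (Z' (Z x)) y = (-inner ℝ x (Z' (Z y)) : ℝ)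
    rw [hZ'c.skew, hZc.skew, hZZ', inner_neg_right]
    ring
  have k3 : ∀ t, inner ℝ (Z' (Z (γ t))) (g t) = (0 : ℝ) := by
    intro t
    have := great (A := Z' ∘ₗ Z) (fun x => by
      have e1 := hsk x x
      rw [real_inner_comm] at e1
      have e2 := real_inner_comm x ((Z' ∘ₗ Z) x)
      linarith) x₀ w (φ t) (by rw [hsk, real_inner_comm])
    simp only [hγ, hg]
    simp only [LinearMap.comp_apply] at this
    rw [this, hZZw]
  -- the first rotation
  set y1 : ℝ → E d := fun t => Real.cos (α t) • γ t + Real.sin (α t) • Z (γ t) with hy1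
  set G' : ℝ → E d := fun t => (π / D2 * u 2 t) • g t with hG'
  set a' : ℝ → ℝ := fun t => 1 / s * u 1 t - ρ * (π / D2) * u 2 t with ha'
  set dy1 : ℝ → E d := fun t => Real.cos (α t) • (a' t • Z (γ t) + G' t) +
    Real.sin (α t) • Z (a' t • Z (γ t) + G' t) with hdy1
  have hy1d : ∀ t, HasDerivAt y1 (dy1 t) t := fun t => rotD hZc (hγd t) (hα' t)
  have kG1 : ∀ t, inner ℝ (Z (γ t)) (G' t) = ρ * (π / D2 * u 2 t) := by
    intro t
    simp only [hG']
    rw [real_inner_smul_right, k1]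
    ring
  have kG2 : ∀ t, inner ℝ (Z' (γ t)) (G' t) = (0 : ℝ) := by
    intro t
    simp only [hG']
    rw [real_inner_smul_right, k2, mul_zero]
  have kG3 : ∀ t, inner ℝ (Z' (Z (γ t))) (G' t) = (0 : ℝ) := by
    intro t
    simp only [hG']
    rw [real_inner_smul_right, k3, mul_zero]
  have kG4 : ∀ t, inner ℝ (G' t) (G' t) = (π / D2 * u 2 t) ^ 2 := by
    intro t
    simp only [hG']
    rw [real_inner_smul_right, real_inner_smul_left, hgn]
    ring
  have m0 : ∀ t, inner ℝ (y1 t) (y1 t) = (1 : ℝ) := by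
    intro t
    simp only [hy1]
    rw [rot_inner hZc, hγn]
  have m1 : ∀ t, inner ℝ (Z (y1 t)) (dy1 t) = u 1 t / s := by
    intro t
    have := rot1 hZc (hγn t) (G' := G' t) (α t) (a' t)
    simp only [hy1, hdy1]
    rw [this, kG1]
    simp only [ha']
    ring
  have m2 : ∀ t, inner ℝ (Z' (y1 t)) (dy1 t) = (0 : ℝ) ∧
      inner ℝ (Z' (Z (y1 t))) (dy1 t) = (0 : ℝ) := by
    intro t
    have := rot2 hZc hZ'c hZZ' (G := γ t) (G' := G' t) (α t) (a' t)
    rw [kG2, kG3] at this
    have e : inner ℝ (Z' (y1 t)) (dy1 t) ^ 2 + inner ℝ (Z' (Z (y1 t))) (dy1 t) ^ 2 = (0 : ℝ) := by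
      simp only [hy1, hdy1]
      rw [this]
      ring
    constructor
    · have := sq_nonneg (inner ℝ (Z' (y1 t)) (dy1 t) : ℝ)
      have := sq_nonneg (inner ℝ (Z' (Z (y1 t))) (dy1 t) : ℝ)
      exact pow_eq_zero_iff (two_ne_zero) |>.1 (by linarith)
    · have := sq_nonneg (inner ℝ (Z' (y1 t)) (dy1 t) : ℝ)
      have := sq_nonneg (inner ℝ (Z' (Z (y1 t))) (dy1 t) : ℝ)
      exact pow_eq_zero_iff (two_ne_zero) |>.1 (by linarith)
  have m3 : ∀ t, inner ℝ (dy1 t) (dy1 t) =
      a' t ^ 2 + 2 * a' t * (ρ * (π / D2 * u 2 t)) + (π / D2 * u 2 t) ^ 2 := by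
    intro t
    have := rot3 hZc (hγn t) (G' := G' t) (α t) (a' t)
    simp only [hdy1]
    rw [this, kG1, kG4]
  have n1 : ∀ t, inner ℝ (I (y1 t)) (dy1 t) = c * (u 1 t / s) := by
    intro t
    rw [hIa, inner_sub_left, real_inner_smul_left, real_inner_smul_left, m1, (m2 t).1]
    ring
  have n2 : ∀ t, inner ℝ (J (y1 t)) (dy1 t) = u 1 t := by
    intro t
    rw [hJa, inner_add_left, real_inner_smul_left, real_inner_smul_left, m1, (m2 t).1]
    field_simp
    ring
  have n3 : ∀ t, inner ℝ (J (I (y1 t))) (dy1 t) = (0 : ℝ) := by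
    intro t
    rw [hK]
    exact (m2 t).2
  -- the second rotation
  set b' : ℝ → ℝ := fun t => u 0 t - c / s * u 1 t with hb'
  set y : ℝ → E d := fun t => Real.cos (β t) • y1 t + Real.sin (β t) • I (y1 t) with hy
  set dy : ℝ → E d := fun t => Real.cos (β t) • (b' t • I (y1 t) + dy1 t) +
    Real.sin (β t) • I (b' t • I (y1 t) + dy1 t) with hdy
  have hyd : ∀ t, HasDerivAt y (dy t) t := fun t => rotD hI (hy1d t) (hβ' t)
  have hγC : ContDiff ℝ 1 γ := (hφC.cos.smul contDiff_const).add (hφC.sin.smul contDiff_const)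
  have hy1C : ContDiff ℝ 1 y1 :=
    (hαC.cos.smul hγC).add (hαC.sin.smul ((LinearMap.toContinuousLinearMap Z).contDiff.comp hγC))
  have hyC : ContDiff ℝ 1 y :=
    (hβC.cos.smul hy1C).add (hβC.sin.smul (I.toContinuousLinearMap.contDiff.comp hy1C))
  refine ⟨y, hyC, ?_, ?_, ?_⟩
  · intro t
    have e1 : inner ℝ (y t) (y t) = (1 : ℝ) := by
      have := rot_inner hI (β t) (y1 t) (y1 t)
      simp only [hy]
      simp only [LinearIsometry.coe_toLinearMap] at this
      rw [this, m0]
    rw [real_inner_self_eq_norm_sq] at e1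
    exact (sq_eq_sq₀ (norm_nonneg _) zero_le_one).1 (by rw [e1]; norm_num)
  · simp only [hy, hy1, hγ, hα0, hφ0, hαl, hφl, hβ0, hβl]
    simp
  · have r1 : ∀ t, inner ℝ (I (y t)) (dy t) = u 0 t := by
      intro t
      have := rot1 hI (m0 t) (G' := dy1 t) (β t) (b' t)
      simp only [LinearIsometry.coe_toLinearMap] at this
      simp only [hy, hdy]
      rw [this, n1]
      simp only [hb']
      field_simp
      ring
    have r2 : ∀ t, inner ℝ (J (y t)) (dy t) ^ 2 + inner ℝ (J (I (y t))) (dy t) ^ 2 =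
        u 1 t ^ 2 := by
      intro t
      have := rot2 hI hJ h.IJ (G := y1 t) (G' := dy1 t) (β t) (b' t)
      simp only [LinearIsometry.coe_toLinearMap] at this
      simp only [hy, hdy]
      rw [this, n2, n3]
      ring
    have r3 : ∀ t, ‖dy t‖ ^ 2 = u 0 t ^ 2 + u 1 t ^ 2 + u 2 t ^ 2 := by
      intro t
      have := rot3 hI (m0 t) (G' := dy1 t) (β t) (b' t)
      simp only [LinearIsometry.coe_toLinearMap] at this
      rw [← real_inner_self_eq_norm_sq]
      simp only [hdy]
      rw [this, n1, m3]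
      simp only [hb', ha']
      have e1 : (1 - ρ ^ 2) * (π / D2) ^ 2 = 1 := by
        have : 1 - ρ ^ 2 = (D2 / π) ^ 2 := by linarith
        rw [this]
        field_simp
      have e2 : 1 / s ^ 2 * (1 - c ^ 2) = 1 := by
        have : 1 - c ^ 2 = s ^ 2 := by linarith
        rw [this]
        field_simp
      have e3 : (u 0 t - c / s * u 1 t) ^ 2 + 2 * (u 0 t - c / s * u 1 t) * (c * (u 1 t / s)) +
          ((1 / s * u 1 t - ρ * (π / D2) * u 2 t) ^ 2 +
          2 * (1 / s * u 1 t - ρ * (π / D2) * u 2 t) * (ρ * (π / D2 * u 2 t)) +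
          (π / D2 * u 2 t) ^ 2) = u 0 t ^ 2 + (1 / s ^ 2 * (1 - c ^ 2)) * u 1 t ^ 2 +
          ((1 - ρ ^ 2) * (π / D2) ^ 2) * u 2 t ^ 2 := by
        field_simp
        ring
      rw [e3, e1, e2]
      ring
    intro j t
    rw [(hyd t).deriv]
    fin_cases j
    · simp [qq, r1]
    · simp [qq, r2]
    · simp only [qq]
      simp only [Fin.reduceFinMk, Fin.reduceEq, if_false]
      rw [r2, r1, r3]
      ring

/-- The quaternionic reflection which maps `x` to `z` if the quaternionic product of the unit vectors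
`x`, `z` is real. -/
lemma qrefl_ex {I J : E d →ₗᵢ[ℝ] E d} (h : IsQt I J) {x y : E d} (hx : ‖x‖ = 1) (hy : ‖y‖ = 1)
    (h1 : inner ℝ (I x) y = (0 : ℝ)) (h2 : inner ℝ (J x) y = (0 : ℝ))
    (h3 : inner ℝ (J (I x)) y = (0 : ℝ)) :
    ∃ L : E d ≃ₗᵢ[ℝ] E d, (∀ v, L (I v) = I (L v)) ∧ (∀ v, L (J v) = J (L v)) ∧ L x = y := by
  by_cases he : x = y
  · exact ⟨LinearIsometryEquiv.refl ℝ (E d), fun v => rfl, fun v => rfl, he⟩
  have hne : x - y ≠ 0 := sub_ne_zero.2 he
  have hn : 0 < ‖x - y‖ ^ 2 := by positivity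
  have sI : ∀ v w, inner ℝ (I v) w = (-inner ℝ v (I w) : ℝ) := cx_skew h.I2
  have sJ : ∀ v w, inner ℝ (J v) w = (-inner ℝ v (J w) : ℝ) := cx_skew h.J2
  have selfI : ∀ v, inner ℝ (I v) v = (0 : ℝ) := cx_self h.I2
  have selfJ : ∀ v, inner ℝ (J v) v = (0 : ℝ) := cx_self h.J2
  have hIJ : ∀ v, I (J v) = -J (I v) := h.IJ
  have hIm : ∀ v, I (-v) = -I v := fun v => map_neg I v
  have hJm : ∀ v, J (-v) = -J v := fun v => map_neg J v
  have sK : ∀ v w, inner ℝ (J (I v)) w = (-inner ℝ v (J (I w)) : ℝ) := by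
    intro v w
    rw [sJ, sI, hIJ, inner_neg_right]
    ring
  have selfK : ∀ v, inner ℝ (J (I v)) v = (0 : ℝ) := by
    intro v
    have e1 := sK v v
    rw [real_inner_comm] at e1
    have e2 := real_inner_comm v (J (I v))
    linarith
  set z : E d := x - y with hz
  set k : ℝ := 2 / ‖z‖ ^ 2 with hk
  have hkn : k * ‖z‖ ^ 2 = 2 := by
    rw [hk]
    field_simp
  set F : E d →ₗ[ℝ] E d :=
    { toFun := fun v => v - (k * inner ℝ z v) • z - (k * inner ℝ (I z) v) • I z -
        (k * inner ℝ (J z) v) • J z - (k * inner ℝ (J (I z)) v) • J (I z)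
      map_add' := by
        intro v w
        simp only [inner_add_right, mul_add, add_smul]
        abel
      map_smul' := by
        intro a v
        simp only [real_inner_smul_right, RingHom.id_apply]
        module } with hF
  have hFa : ∀ v, F v = v - (k * inner ℝ z v) • z - (k * inner ℝ (I z) v) • I z -
        (k * inner ℝ (J z) v) • J z - (k * inner ℝ (J (I z)) v) • J (I z) := fun v => rfl
  -- the products of the four vectors
  have n0 : inner ℝ z z = ‖z‖ ^ 2 := real_inner_self_eq_norm_sq z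
  have nI : inner ℝ (I z) (I z) = ‖z‖ ^ 2 := by rw [I.inner_map_map, n0]
  have nJ : inner ℝ (J z) (J z) = ‖z‖ ^ 2 := by rw [J.inner_map_map, n0]
  have nK : inner ℝ (J (I z)) (J (I z)) = ‖z‖ ^ 2 := by rw [J.inner_map_map, nI]
  have p1 : inner ℝ (I z) z = (0 : ℝ) := selfI z
  have p2 : inner ℝ (J z) z = (0 : ℝ) := selfJ z
  have p3 : inner ℝ (J (I z)) z = (0 : ℝ) := selfK z
  have p4 : inner ℝ (J z) (I z) = (0 : ℝ) := by
    have := sI z (J z)
    rw [hIJ, inner_neg_right, real_inner_comm (J (I z)) z, p3] at this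
    rw [real_inner_comm]
    linarith
  have p5 : inner ℝ (J (I z)) (I z) = (0 : ℝ) := selfJ (I z)
  have p6 : inner ℝ (J (I z)) (J z) = (0 : ℝ) := by rw [J.inner_map_map, p1]
  have hiso : ∀ v, ‖F v‖ = ‖v‖ := by
    intro v
    have e1 : ‖F v‖ ^ 2 = ‖v‖ ^ 2 := by
      rw [hFa, ← real_inner_self_eq_norm_sq, ← real_inner_self_eq_norm_sq v]
      simp only [inner_sub_left, inner_sub_right, real_inner_smul_left, real_inner_smul_right]
      rw [n0, nI, nJ, nK, real_inner_comm (I z) z, real_inner_comm (J z) z,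
        real_inner_comm (J (I z)) z, real_inner_comm (J z) (I z), real_inner_comm (J (I z)) (I z),
        real_inner_comm (J (I z)) (J z), p1, p2, p3, p4, p5, p6, real_inner_comm z v,
        real_inner_comm (I z) v, real_inner_comm (J z) v, real_inner_comm (J (I z)) v]
      linear_combination (k * inner ℝ z v ^ 2 + k * inner ℝ (I z) v ^ 2 +
        k * inner ℝ (J z) v ^ 2 + k * inner ℝ (J (I z)) v ^ 2) * hkn
    exact (sq_eq_sq₀ (norm_nonneg _) (norm_nonneg _)).1 e1
  obtain ⟨L, hL⟩ := isom_of hiso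
  refine ⟨L, fun v => ?_, fun v => ?_, ?_⟩
  · rw [hL, hL, hFa, hFa]
    have key : ∀ (v p q r s : E d) (a b c e : ℝ), I (v - a • p - b • q - c • r - e • s) =
        I v - a • I p - b • I q - c • I r - e • I s := by
      intro v p q r s a b c e
      simp only [map_sub, map_smul]
    have e1 : inner ℝ z (I v) = (-inner ℝ (I z) v : ℝ) := by rw [sI, neg_neg]
    have e2 : inner ℝ (I z) (I v) = (inner ℝ z v : ℝ) := I.inner_map_map z v
    have e3 : inner ℝ (J z) (I v) = (inner ℝ (J (I z)) v : ℝ) := by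
      have := sI (J z) v
      rw [hIJ, inner_neg_left] at this
      linarith
    have e4 : inner ℝ (J (I z)) (I v) = (-inner ℝ (J z) v : ℝ) := by
      have := sI (J (I z)) v
      rw [hIJ, h.I2, hJm, neg_neg] at this
      linarith
    rw [key, e1, e2, e3, e4, h.I2, hIJ z, hIJ (I z), h.I2, hJm]
    module
  · rw [hL, hL, hFa, hFa]
    have key : ∀ (v p q r s : E d) (a b c e : ℝ), J (v - a • p - b • q - c • r - e • s) =
        J v - a • J p - b • J q - c • J r - e • J s := by
      intro v p q r s a b c e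
      simp only [map_sub, map_smul]
    have e1 : inner ℝ z (J v) = (-inner ℝ (J z) v : ℝ) := by rw [sJ, neg_neg]
    have e2 : inner ℝ (J z) (J v) = (inner ℝ z v : ℝ) := J.inner_map_map z v
    have e3 : inner ℝ (I z) (J v) = (-inner ℝ (J (I z)) v : ℝ) := by
      have := sJ (I z) v
      linarith
    have e4 : inner ℝ (J (I z)) (J v) = (inner ℝ (I z) v : ℝ) := J.inner_map_map (I z) v
    rw [key, e1, e2, e3, e4, h.J2 z, h.J2 (I z)]
    module
  · rw [hL, hFa]
    have e1 : inner ℝ (I z) x = (0 : ℝ) := by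
      rw [hz, map_sub, inner_sub_left, selfI x, sI y x, real_inner_comm, h1]
      simp
    have e2 : inner ℝ (J z) x = (0 : ℝ) := by
      rw [hz, map_sub, inner_sub_left, selfJ x, sJ y x, real_inner_comm, h2]
      simp
    have e3 : inner ℝ (J (I z)) x = (0 : ℝ) := by
      rw [hz, map_sub, map_sub, inner_sub_left, selfK x, sK y x, real_inner_comm, h3]
      simp
    have e4 : k * inner ℝ z x = 1 := by
      have e5 : ‖z‖ ^ 2 = 2 * inner ℝ z x := by
        rw [hz, norm_sub_sq_real, hx, hy, inner_sub_left, real_inner_self_eq_norm_sq, hx,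
          real_inner_comm]
        ring
      rw [e5] at hkn
      linarith
    rw [e1, e2, e3, e4, mul_zero, zero_smul, zero_smul, zero_smul, one_smul, hz]
    simp

lemma qt_trans (hd : 6 ≤ d) {I J : E d →ₗᵢ[ℝ] E d} (h : IsQt I J) (x y : Sph d) :
    ∃ L : E d ≃ₗᵢ[ℝ] E d,
      (∀ A ∈ ({(I : E d → E d), (J : E d → E d)} : Set (E d → E d)), ∀ v, L (A v) = A (L v)) ∧
        L (x : E d) = y := by
  classical
  have hx : ‖(x : E d)‖ = 1 := mem_sphere_zero_iff_norm.1 x.2
  have hy : ‖(y : E d)‖ = 1 := mem_sphere_zero_iff_norm.1 y.2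
  have sI : ∀ v w, inner ℝ (I v) w = (-inner ℝ v (I w) : ℝ) := cx_skew h.I2
  have sJ : ∀ v w, inner ℝ (J v) w = (-inner ℝ v (J w) : ℝ) := cx_skew h.J2
  have sK : ∀ v w, inner ℝ (J (I v)) w = (-inner ℝ v (J (I w)) : ℝ) := by
    intro v w
    rw [sJ, sI, h.IJ, inner_neg_right]
    ring
  obtain ⟨z, hz, hort⟩ := exists_orth
    ({I (x : E d), J (x : E d), J (I (x : E d)), I (y : E d), J (y : E d), J (I (y : E d))} :
      Finset (E d)) ((Finset.card_le_six).trans hd)
  obtain ⟨L1, h1, h2, h3⟩ := qrefl_ex h hx hz (hort _ (by simp)) (hort _ (by simp))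
    (hort _ (by simp))
  have hyI : inner ℝ (I z) (y : E d) = (0 : ℝ) := by
    rw [sI, real_inner_comm, hort _ (by simp)]
    simp
  have hyJ : inner ℝ (J z) (y : E d) = (0 : ℝ) := by
    rw [sJ, real_inner_comm, hort _ (by simp)]
    simp
  have hyK : inner ℝ (J (I z)) (y : E d) = (0 : ℝ) := by
    rw [sK, real_inner_comm, hort _ (by simp)]
    simp
  obtain ⟨L2, k1, k2, k3⟩ := qrefl_ex h hz hy hyI hyJ hyK
  refine ⟨L1.trans L2, ?_, ?_⟩
  · intro A hA v
    rcases hA with rfl | rfl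
    · show L2 (L1 (I v)) = I (L2 (L1 v))
      rw [h1, k1]
    · show L2 (L1 (J v)) = J (L2 (L1 v))
      rw [h2, k2]
  · show L2 (L1 (x : E d)) = y
    rw [h3, k3]

end Pool.Agent.L7h48.HF
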