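import Pool.Agent.L7h48.HF.Asm
import Pool.Agent.L7h48.HF.Qt
import Pool.Agent.L7h48.HF.Det

/-! # Hopf fillings: the two families -/

set_option autoImplicit false

open Real Set MeasureTheory Metric
open scoped ENNReal

namespace Pool.Agent.L7h48.HF

open Pool.Agent.Y499.HC Pool.Agent.Y499.HR Pool.Agent.Y502.HC

variable {d : ℕ}

/-- `a` is a positive continuous function on the collar `[0, R) × S^d`. -/
structure Pos (d : ℕ) (R : ℝ) (a : ℝ → E d → ℝ) : Prop where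
  cont : ContinuousOn (fun p : ℝ × E d => a p.1 p.2) (Ico 0 R ×ˢ sphere 0 1)
  pos : ∀ s ∈ Ico 0 R, ∀ x ∈ sphere (0 : E d) 1, 0 < a s x

/-- The slices `{s} × S^d` have the metric `a² ⟪J x, v⟫² + b² (|v|² - ⟪J x, v⟫²)`. -/
def CSlices (J : E d →ₗᵢ[ℝ] E d) (R : ℝ) (m : Met d) (a b : ℝ → E d → ℝ) : Prop :=
  ∀ s ∈ Ico 0 R, ∀ x ∈ sphere (0 : E d) 1, ∀ v : E d, inner ℝ x v = (0 : ℝ) →
    quad (m.g s x) v = a s x ^ 2 * inner ℝ (J x) v ^ 2 +
      b s x ^ 2 * (‖v‖ ^ 2 - inner ℝ (J x) v ^ 2)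

/-- The slices `{s} × S^d` have the metric
`a₁² ⟪I x, v⟫² + a₂² (⟪J x, v⟫² + ⟪J I x, v⟫²) + b² (|v|² - ⟪I x, v⟫² - ⟪J x, v⟫² - ⟪J I x, v⟫²)`. -/
def QSlices (I J : E d →ₗᵢ[ℝ] E d) (R : ℝ) (m : Met d) (a₁ a₂ b : ℝ → E d → ℝ) : Prop :=
  ∀ s ∈ Ico 0 R, ∀ x ∈ sphere (0 : E d) 1, ∀ v : E d, inner ℝ x v = (0 : ℝ) →
    quad (m.g s x) v = a₁ s x ^ 2 * inner ℝ (I x) v ^ 2 +
      a₂ s x ^ 2 * (inner ℝ (J x) v ^ 2 + inner ℝ (J (I x)) v ^ 2) +
      b s x ^ 2 * (‖v‖ ^ 2 - inner ℝ (I x) v ^ 2 -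
        (inner ℝ (J x) v ^ 2 + inner ℝ (J (I x)) v ^ 2))

/-- One coordinate in the block `0`, the others in the block `1`. -/
def blk2 (d : ℕ) (i : Fin d) : Fin 2 := if (i : ℕ) = 0 then 0 else 1

/-- One coordinate in the block `0`, two in the block `1`, the others in the block `2`. -/
def blk3 (d : ℕ) (i : Fin d) : Fin 3 := if (i : ℕ) = 0 then 0 else if (i : ℕ) < 3 then 1 else 2

lemma blk2_surj (hd : 2 ≤ d) : Function.Surjective (blk2 d) := by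
  intro j
  fin_cases j
  · exact ⟨⟨0, by omega⟩, by simp [blk2]⟩
  · exact ⟨⟨1, by omega⟩, by simp [blk2]⟩

lemma blk3_surj (hd : 4 ≤ d) : Function.Surjective (blk3 d) := by
  intro j
  fin_cases j
  · exact ⟨⟨0, by omega⟩, by simp [blk3]⟩
  · exact ⟨⟨1, by omega⟩, by simp [blk3]⟩
  · exact ⟨⟨3, by omega⟩, by simp [blk3]⟩

lemma prod2 {M : Type} [CommMonoid M] (hd : 1 ≤ d) (f : Fin 2 → M) :
    ∏ i : Fin d, f (blk2 d i) = f 0 * f 1 ^ (d - 1) := by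
  obtain ⟨n, rfl⟩ : ∃ n, d = n + 1 := ⟨d - 1, by omega⟩
  rw [Fin.prod_univ_succ]
  have h0 : blk2 (n + 1) 0 = 0 := by simp [blk2]
  have h1 : ∀ i : Fin n, blk2 (n + 1) i.succ = 1 := fun i => by simp [blk2]
  simp only [h0, h1]
  simp

lemma prod3 {M : Type} [CommMonoid M] (hd : 3 ≤ d) (f : Fin 3 → M) :
    ∏ i : Fin d, f (blk3 d i) = f 0 * f 1 ^ 2 * f 2 ^ (d - 3) := by
  obtain ⟨n, rfl⟩ : ∃ n, d = n + 1 + 1 + 1 := ⟨d - 3, by omega⟩
  rw [Fin.prod_univ_succ, Fin.prod_univ_succ, Fin.prod_univ_succ]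
  have h0 : blk3 (n + 1 + 1 + 1) 0 = 0 := by simp [blk3]
  have h1 : blk3 (n + 1 + 1 + 1) (Fin.succ 0) = 1 := by simp [blk3]
  have h2 : blk3 (n + 1 + 1 + 1) (Fin.succ (Fin.succ 0)) = 1 := by
    show (if (2 : ℕ) = 0 then (0 : Fin 3) else if (2 : ℕ) < 3 then 1 else 2) = 1
    rfl
  have h3 : ∀ i : Fin n, blk3 (n + 1 + 1 + 1) i.succ.succ.succ = 2 := fun i => by
    simp [blk3]
  simp only [h0, h1, h2, h3]
  simp only [Finset.prod_const, Finset.card_univ, Fintype.card_fin]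
  have : n + 1 + 1 + 1 - 3 = n := by omega
  rw [this, sq, mul_assoc, mul_assoc]

lemma sum2 (hd : 1 ≤ d) (f : Fin 2 → ℝ) :
    ∑ i : Fin d, f (blk2 d i) = f 0 + (d - 1) * f 1 := by
  obtain ⟨n, rfl⟩ : ∃ n, d = n + 1 := ⟨d - 1, by omega⟩
  rw [Fin.sum_univ_succ]
  have h0 : blk2 (n + 1) 0 = 0 := by simp [blk2]
  have h1 : ∀ i : Fin n, blk2 (n + 1) i.succ = 1 := fun i => by simp [blk2]
  simp only [h0, h1]
  simp

lemma sum3 (hd : 3 ≤ d) (f : Fin 3 → ℝ) :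
    ∑ i : Fin d, f (blk3 d i) = f 0 + 2 * f 1 + (d - 3) * f 2 := by
  obtain ⟨n, rfl⟩ : ∃ n, d = n + 1 + 1 + 1 := ⟨d - 3, by omega⟩
  rw [Fin.sum_univ_succ, Fin.sum_univ_succ, Fin.sum_univ_succ]
  have h0 : blk3 (n + 1 + 1 + 1) 0 = 0 := by simp [blk3]
  have h1 : blk3 (n + 1 + 1 + 1) (Fin.succ 0) = 1 := by simp [blk3]
  have h2 : blk3 (n + 1 + 1 + 1) (Fin.succ (Fin.succ 0)) = 1 := by
    show (if (2 : ℕ) = 0 then (0 : Fin 3) else if (2 : ℕ) < 3 then 1 else 2) = 1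
    rfl
  have h3 : ∀ i : Fin n, blk3 (n + 1 + 1 + 1) i.succ.succ.succ = 2 := fun i => by
    simp [blk3]
  simp only [h0, h1, h2, h3]
  simp only [Finset.sum_const, Finset.card_univ, Fintype.card_fin, nsmul_eq_mul]
  push_cast
  ring

lemma comp_J (J : E d →ₗᵢ[ℝ] E d) : CompactSpace (Ce ({(J : E d → E d)} : Set (E d → E d))) :=
  isCompact_iff_compactSpace.1 (Ce_closed _ (by
    intro A hA
    rw [mem_singleton_iff] at hA
    subst hA
    exact J.continuous)).isCompact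

lemma comp_IJ (I J : E d →ₗᵢ[ℝ] E d) :
    CompactSpace (Ce ({(I : E d → E d), (J : E d → E d)} : Set (E d → E d))) :=
  isCompact_iff_compactSpace.1 (Ce_closed _ (by
    intro A hA
    rcases hA with rfl | rfl
    · exact I.continuous
    · exact J.continuous)).isCompact

theorem c_energy (hd : 2 ≤ d) {J : E d →ₗᵢ[ℝ] E d} (hJ : IsCx J) {R : ℝ} (hR : π / 2 ≤ R)
    {m : Met d} (hF : Fermi R m) (hS : NonShort R m) {a b : ℝ → E d → ℝ} (ha : Pos d R a)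
    (hb : Pos d R b) (hsl : CSlices J R m a b) :
    hemi d ≤ (σ d) univ * ∫⁻ s in Ioo 0 R, ENNReal.ofReal
      (√(⨍ x, a s x ^ 2 ∂(σ d)) * √(⨍ x, b s x ^ 2 ∂(σ d)) ^ (d - 1)) := by
  have hcomp := comp_J J
  have h := asm_energy (by omega) _ (cx_trans hJ) (q := qc J) (fun g hg j x v => qc_inv J g hg j x v)
    (cx_curves hd hJ) (blk2_surj hd) hR hF hS (c := ![a, b])
    (fun j => by fin_cases j; exacts [ha.cont, hb.cont])
    (fun j => by fin_cases j; exacts [ha.pos, hb.pos])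
    (fun s hs x hx v hv => by
      rw [hsl s hs x hx v hv, Fin.sum_univ_two]
      simp [qc])
  have e : ∀ s, ∏ i, √(av d fun x => (![a, b] : Fin 2 → ℝ → E d → ℝ) (blk2 d i) s x ^ 2) =
      √(⨍ x, a s x ^ 2 ∂(σ d)) * √(⨍ x, b s x ^ 2 ∂(σ d)) ^ (d - 1) := by
    intro s
    rw [prod2 (by omega) (fun j => √(av d fun x => (![a, b] : Fin 2 → ℝ → E d → ℝ) j s x ^ 2))]
    simp only [av_average]
    rfl
  simp only [e] at h
  exact h

theorem q_energy (hd : 6 ≤ d) {I J : E d →ₗᵢ[ℝ] E d} (hJ : IsQt I J) {R : ℝ} (hR : π / 2 ≤ R)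
    {m : Met d} (hF : Fermi R m) (hS : NonShort R m) {a₁ a₂ b : ℝ → E d → ℝ} (ha₁ : Pos d R a₁)
    (ha₂ : Pos d R a₂) (hb : Pos d R b) (hsl : QSlices I J R m a₁ a₂ b) :
    hemi d ≤ (σ d) univ * ∫⁻ s in Ioo 0 R, ENNReal.ofReal
      (√(⨍ x, a₁ s x ^ 2 ∂(σ d)) * √(⨍ x, a₂ s x ^ 2 ∂(σ d)) ^ 2 *
        √(⨍ x, b s x ^ 2 ∂(σ d)) ^ (d - 3)) := by
  have hcomp := comp_IJ I J
  have h := asm_energy (by omega) _ (qt_trans hd hJ) (q := qq I J)
    (fun g hg j x v => qq_inv I J g hg j x v)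
    (qt_curves (by omega) hJ) (blk3_surj (by omega)) hR hF hS (c := ![a₁, a₂, b])
    (fun j => by fin_cases j; exacts [ha₁.cont, ha₂.cont, hb.cont])
    (fun j => by fin_cases j; exacts [ha₁.pos, ha₂.pos, hb.pos])
    (fun s hs x hx v hv => by
      rw [hsl s hs x hx v hv, Fin.sum_univ_three]
      simp [qq])
  have e : ∀ s, ∏ i, √(av d fun x => (![a₁, a₂, b] : Fin 3 → ℝ → E d → ℝ) (blk3 d i) s x ^ 2) =
      √(⨍ x, a₁ s x ^ 2 ∂(σ d)) * √(⨍ x, a₂ s x ^ 2 ∂(σ d)) ^ 2 *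
        √(⨍ x, b s x ^ 2 ∂(σ d)) ^ (d - 3) := by
    intro s
    rw [prod3 (by omega)
      (fun j => √(av d fun x => (![a₁, a₂, b] : Fin 3 → ℝ → E d → ℝ) j s x ^ 2))]
    simp only [av_average]
    rfl
  simp only [e] at h
  exact h

theorem c_vol (hd : 2 ≤ d) {J : E d →ₗᵢ[ℝ] E d} (hJ : IsCx J) {R : ℝ} (hR : π / 2 ≤ R)
    {m : Met d} (hm : Good R m) (hF : Fermi R m) (hS : NonShort R m) {κ : ℝ → ℝ}
    (hκ : ContinuousOn κ (Ico 0 R)) (hκ0 : ∀ s ∈ Ico 0 R, 0 < κ s) {b : ℝ → E d → ℝ}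
    (hb : Pos d R b) {p : ℝ} (hp0 : 0 ≤ p) (hp : p ≤ d - 1) (hdr : 3 ≤ p + d)
    (hsl : CSlices J R m (fun s x => κ s * b s x ^ p) b) : hemi d ≤ vol R m := by
  have hcomp := comp_J J
  have hd1 : (2 : ℝ) ≤ d := by exact_mod_cast hd
  have hsum : ∑ i, (![p, 1] : Fin 2 → ℝ) (blk2 d i) = p + (d - 1) := by
    rw [sum2 (by omega)]
    simp
  refine asm_vol (by omega) _ (cx_trans hJ) (q := qc J) (fun g hg j x v => qc_inv J g hg j x v)
    (cx_curves hd hJ) (blk2_surj hd) hR hF hS (κ := ![κ, fun _ => 1]) (β := b) (e := ![p, 1])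
    ?_ ?_ hb.cont hb.pos ?_ ?_ ?_ ?_ ?_
  · intro j
    fin_cases j
    exacts [hκ, continuousOn_const]
  · intro j
    fin_cases j
    · exact hκ0
    · intro s _
      exact one_pos
  · intro j
    fin_cases j
    · exact hp0
    · exact zero_le_one
  · intro j
    rw [hsum]
    fin_cases j
    · show 2 * p ≤ p + (d - 1)
      linarith
    · show 2 * 1 ≤ p + ((d : ℝ) - 1)
      linarith
  · rw [hsum]
    linarith
  · intro s hs x hx v hv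
    rw [hsl s hs x hx v hv, Fin.sum_univ_two]
    simp [qc]
  · intro s hs x
    have hx : ‖(x : E d)‖ = 1 := mem_sphere_zero_iff_norm.1 x.2
    have hbp : 0 < b s x := hb.pos s hs x x.2
    have h1 := det_one (d := d) (by omega) (m.g s x) (hm.symm s hs x x.2) x (J x) hx
      (by rw [J.norm_map, hx]) (by rw [real_inner_comm]; exact cx_self hJ x)
      (a := κ s * b s x ^ p) (b := b s x) hbp.ne' (fun v hv => hsl s hs x x.2 v hv)
    rw [h1, prod2 (by omega)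
      (fun j => (![κ, fun _ => 1] : Fin 2 → ℝ → ℝ) j s * b s x ^ (![p, 1] : Fin 2 → ℝ) j)]
    simp only [Matrix.cons_val_zero, Matrix.cons_val_one, Matrix.cons_val_fin_one,
      Real.rpow_one, one_mul]
    ring

theorem q_vol (hd : 6 ≤ d) {I J : E d →ₗᵢ[ℝ] E d} (hJ : IsQt I J) {R : ℝ} (hR : π / 2 ≤ R)
    {m : Met d} (hm : Good R m) (hF : Fermi R m) (hS : NonShort R m) {κ₁ κ₂ : ℝ → ℝ}
    (hκ₁ : ContinuousOn κ₁ (Ico 0 R)) (hκ₁0 : ∀ s ∈ Ico 0 R, 0 < κ₁ s)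
    (hκ₂ : ContinuousOn κ₂ (Ico 0 R)) (hκ₂0 : ∀ s ∈ Ico 0 R, 0 < κ₂ s) {b : ℝ → E d → ℝ}
    (hb : Pos d R b) {p₁ p₂ : ℝ} (hp₁0 : 0 ≤ p₁) (hp₁ : p₁ ≤ 2 * p₂ + (d - 3)) (hp₂0 : 0 ≤ p₂)
    (hsl : QSlices I J R m (fun s x => κ₁ s * b s x ^ p₁) (fun s x => κ₂ s * b s x ^ p₂) b) :
    hemi d ≤ vol R m := by
  have hcomp := comp_IJ I J
  have hd1 : (6 : ℝ) ≤ d := by exact_mod_cast hd
  have hsum : ∑ i, (![p₁, p₂, 1] : Fin 3 → ℝ) (blk3 d i) = p₁ + 2 * p₂ + (d - 3) := by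
    rw [sum3 (by omega)]
    simp
  refine asm_vol (by omega) _ (qt_trans hd hJ) (q := qq I J)
    (fun g hg j x v => qq_inv I J g hg j x v)
    (qt_curves (by omega) hJ) (blk3_surj (by omega)) hR hF hS (κ := ![κ₁, κ₂, fun _ => 1])
    (β := b) (e := ![p₁, p₂, 1]) ?_ ?_ hb.cont hb.pos ?_ ?_ ?_ ?_ ?_
  · intro j
    fin_cases j
    exacts [hκ₁, hκ₂, continuousOn_const]
  · intro j
    fin_cases j
    · exact hκ₁0
    · exact hκ₂0
    · intro s _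
      exact one_pos
  · intro j
    fin_cases j
    · exact hp₁0
    · exact hp₂0
    · exact zero_le_one
  · intro j
    rw [hsum]
    fin_cases j
    · show 2 * p₁ ≤ p₁ + 2 * p₂ + (d - 3)
      linarith
    · show 2 * p₂ ≤ p₁ + 2 * p₂ + ((d : ℝ) - 3)
      linarith
    · show 2 * 1 ≤ p₁ + 2 * p₂ + ((d : ℝ) - 3)
      linarith
  · rw [hsum]
    linarith
  · intro s hs x hx v hv
    rw [hsl s hs x hx v hv, Fin.sum_univ_three]
    simp [qq]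
  · intro s hs x
    have hx : ‖(x : E d)‖ = 1 := mem_sphere_zero_iff_norm.1 x.2
    have hbp : 0 < b s x := hb.pos s hs x x.2
    have sI : ∀ v w, inner ℝ (I v) w = (-inner ℝ v (I w) : ℝ) := cx_skew hJ.I2
    have sJ : ∀ v w, inner ℝ (J v) w = (-inner ℝ v (J w) : ℝ) := cx_skew hJ.J2
    have o1 : inner ℝ (x : E d) (I x) = (0 : ℝ) := by rw [real_inner_comm]; exact cx_self hJ.I2 _
    have o2 : inner ℝ (x : E d) (J x) = (0 : ℝ) := by rw [real_inner_comm]; exact cx_self hJ.J2 _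
    have o3 : inner ℝ (I (x : E d)) (J x) = (0 : ℝ) := by
      have h1 := sI x (J x)
      rw [hJ.IJ, inner_neg_right, neg_neg] at h1
      have h2 := sJ x (I x)
      rw [real_inner_comm (I (x : E d)) (J x)] at h2
      linarith
    have o4 : inner ℝ (x : E d) (J (I x)) = (0 : ℝ) := by
      have h2 := sJ x (I x)
      rw [real_inner_comm (I (x : E d)) (J x), o3] at h2
      linarith
    have o5 : inner ℝ (I (x : E d)) (J (I x)) = (0 : ℝ) := by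
      rw [real_inner_comm]; exact cx_self hJ.J2 _
    have o6 : inner ℝ (J (x : E d)) (J (I x)) = (0 : ℝ) := by rw [J.inner_map_map, o1]
    have h1 := det_three (d := d) (by omega) (m.g s x) (hm.symm s hs x x.2) x (I x) (J x) (J (I x))
      hx (by rw [I.norm_map, hx]) (by rw [J.norm_map, hx]) (by rw [J.norm_map, I.norm_map, hx])
      o1 o2 o4 o3 o5 o6
      (a₁ := κ₁ s * b s x ^ p₁) (a₂ := κ₂ s * b s x ^ p₂) (b := b s x) hbp.ne'
      (fun v hv => hsl s hs x x.2 v hv)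
    rw [h1, prod3 (by omega)
      (fun j => (![κ₁, κ₂, fun _ => 1] : Fin 3 → ℝ → ℝ) j s *
        b s x ^ (![p₁, p₂, 1] : Fin 3 → ℝ) j)]
    show _ = (κ₁ s * b s x ^ p₁ * (κ₂ s * b s x ^ p₂) ^ 2 *
      ((1 : ℝ) * b s x ^ (1 : ℝ)) ^ (d - 3)) ^ 2
    rw [Real.rpow_one]
    ring

end Pool.Agent.L7h48.HF
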